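import Mathlib

/-!
# The data of the construction

A `Sys` is an entire function together with radii `ρ n`, bounds `R n` and spiral speeds `H n` with
the properties used in the topological argument.
-/

open Filter Topology Metric Set

namespace Pool.Agent.Work.MP_571b65_an_Q2

/-- The spiral `x ↦ x e^{i H (x - 3)}` (used for `x ∈ [3, 7]`). -/
noncomputable def spi (H x : ℝ) : ℂ := x * Complex.exp (((H * (x - 3) : ℝ) : ℂ) * Complex.I)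

/-- The compact set `E_H`: the closed unit disc together with the spiral arc. -/
def spiralSet (H : ℝ) : Set ℂ := closedBall 0 1 ∪ spi H '' Icc 3 7

/-- The data of the construction. -/
structure Sys (f : ℂ → ℂ) (ρ R H : ℕ → ℝ) : Prop where
  diff : Differentiable ℂ f
  zero : f 0 = 0
  one_le : ∀ n, 3 ≤ ρ n
  step : ∀ n, 54 * ρ n ≤ ρ (n + 1)
  small_disc : ∀ n z, ‖z‖ ≤ ρ n → ‖f z‖ < ρ (n + 1)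
  big_ring : ∀ n z, ‖z‖ = 2 * ρ n → 9 * ρ (n + 1) < ‖f z‖
  big_out : ∀ n z, 8 * ρ n ≤ ‖z‖ → ‖z‖ ≤ ρ (n + 1) / 2 → 9 * ρ (n + 1) < ‖f z‖
  le_out : ∀ n z, ‖z‖ ≤ ρ (n + 1) / 2 → ‖f z‖ < ρ (n + 2) / 2
  deriv_ne : ∀ n z, ‖z‖ < 9 * ρ n → ρ (n + 1) ≤ ‖f z‖ → ‖f z‖ < 9 * ρ (n + 1) → deriv f z ≠ 0
  spiral : ∀ n, ∀ x ∈ Icc (3 : ℝ) 7, ‖f (ρ n * spi (H n) x)‖ < ρ (n + 1)
  zeros : ∀ n z, ‖z‖ < 9 * ρ n → f z = 0 → ∃ C : Set ℂ, IsPreconnected C ∧ z ∈ C ∧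
    (∀ w ∈ C, ‖w‖ < 9 * ρ n ∧ ‖f w‖ < ρ (n + 1)) ∧
    ((∃ w ∈ C, ‖w‖ ≤ ρ n) ∨ ∃ x ∈ Icc (3 : ℝ) 7, (ρ n * spi (H n) x) ∈ C)
  bound : ∀ m n z, m ≤ n → ‖z‖ ≤ 27 * ρ m → ‖f^[n - m] z‖ ≤ R n
  turns : ∀ n, 13 * (R n / ρ n + 3) ≤ H n
  grow : ∀ n z, 8 * ρ n ≤ ‖z‖ → ‖z‖ ≤ ρ (n + 1) / 2 →
    Real.log (ρ (n + 1)) * (1 + Real.log (‖z‖ / ρ n)) ≤ Real.log ‖f z‖
  slow : ∀ n z, ‖z‖ ≤ ρ (n + 1) / 2 → ‖f z‖ ^ (n + 2) ≤ ρ (n + 2)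

/-- The points whose orbit stays in the discs `D (n+j) = {|z| < 9 ρ (n+j)}`. -/
def Kset (f : ℂ → ℂ) (ρ : ℕ → ℝ) (n : ℕ) : Set ℂ := {z | ∀ j, ‖f^[j] z‖ < 9 * ρ (n + j)}

end Pool.Agent.Work.MP_571b65_an_Q2
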