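import Mathlib
import Pool.Agent.Work.MP_571b65_an_Q2.Defs

/-!
# Module A1: a polynomial with all zeros in the spiral set, small on it and large off it
-/

open Filter Topology Metric Set

namespace Pool.Agent.Work.MP_571b65_an_Q2

/-- polynomial convexity: a point off a compact set with connected complement can be peaked -/
lemma exists_poly_small {E : Set ℂ} (hE : IsCompact E) (hconn : IsPreconnected Eᶜ) {w : ℂ}
    (hw : w ∉ E) : ∃ p : Polynomial ℂ, p.eval w = 1 ∧ ∀ z ∈ E, ‖p.eval z‖ ≤ 1 / 2 := by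
  have : CompactSpace E := isCompact_iff_compactSpace.mp hE
  let S : Subalgebra ℂ C(E, ℂ) := (polynomialFunctions E).topologicalClosure
  have hS : IsClosed (S : Set C(E, ℂ)) := Subalgebra.isClosed_topologicalClosure _
  let x0 : C(E, ℂ) := Polynomial.toContinuousMapOnAlgHom E Polynomial.X
  have hx0 : ∀ z : E, x0 z = z := by intro z; simp [x0]
  have hxS : x0 ∈ S := by
    apply Subalgebra.le_topologicalClosure
    rw [← SetLike.mem_coe, polynomialFunctions_coe]
    exact ⟨Polynomial.X, rfl⟩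
  have hspec : spectrum ℂ x0 = E := by
    rw [ContinuousMap.spectrum_eq_range]
    ext z
    constructor
    · rintro ⟨y, rfl⟩
      rw [hx0]; exact y.2
    · intro hz
      exact ⟨⟨z, hz⟩, hx0 _⟩
  have hsp := Subalgebra.spectrum_eq_of_isPreconnected_compl (𝕜 := ℂ) S ⟨x0, hxS⟩ (by
    change IsPreconnected (spectrum ℂ x0)ᶜ
    rw [hspec]; exact hconn)
  have hwn : w ∉ spectrum ℂ (⟨x0, hxS⟩ : S) := by
    rw [hsp]
    change w ∉ spectrum ℂ x0
    rw [hspec]; exact hw
  rw [spectrum.notMem_iff] at hwn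
  obtain ⟨g0, hg0⟩ := hwn.exists_right_inv
  have hg0' : ∀ z : E, (w - z) * (g0 : C(E, ℂ)) z = 1 := by
    intro z
    have h1 := congrArg (fun f : S => (f : C(E, ℂ)) z) hg0
    simpa [hx0] using h1
  set M : ℝ := ‖(algebraMap ℂ C(E, ℂ) w) - x0‖ + 1 with hM
  have hMpos : 0 < M := by positivity
  have hMb : ∀ z : E, ‖w - z‖ ≤ M := by
    intro z
    have h1 := ContinuousMap.norm_coe_le_norm ((algebraMap ℂ C(E, ℂ) w) - x0) z
    have h2 : ((algebraMap ℂ C(E, ℂ) w) - x0) z = w - z := by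
      rw [ContinuousMap.sub_apply, hx0]
      rfl
    rw [h2] at h1
    linarith
  have hcl : (g0 : C(E, ℂ)) ∈ closure (polynomialFunctions E : Set C(E, ℂ)) := by
    have := g0.2
    rwa [← SetLike.mem_coe, Subalgebra.topologicalClosure_coe] at this
  obtain ⟨g, hg, hgd⟩ := Metric.mem_closure_iff.1 hcl (1 / (2 * M)) (by positivity)
  rw [polynomialFunctions_coe] at hg
  obtain ⟨G, rfl⟩ := hg
  refine ⟨1 - (Polynomial.C w - Polynomial.X) * G, by simp, ?_⟩
  intro z hz
  have h1 := hg0' ⟨z, hz⟩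
  have h2 : (1 - (Polynomial.C w - Polynomial.X) * G).eval z =
      (w - z) * ((g0 : C(E, ℂ)) ⟨z, hz⟩ - G.eval z) := by
    rw [mul_sub, h1]
    simp
  rw [h2, norm_mul]
  have h3 : ‖(g0 : C(E, ℂ)) ⟨z, hz⟩ - G.eval z‖ ≤ 1 / (2 * M) := by
    have h4 := ContinuousMap.dist_apply_le_dist (f := (g0 : C(E, ℂ)))
      (g := Polynomial.toContinuousMapOnAlgHom E G) ⟨z, hz⟩
    rw [dist_eq_norm] at h4
    have h5 : (Polynomial.toContinuousMapOnAlgHom E G) ⟨z, hz⟩ = G.eval z := by simp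
    rw [h5] at h4
    linarith
  calc ‖w - z‖ * ‖(g0 : C(E, ℂ)) ⟨z, hz⟩ - G.eval z‖ ≤ M * (1 / (2 * M)) :=
        mul_le_mul (hMb ⟨z, hz⟩) h3 (norm_nonneg _) hMpos.le
    _ = 1 / 2 := by field_simp

lemma exists_deg {E Γ : Set ℂ} (hE : IsCompact E) (hconn : IsPreconnected Eᶜ)
    (hΓ : IsCompact Γ) (hd : ∀ w ∈ Γ, w ∉ E) : ∃ D : ℕ, ∀ w ∈ Γ, ∃ p : Polynomial ℂ,
      p.natDegree ≤ D ∧ (∀ z ∈ E, ‖p.eval z‖ ≤ 1) ∧ 3 / 2 ≤ ‖p.eval w‖ := by
  refine hΓ.induction_on (p := fun s => ∃ D : ℕ, ∀ w ∈ s, ∃ p : Polynomial ℂ,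
      p.natDegree ≤ D ∧ (∀ z ∈ E, ‖p.eval z‖ ≤ 1) ∧ 3 / 2 ≤ ‖p.eval w‖) ?_ ?_ ?_ ?_
  · exact ⟨0, fun w hw => absurd hw (by simp)⟩
  · rintro s t hst ⟨D, hD⟩
    exact ⟨D, fun w hw => hD w (hst hw)⟩
  · rintro s t ⟨D, hD⟩ ⟨D', hD'⟩
    refine ⟨max D D', ?_⟩
    rintro w (hw | hw)
    · obtain ⟨p, h1, h2⟩ := hD w hw
      exact ⟨p, h1.trans (le_max_left _ _), h2⟩
    · obtain ⟨p, h1, h2⟩ := hD' w hw
      exact ⟨p, h1.trans (le_max_right _ _), h2⟩
  · intro w hw
    obtain ⟨p, hp1, hp2⟩ := exists_poly_small hE hconn (hd w hw)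
    refine ⟨{w' | 3 / 2 < ‖(Polynomial.C 2 * p).eval w'‖}, ?_, (Polynomial.C 2 * p).natDegree, ?_⟩
    · apply mem_nhdsWithin_of_mem_nhds
      apply IsOpen.mem_nhds
      · exact isOpen_lt continuous_const (Polynomial.continuous _).norm
      · simp [hp1]; norm_num
    · intro w' hw'
      refine ⟨Polynomial.C 2 * p, le_rfl, ?_, le_of_lt hw'⟩
      intro z hz
      have := hp2 z hz
      simp only [Polynomial.eval_mul, Polynomial.eval_C, norm_mul]
      have h2 : ‖(2 : ℂ)‖ = 2 := by simp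
      rw [h2]; linarith

lemma norm_eval_basis {N : ℕ} (a : Fin N → ℂ) (i : Fin N) (z : ℂ) :
    ‖(Lagrange.basis Finset.univ a i).eval z‖ =
      ∏ j ∈ Finset.univ.erase i, ‖z - a j‖ / ‖a i - a j‖ := by
  rw [Lagrange.basis, Polynomial.eval_prod, norm_prod]
  apply Finset.prod_congr rfl
  intro j hj
  simp [Lagrange.basisDivisor, div_eq_inv_mul]

lemma exists_fekete_pts {E : Set ℂ} (hE : IsCompact E) (hinf : E.Infinite) (N : ℕ) :
    ∃ a : Fin N → ℂ, Function.Injective a ∧ (∀ i, a i ∈ E) ∧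
      ∀ i, ∀ z ∈ E, ‖(Lagrange.basis Finset.univ a i).eval z‖ ≤ 1 := by
  classical
  let W : (Fin N → ℂ) → ℝ := fun a => ∏ i, ∏ j ∈ Finset.univ.erase i, ‖a i - a j‖
  have hW : Continuous W := by
    apply continuous_finsetProd
    intro i _
    apply continuous_finsetProd
    intro j _
    exact ((continuous_apply i).sub (continuous_apply j)).norm
  obtain ⟨b, hb⟩ : ∃ b : Fin N → ℂ, Function.Injective b ∧ ∀ i, b i ∈ E := by
    obtain ⟨t, ht, htc⟩ := hinf.exists_subset_card_eq N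
    let e := t.equivFinOfCardEq htc
    refine ⟨fun i => (e.symm i : ℂ), ?_, ?_⟩
    · intro i j hij
      exact e.symm.injective (Subtype.ext hij)
    · intro i
      exact ht (e.symm i).2
  have hK : IsCompact (Set.pi Set.univ (fun _ : Fin N => E)) := isCompact_univ_pi fun _ => hE
  obtain ⟨a, haK, ha⟩ := hK.exists_isMaxOn ⟨b, fun i _ => hb.2 i⟩ hW.continuousOn
  have hWb : 0 < W b := by
    apply Finset.prod_pos
    intro i _
    apply Finset.prod_pos
    intro j hj
    rw [norm_pos_iff, sub_ne_zero]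
    intro h
    exact (Finset.ne_of_mem_erase hj) (hb.1 h.symm)
  have hWa : 0 < W a := lt_of_lt_of_le hWb (ha (fun i _ => hb.2 i))
  have hinj : Function.Injective a := by
    intro i j hij
    by_contra hne
    have : W a = 0 := by
      apply Finset.prod_eq_zero (Finset.mem_univ i)
      apply Finset.prod_eq_zero (Finset.mem_erase.2 ⟨Ne.symm hne, Finset.mem_univ j⟩)
      rw [hij]; simp
    linarith
  refine ⟨a, hinj, fun i => haK i (Set.mem_univ i), ?_⟩
  intro i0 z hz
  set P : ℂ → ℝ := fun z => ∏ j ∈ Finset.univ.erase i0, ‖z - a j‖ with hP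
  set Q : ℝ := ∏ i ∈ Finset.univ.erase i0, ∏ j ∈ (Finset.univ.erase i).erase i0, ‖a i - a j‖
    with hQ
  have key : ∀ z, W (Function.update a i0 z) = P z ^ 2 * Q := by
    intro z
    simp only [W]
    rw [← Finset.mul_prod_erase Finset.univ _ (Finset.mem_univ i0)]
    have e1 : ∏ j ∈ Finset.univ.erase i0, ‖Function.update a i0 z i0 - Function.update a i0 z j‖
        = P z := by
      apply Finset.prod_congr rfl
      intro j hj
      rw [Function.update_self, Function.update_of_ne (Finset.ne_of_mem_erase hj)]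
    have e2 : ∏ i ∈ Finset.univ.erase i0, ∏ j ∈ Finset.univ.erase i,
        ‖Function.update a i0 z i - Function.update a i0 z j‖ = P z * Q := by
      rw [hP, hQ]
      simp only
      rw [← Finset.prod_mul_distrib]
      apply Finset.prod_congr rfl
      intro i hi
      have hi' := Finset.ne_of_mem_erase hi
      have hi0 : i0 ∈ Finset.univ.erase i := Finset.mem_erase.2 ⟨hi'.symm, Finset.mem_univ _⟩
      rw [← Finset.mul_prod_erase _ _ hi0, Function.update_of_ne hi', Function.update_self,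
        norm_sub_rev]
      congr 1
      apply Finset.prod_congr rfl
      intro j hj
      rw [Function.update_of_ne (Finset.ne_of_mem_erase hj)]
    rw [e1, e2]; ring
  have hself : W a = P (a i0) ^ 2 * Q := by
    rw [← key, Function.update_eq_self]
  have hupd : W (Function.update a i0 z) ≤ W a := by
    apply ha
    intro i _
    by_cases h : i = i0
    · subst h; rw [Function.update_self]; exact hz
    · rw [Function.update_of_ne h]; exact haK i (Set.mem_univ i)
  have hQpos : 0 < Q := by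
    have hQ0 : 0 ≤ Q := Finset.prod_nonneg fun i _ => Finset.prod_nonneg fun j _ => norm_nonneg _
    rcases hQ0.lt_or_eq with h | h
    · exact h
    · rw [hself, ← h] at hWa; simp at hWa
  have hPpos : 0 < P (a i0) := by
    have hP0 : 0 ≤ P (a i0) := Finset.prod_nonneg fun j _ => norm_nonneg _
    rcases hP0.lt_or_eq with h | h
    · exact h
    · rw [hself, ← h] at hWa; simp at hWa
  have hPz : P z ≤ P (a i0) := by
    rw [key, hself] at hupd
    have := le_of_mul_le_mul_right hupd hQpos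
    exact le_of_sq_le_sq this hPpos.le
  rw [norm_eval_basis, Finset.prod_div_distrib]
  exact (div_le_one hPpos).2 hPz

/-! ### The spiral set -/

lemma continuous_spi (H : ℝ) : Continuous (spi H) := by
  unfold spi
  fun_prop

lemma norm_spi (H : ℝ) {x : ℝ} (hx : 0 ≤ x) : ‖spi H x‖ = x := by
  unfold spi
  rw [norm_mul, Complex.norm_exp_ofReal_mul_I, mul_one, Complex.norm_real, Real.norm_eq_abs,
    abs_of_nonneg hx]

lemma isCompact_spiralSet (H : ℝ) : IsCompact (spiralSet H) :=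
  (isCompact_closedBall 0 1).union (isCompact_Icc.image (continuous_spi H))

lemma norm_le_of_mem_spiralSet {H : ℝ} {z : ℂ} (hz : z ∈ spiralSet H) : ‖z‖ ≤ 7 := by
  rcases hz with hz | ⟨x, hx, rfl⟩
  · have : ‖z‖ ≤ 1 := by simpa using hz
    linarith
  · rw [norm_spi H (by linarith [hx.1])]; exact hx.2

lemma norm_of_mem_spiralSet {H : ℝ} {z : ℂ} (hz : z ∈ spiralSet H) : ‖z‖ ≤ 1 ∨ 3 ≤ ‖z‖ := by
  rcases hz with hz | ⟨x, hx, rfl⟩
  · left; simpa using hz
  · right; rw [norm_spi H (by linarith [hx.1])]; exact hx.1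

lemma infinite_spiralSet (H : ℝ) : (spiralSet H).Infinite := by
  apply Set.Infinite.mono (s := closedBall (0 : ℂ) 1) subset_union_left
  exact infinite_of_mem_nhds (0 : ℂ) (closedBall_mem_nhds _ one_pos)

lemma isPreconnected_compl_spiralSet (H : ℝ) : IsPreconnected (spiralSet H)ᶜ := by
  let g : ℝ × ℝ → ℂ := fun p => p.1 * Complex.exp ((p.2 : ℂ) * Complex.I)
  let g3 : ℝ × ℝ → ℂ := fun p => p.1 * Complex.exp (((H * (p.1 - 3) + p.2 : ℝ) : ℂ) * Complex.I)
  have hg : Continuous g := by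
    simp only [g]; fun_prop
  have hg3 : Continuous g3 := by
    simp only [g3]; fun_prop
  have hgn : ∀ p : ℝ × ℝ, 0 ≤ p.1 → ‖g p‖ = p.1 := by
    intro p hp
    simp only [g]
    rw [norm_mul, Complex.norm_exp_ofReal_mul_I, mul_one, Complex.norm_real, Real.norm_eq_abs,
      abs_of_nonneg hp]
  have hg3n : ∀ p : ℝ × ℝ, 0 ≤ p.1 → ‖g3 p‖ = p.1 := by
    intro p hp
    simp only [g3]
    rw [norm_mul, Complex.norm_exp_ofReal_mul_I, mul_one, Complex.norm_real, Real.norm_eq_abs,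
      abs_of_nonneg hp]
  have heq : (spiralSet H)ᶜ = (g '' (Ioo 1 3 ×ˢ univ) ∪ g3 '' (Ioi 1 ×ˢ Ioo 0 (2 * Real.pi))) ∪
      g '' (Ioi 7 ×ˢ univ) := by
    ext z
    constructor
    · intro hz
      have h1 : 1 < ‖z‖ := by
        by_contra h
        exact hz (Or.inl (by simpa using not_lt.1 h))
      have hzarg : (‖z‖ : ℂ) * Complex.exp ((Complex.arg z : ℂ) * Complex.I) = z :=
        Complex.norm_mul_exp_arg_mul_I z
      by_cases h3 : ‖z‖ < 3
      · exact Or.inl (Or.inl ⟨(‖z‖, Complex.arg z), ⟨⟨h1, h3⟩, mem_univ _⟩, hzarg⟩)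
      by_cases h7 : 7 < ‖z‖
      · exact Or.inr ⟨(‖z‖, Complex.arg z), ⟨h7, mem_univ _⟩, hzarg⟩
      push Not at h3 h7
      left; right
      have hpi : (0 : ℝ) < 2 * Real.pi := Real.two_pi_pos
      have hm := toIcoMod_mem_Ico hpi (H * (‖z‖ - 3)) (Complex.arg z)
      set t := toIcoMod hpi (H * (‖z‖ - 3)) (Complex.arg z) with ht
      have hzt : (‖z‖ : ℂ) * Complex.exp ((t : ℂ) * Complex.I) = z := by
        have h5 : Complex.exp ((t : ℂ) * Complex.I) =
            Complex.exp ((Complex.arg z : ℂ) * Complex.I) := by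
          rw [Complex.exp_eq_exp_iff_exists_int]
          refine ⟨- toIcoDiv hpi (H * (‖z‖ - 3)) (Complex.arg z), ?_⟩
          have h6 := self_sub_toIcoDiv_zsmul hpi (H * (‖z‖ - 3)) (Complex.arg z)
          rw [← ht, zsmul_eq_mul] at h6
          rw [← h6]
          push_cast
          ring
        rw [h5, hzarg]
      refine ⟨(‖z‖, t - H * (‖z‖ - 3)), ⟨h1, ?_, ?_⟩, ?_⟩
      · have : H * (‖z‖ - 3) ≠ t := by
          intro h
          apply hz
          right
          refine ⟨‖z‖, ⟨h3, h7⟩, ?_⟩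
          unfold spi
          rw [h]; exact hzt
        have := lt_of_le_of_ne hm.1 this
        simp only; linarith
      · simp only; linarith [hm.2]
      · simp only [g3]
        rw [show H * (‖z‖ - 3) + (t - H * (‖z‖ - 3)) = t by ring]
        exact hzt
    · rintro ((⟨p, ⟨hp, -⟩, rfl⟩ | ⟨p, ⟨hp, hp2⟩, rfl⟩) | ⟨p, ⟨hp, -⟩, rfl⟩) hmem
      · have h := norm_of_mem_spiralSet hmem
        rw [hgn p (by linarith [hp.1])] at h
        rcases h with h | h
        · linarith [hp.1]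
        · linarith [hp.2]
      · have hp' : (1 : ℝ) < p.1 := hp
        rcases hmem with h | ⟨y, hy, hyz⟩
        · have h : ‖g3 p‖ ≤ 1 := by simpa using h
          rw [hg3n p (by linarith)] at h
          linarith
        · have hn : y = p.1 := by
            have := congrArg norm hyz
            rwa [norm_spi H (by linarith [hy.1]), hg3n p (by linarith)] at this
          subst hn
          unfold spi at hyz
          simp only [g3] at hyz
          have hne : ((p.1 : ℝ) : ℂ) ≠ 0 := by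
            rw [Complex.ofReal_ne_zero]; linarith
          have h5 := mul_left_cancel₀ hne hyz
          rw [Complex.exp_eq_exp_iff_exists_int] at h5
          obtain ⟨n, hn⟩ := h5
          have h6 : ((H * (p.1 - 3) : ℝ) : ℂ) =
              ((H * (p.1 - 3) + p.2 : ℝ) : ℂ) + n * (2 * Real.pi) := by
            have : ((H * (p.1 - 3) : ℝ) : ℂ) * Complex.I =
              (((H * (p.1 - 3) + p.2 : ℝ) : ℂ) + n * (2 * Real.pi)) * Complex.I := by
              rw [hn]; ring
            exact mul_right_cancel₀ Complex.I_ne_zero this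
          have h7 : H * (p.1 - 3) = H * (p.1 - 3) + p.2 + n * (2 * Real.pi) := by
            exact_mod_cast h6
          have hpi : (0 : ℝ) < 2 * Real.pi := Real.two_pi_pos
          have h8 : p.2 = (-n : ℝ) * (2 * Real.pi) := by linarith
          have h9 : (0 : ℝ) < -n := by
            by_contra hcon
            push Not at hcon
            have : (-n : ℝ) * (2 * Real.pi) ≤ 0 := mul_nonpos_of_nonpos_of_nonneg hcon hpi.le
            linarith [hp2.1]
          have h10 : (-n : ℝ) < 1 := by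
            by_contra hcon
            push Not at hcon
            have : 1 * (2 * Real.pi) ≤ (-n : ℝ) * (2 * Real.pi) :=
              mul_le_mul_of_nonneg_right hcon hpi.le
            linarith [hp2.2]
          have h11 : (0 : ℤ) < -n := by exact_mod_cast h9
          have h12 : (-n : ℤ) < 1 := by exact_mod_cast h10
          omega
      · have hp' : (7 : ℝ) < p.1 := hp
        have h := norm_le_of_mem_spiralSet hmem
        rw [hgn p (by linarith)] at h
        linarith
  rw [heq]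
  have c1 : IsPreconnected (g '' (Ioo 1 3 ×ˢ univ)) :=
    ((isPreconnected_Ioo.prod isPreconnected_univ)).image g hg.continuousOn
  have c2 : IsPreconnected (g '' (Ioi 7 ×ˢ univ)) :=
    ((isPreconnected_Ioi.prod isPreconnected_univ)).image g hg.continuousOn
  have c3 : IsPreconnected (g3 '' (Ioi 1 ×ˢ Ioo 0 (2 * Real.pi))) :=
    ((isPreconnected_Ioi.prod isPreconnected_Ioo)).image g3 hg3.continuousOn
  have h2pi : (1 : ℝ) < 2 * Real.pi := by
    have := Real.pi_gt_three; linarith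
  have c13 : IsPreconnected (g '' (Ioo 1 3 ×ˢ univ) ∪ g3 '' (Ioi 1 ×ˢ Ioo 0 (2 * Real.pi))) := by
    apply IsPreconnected.union (g (2, H * (2 - 3) + 1)) _ _ c1 c3
    · exact ⟨_, ⟨⟨by norm_num, by norm_num⟩, mem_univ _⟩, rfl⟩
    · exact ⟨(2, 1), ⟨by norm_num, by norm_num, h2pi⟩, rfl⟩
  apply IsPreconnected.union (g (8, H * (8 - 3) + 1)) _ _ c13 c2
  · right
    exact ⟨(8, 1), ⟨by norm_num, by norm_num, h2pi⟩, rfl⟩
  · exact ⟨_, ⟨by norm_num, mem_univ _⟩, rfl⟩

/-! ### One large Lagrange polynomial -/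

lemma exists_lagrange {E Γ : Set ℂ} (hE : IsCompact E) (hinf : E.Infinite)
    (hconn : IsPreconnected Eᶜ) (hΓ : IsCompact Γ)
    (hd : ∀ w ∈ Γ, ∀ e ∈ E, 1 ≤ ‖w - e‖ ∧ ‖w - e‖ ≤ 15) (B : ℝ) :
    ∃ (N : ℕ) (a : Fin N → ℂ) (i : Fin N), Function.Injective a ∧ (∀ j, a j ∈ E) ∧
      (∀ z ∈ E, ‖(Lagrange.basis Finset.univ a i).eval z‖ ≤ 1) ∧
      ∀ w ∈ Γ, B ≤ ‖(Lagrange.basis Finset.univ a i).eval w‖ := by
  obtain ⟨D, hD⟩ := exists_deg hE hconn hΓ (fun w hw hwE => by
    have := (hd w hw w hwE).1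
    simp at this
    linarith)
  -- choose the exponent
  obtain ⟨k, hk⟩ : ∃ k : ℕ, B * 15 * ((k * D + 1 : ℕ) : ℝ) ≤ (3 / 2 : ℝ) ^ k := by
    have t1 := tendsto_pow_const_div_const_pow_of_one_lt 1 (r := (3 / 2 : ℝ)) (by norm_num)
    have t0 := tendsto_pow_const_div_const_pow_of_one_lt 0 (r := (3 / 2 : ℝ)) (by norm_num)
    have t := (t1.const_mul (B * 15 * D)).add (t0.const_mul (B * 15))
    rw [mul_zero, mul_zero, add_zero] at t
    obtain ⟨k, hk⟩ := (t.eventually (gt_mem_nhds (zero_lt_one))).exists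
    refine ⟨k, ?_⟩
    have hpos : (0 : ℝ) < (3 / 2 : ℝ) ^ k := by positivity
    have : (B * 15 * D) * ((k : ℝ) ^ 1 / (3 / 2 : ℝ) ^ k) + B * 15 * ((k : ℝ) ^ 0 / (3 / 2 : ℝ) ^ k)
        = (B * 15 * ((k * D + 1 : ℕ) : ℝ)) / (3 / 2 : ℝ) ^ k := by
      push_cast; ring
    rw [this, div_lt_one hpos] at hk
    exact hk.le
  obtain ⟨a, hinj, haE, hbd⟩ := exists_fekete_pts hE hinf (k * D + 1)
  obtain ⟨i0, -, hi0⟩ := Finset.exists_min_image (Finset.univ : Finset (Fin (k * D + 1)))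
    (fun i => ∏ j ∈ Finset.univ.erase i, ‖a i - a j‖) ⟨0, Finset.mem_univ _⟩
  refine ⟨k * D + 1, a, i0, hinj, haE, hbd i0, ?_⟩
  intro w hw
  obtain ⟨p, hpdeg, hpE, hpw⟩ := hD w hw
  -- interpolation
  have hint : p ^ k = Lagrange.interpolate Finset.univ a (fun i => (p ^ k).eval (a i)) := by
    apply Lagrange.eq_interpolate (v := a) hinj.injOn
    rw [Finset.card_univ, Fintype.card_fin]
    apply lt_of_le_of_lt (Polynomial.degree_le_natDegree)
    have : (p ^ k).natDegree ≤ k * D :=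
      (Polynomial.natDegree_pow_le).trans (Nat.mul_le_mul_left _ hpdeg)
    exact_mod_cast Nat.lt_succ_of_le this
  have hsum : (3 / 2 : ℝ) ^ k ≤ ∑ i, ‖(Lagrange.basis Finset.univ a i).eval w‖ := by
    have h1 : (p ^ k).eval w = ∑ i, (p ^ k).eval (a i) * (Lagrange.basis Finset.univ a i).eval w := by
      conv_lhs => rw [hint]
      rw [Lagrange.interpolate_apply, Polynomial.eval_finsetSum]
      simp
    calc (3 / 2 : ℝ) ^ k ≤ ‖p.eval w‖ ^ k := pow_le_pow_left₀ (by norm_num) hpw k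
      _ = ‖(p ^ k).eval w‖ := by rw [Polynomial.eval_pow, norm_pow]
      _ ≤ ∑ i, ‖(p ^ k).eval (a i) * (Lagrange.basis Finset.univ a i).eval w‖ := by
          rw [h1]; exact norm_sum_le _ _
      _ ≤ ∑ i, ‖(Lagrange.basis Finset.univ a i).eval w‖ := by
          apply Finset.sum_le_sum
          intro i _
          rw [norm_mul, Polynomial.eval_pow, norm_pow]
          have : ‖p.eval (a i)‖ ^ k ≤ 1 := pow_le_one₀ (norm_nonneg _) (hpE _ (haE i))
          exact mul_le_of_le_one_left (norm_nonneg _) this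
  -- comparison with the index `i0`
  have hcomp : ∀ i, ‖(Lagrange.basis Finset.univ a i).eval w‖ ≤
      15 * ‖(Lagrange.basis Finset.univ a i0).eval w‖ := by
    intro i
    rw [norm_eval_basis, norm_eval_basis, Finset.prod_div_distrib, Finset.prod_div_distrib]
    have hVpos : ∀ i, 0 < ∏ j ∈ Finset.univ.erase i, ‖a i - a j‖ := by
      intro i
      apply Finset.prod_pos
      intro j hj
      rw [norm_pos_iff, sub_ne_zero]
      intro h
      exact (Finset.ne_of_mem_erase hj) (hinj h.symm)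
    have hΩ : ∀ i, ‖w - a i‖ * ∏ j ∈ Finset.univ.erase i, ‖w - a j‖ = ∏ j, ‖w - a j‖ := fun i =>
      Finset.mul_prod_erase Finset.univ (fun j => ‖w - a j‖) (Finset.mem_univ i)
    have hPi : 0 ≤ ∏ j ∈ Finset.univ.erase i, ‖w - a j‖ := Finset.prod_nonneg fun _ _ => norm_nonneg _
    have hPi0 : 0 ≤ ∏ j ∈ Finset.univ.erase i0, ‖w - a j‖ :=
      Finset.prod_nonneg fun _ _ => norm_nonneg _
    have h1 : ∏ j ∈ Finset.univ.erase i, ‖w - a j‖ ≤ 15 * ∏ j ∈ Finset.univ.erase i0, ‖w - a j‖ := by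
      calc ∏ j ∈ Finset.univ.erase i, ‖w - a j‖
          ≤ ‖w - a i‖ * ∏ j ∈ Finset.univ.erase i, ‖w - a j‖ :=
            le_mul_of_one_le_left hPi (hd w hw _ (haE i)).1
        _ = ‖w - a i0‖ * ∏ j ∈ Finset.univ.erase i0, ‖w - a j‖ := by rw [hΩ, hΩ]
        _ ≤ 15 * ∏ j ∈ Finset.univ.erase i0, ‖w - a j‖ :=
            mul_le_mul_of_nonneg_right (hd w hw _ (haE i0)).2 hPi0
    have h2 := hi0 i (Finset.mem_univ i)
    rw [← mul_div_assoc]
    calc _ ≤ (15 * ∏ j ∈ Finset.univ.erase i0, ‖w - a j‖) / ∏ j ∈ Finset.univ.erase i, ‖a i - a j‖ :=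
          div_le_div_of_nonneg_right h1 (hVpos i).le
      _ ≤ _ := div_le_div_of_nonneg_left (by positivity) (hVpos i0) h2
  have hle : (3 / 2 : ℝ) ^ k ≤
      ((k * D + 1 : ℕ) : ℝ) * (15 * ‖(Lagrange.basis Finset.univ a i0).eval w‖) := by
    refine hsum.trans ?_
    calc _ ≤ ∑ i : Fin (k * D + 1), 15 * ‖(Lagrange.basis Finset.univ a i0).eval w‖ :=
          Finset.sum_le_sum fun i _ => hcomp i
      _ = _ := by
          rw [Finset.sum_const, Finset.card_univ, Fintype.card_fin, nsmul_eq_mul]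
  have hNpos : (0 : ℝ) < 15 * ((k * D + 1 : ℕ) : ℝ) := by positivity
  have hfin : B * (15 * ((k * D + 1 : ℕ) : ℝ)) ≤
      ‖(Lagrange.basis Finset.univ a i0).eval w‖ * (15 * ((k * D + 1 : ℕ) : ℝ)) := by
    calc B * (15 * ((k * D + 1 : ℕ) : ℝ)) = B * 15 * ((k * D + 1 : ℕ) : ℝ) := by ring
      _ ≤ _ := hk.trans hle
      _ = _ := by ring
  exact le_of_mul_le_mul_right hfin hNpos

lemma norm_sub_ge_of_scale {x a : ℂ} (hx : 8 ≤ ‖x‖) (ha : ‖a‖ ≤ 7) :
    ‖((8 / ‖x‖ : ℝ) : ℂ) * x - a‖ ≤ ‖x - a‖ := by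
  have hx0 : 0 < ‖x‖ := by linarith
  have h1 : ‖((8 / ‖x‖ : ℝ) : ℂ) * x‖ = 8 := by
    rw [norm_mul, Complex.norm_real, Real.norm_eq_abs, abs_of_pos (by positivity)]
    field_simp
  have h2 : ‖x - ((8 / ‖x‖ : ℝ) : ℂ) * x‖ = ‖x‖ - 8 := by
    have : x - ((8 / ‖x‖ : ℝ) : ℂ) * x = ((1 - 8 / ‖x‖ : ℝ) : ℂ) * x := by
      push_cast; ring
    rw [this, norm_mul, Complex.norm_real, Real.norm_eq_abs, abs_of_nonneg, sub_mul, one_mul]
    · field_simp
    · rw [sub_nonneg, div_le_one hx0]; exact hx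
  -- work with squares
  set s : ℝ := 8 / ‖x‖ with hs
  have hs1 : s ≤ 1 := by rw [hs, div_le_one hx0]; exact hx
  have hs0 : 0 < s := by positivity
  have hsx : s * ‖x‖ = 8 := by rw [hs]; field_simp
  have e1 := norm_sub_sq_real ((s : ℂ) * x) a
  have e2 := norm_sub_sq_real x a
  have e3 : inner ℝ ((s : ℂ) * x) a = s * inner ℝ x a := by
    rw [← real_inner_smul_left]
    congr 1
  have hin : inner ℝ x a ≤ ‖x‖ * 7 :=
    (real_inner_le_norm x a).trans (mul_le_mul_of_nonneg_left ha hx0.le)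
  rw [e3, h1] at e1
  have hsq : ‖(s : ℂ) * x - a‖ ^ 2 ≤ ‖x - a‖ ^ 2 := by
    rw [e1, e2]
    have : (1 - s) * inner ℝ x a ≤ (1 - s) * (‖x‖ * 7) :=
      mul_le_mul_of_nonneg_left hin (by linarith)
    nlinarith [hsx, this, mul_nonneg (sub_nonneg.2 hs1) hx0.le]
  exact le_of_sq_le_sq hsq (norm_nonneg _)

/-- Module A1: a polynomial with all zeros in the spiral set, bounded by one on it and large on
the circle of radius two and outside the disc of radius eight. -/
theorem exists_fekete (H A : ℝ) : ∃ F : Polynomial ℂ,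
    (∀ x, F.eval x = 0 → x ∈ spiralSet H) ∧ (∀ x ∈ spiralSet H, ‖F.eval x‖ ≤ 1) ∧
    (∀ x, ‖x‖ = 2 → A ≤ ‖F.eval x‖) ∧ (∀ x, 8 ≤ ‖x‖ → A * ‖x‖ ≤ ‖F.eval x‖) := by
  have hΓ : IsCompact (sphere (0 : ℂ) 2 ∪ sphere (0 : ℂ) 8) :=
    (isCompact_sphere _ _).union (isCompact_sphere _ _)
  obtain ⟨N, a, i, hinj, haE, hbd, hbig⟩ := exists_lagrange (isCompact_spiralSet H)
    (infinite_spiralSet H) (isPreconnected_compl_spiralSet H) hΓ (by
      rintro w hw e he
      have h1 := norm_of_mem_spiralSet he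
      have h2 := norm_le_of_mem_spiralSet he
      have h3 := norm_sub_norm_le w e
      have h4 := norm_sub_norm_le e w
      rw [norm_sub_rev] at h4
      have h5 := norm_sub_le w e
      rcases hw with hw | hw
      · have hw' : ‖w‖ = 2 := by simpa using hw
        constructor
        · rcases h1 with h1 | h1 <;> linarith
        · linarith
      · have hw' : ‖w‖ = 8 := by simpa using hw
        constructor
        · linarith
        · linarith) (7 * |A|)
  set l := Lagrange.basis Finset.univ a i with hl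
  have hev : ∀ x, ‖(Polynomial.X * l * Polynomial.C (1 / 7)).eval x‖ = ‖x‖ / 7 * ‖l.eval x‖ := by
    intro x
    simp only [Polynomial.eval_mul, Polynomial.eval_X, Polynomial.eval_C, norm_mul]
    have : ‖(1 / 7 : ℂ)‖ = 1 / 7 := by simp
    rw [this]; ring
  refine ⟨Polynomial.X * l * Polynomial.C (1 / 7), ?_, ?_, ?_, ?_⟩
  · intro x hx
    have h0 : ‖x‖ / 7 * ‖l.eval x‖ = 0 := by rw [← hev, hx, norm_zero]
    rcases mul_eq_zero.1 h0 with h | h
    · left
      have : ‖x‖ = 0 := by linarith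
      simp [this]
    · rw [hl, norm_eval_basis] at h
      obtain ⟨j, hj, hj0⟩ := Finset.prod_eq_zero_iff.1 h
      rcases div_eq_zero_iff.1 hj0 with h1 | h1
      · rw [norm_eq_zero, sub_eq_zero] at h1
        rw [h1]; exact haE j
      · rw [norm_eq_zero, sub_eq_zero] at h1
        exact absurd (hinj h1).symm (Finset.ne_of_mem_erase hj)
  · intro x hx
    rw [hev]
    have h1 := norm_le_of_mem_spiralSet hx
    calc ‖x‖ / 7 * ‖l.eval x‖ ≤ 1 * 1 :=
          mul_le_mul (by linarith) (hbd x hx) (norm_nonneg _) zero_le_one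
      _ = 1 := one_mul 1
  · intro x hx
    rw [hev, hx]
    have h1 := hbig x (Or.inl (by simpa using hx))
    have h2 := le_abs_self A
    have h3 := abs_nonneg A
    linarith
  · intro x hx
    rw [hev]
    have hx0 : 0 < ‖x‖ := by linarith
    have h1 : ‖l.eval (((8 / ‖x‖ : ℝ) : ℂ) * x)‖ ≤ ‖l.eval x‖ := by
      rw [hl, norm_eval_basis, norm_eval_basis]
      apply Finset.prod_le_prod
      · intro j _; positivity
      · intro j _
        exact div_le_div_of_nonneg_right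
          (norm_sub_ge_of_scale hx (norm_le_of_mem_spiralSet (haE j))) (norm_nonneg _)
    have h2 := hbig (((8 / ‖x‖ : ℝ) : ℂ) * x) (Or.inr (by
      rw [mem_sphere_zero_iff_norm, norm_mul, Complex.norm_real, Real.norm_eq_abs,
        abs_of_pos (by positivity)]
      field_simp))
    have h3 : 7 * |A| ≤ ‖l.eval x‖ := h2.trans h1
    calc A * ‖x‖ ≤ |A| * ‖x‖ := mul_le_mul_of_nonneg_right (le_abs_self A) hx0.le
      _ = ‖x‖ / 7 * (7 * |A|) := by ring
      _ ≤ ‖x‖ / 7 * ‖l.eval x‖ := mul_le_mul_of_nonneg_left h3 (by positivity)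

end Pool.Agent.Work.MP_571b65_an_Q2
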