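import Mathlib
import Pool.Agent.Work.MP_571b65_an_Q2.Defs
import Pool.Agent.Work.MP_571b65_an_Q2.Fekete

/-!
# Module A3: one step of the construction
-/

open Filter Topology Metric Set

namespace Pool.Agent.Work.MP_571b65_an_Q2

lemma ev_lt {a b : ℝ} (ha : 0 ≤ a) (hab : a < b) (hb : 1 < b) (A B : ℝ) :
    ∀ᶠ M : ℕ in atTop, A * a ^ M + B < b ^ M := by
  have hb0 : 0 < b := by linarith
  have t1 : Tendsto (fun M : ℕ => (a / b) ^ M) atTop (𝓝 0) :=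
    tendsto_pow_atTop_nhds_zero_of_lt_one (div_nonneg ha hb0.le) ((div_lt_one hb0).2 hab)
  have t2 : Tendsto (fun M : ℕ => (1 / b) ^ M) atTop (𝓝 0) :=
    tendsto_pow_atTop_nhds_zero_of_lt_one (by positivity) ((div_lt_one hb0).2 hb)
  have t := (t1.const_mul A).add (t2.const_mul B)
  rw [mul_zero, mul_zero, add_zero] at t
  filter_upwards [t.eventually (gt_mem_nhds (zero_lt_one))] with M hM
  have hpos : 0 < b ^ M := pow_pos hb0 M
  have : A * (a / b) ^ M + B * (1 / b) ^ M = (A * a ^ M + B) / b ^ M := by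
    rw [div_pow, div_pow, one_pow]; ring
  rw [this, div_lt_one hpos] at hM
  exact hM

lemma exists_zero_in_component {F : Polynomial ℂ} {t : ℝ} (ht : 0 < t)
    (hb : ∀ y, 8 ≤ ‖y‖ → t ≤ ‖F.eval y‖) {x : ℂ} (hx : ‖F.eval x‖ < t) :
    ∃ y ∈ connectedComponentIn {y | ‖F.eval y‖ < t} x, F.eval y = 0 := by
  by_contra hcon
  push Not at hcon
  set Ω : Set ℂ := {y | ‖F.eval y‖ < t} with hΩ
  have hΩo : IsOpen Ω := isOpen_lt F.continuous.norm continuous_const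
  set V := connectedComponentIn Ω x with hV
  have hVo : IsOpen V := hΩo.connectedComponentIn
  have hVΩ : V ⊆ Ω := connectedComponentIn_subset _ _
  have hxV : x ∈ V := mem_connectedComponentIn hx
  have hVb : Bornology.IsBounded V := by
    apply (isBounded_closedBall (x := (0 : ℂ)) (r := 8)).subset
    intro y hy
    rw [mem_closedBall_zero_iff]
    by_contra h
    push Not at h
    have h1 := hb y h.le
    have h2 : ‖F.eval y‖ < t := hVΩ hy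
    linarith
  have hfr : ∀ y ∈ frontier V, t ≤ ‖F.eval y‖ := by
    intro y hy
    by_contra h
    push Not at h
    have hyΩ : y ∈ Ω := h
    have hyo : IsOpen (connectedComponentIn Ω y) := hΩo.connectedComponentIn
    have hycl : y ∈ closure V := frontier_subset_closure hy
    obtain ⟨z, hz1, hz2⟩ := mem_closure_iff.1 hycl _ hyo (mem_connectedComponentIn hyΩ)
    have e1 := connectedComponentIn_eq hz1
    have e2 := connectedComponentIn_eq hz2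
    have : y ∈ V := by
      rw [hV, e2, ← e1]; exact mem_connectedComponentIn hyΩ
    rw [hVo.frontier_eq] at hy
    exact hy.2 this
  have hne : ∀ y ∈ closure V, F.eval y ≠ 0 := by
    intro y hy
    by_cases hyV : y ∈ V
    · exact hcon y hyV
    · intro h0
      have h1 := hfr y (by rw [hVo.frontier_eq]; exact ⟨hy, hyV⟩)
      rw [h0, norm_zero] at h1
      linarith
  have hdc : DiffContOnCl ℂ (fun y => (F.eval y)⁻¹) V := by
    apply DiffContOnCl.inv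
    · exact F.differentiable.diffContOnCl
    · exact hne
  have h1 := Complex.norm_le_of_forall_mem_frontier_norm_le hVb hdc (C := t⁻¹) (by
    intro y hy
    rw [norm_inv]
    exact inv_anti₀ ht (hfr y hy)) (subset_closure hxV)
  rw [norm_inv] at h1
  have hxpos : 0 < ‖F.eval x‖ := norm_pos_iff.2 (hcon x hxV)
  have h2 := (inv_le_inv₀ hxpos ht).1 h1
  linarith

lemma exists_annulus (F : Polynomial ℂ) (hF : F.derivative ≠ 0) :
    ∃ φ₁ φ φ₂ : ℝ, 1 < φ₁ ∧ φ₁ < φ ∧ φ < φ₂ ∧ φ₂ < 2 ∧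
      ∀ x, φ₁ ≤ ‖F.eval x‖ → ‖F.eval x‖ ≤ φ₂ → F.derivative.eval x ≠ 0 := by
  classical
  set S : Finset ℝ := F.derivative.roots.toFinset.image (fun c => ‖F.eval c‖) with hS
  have hopen : IsOpen (Ioo (1 : ℝ) 2 \ (S : Set ℝ)) := isOpen_Ioo.sdiff S.finite_toSet.isClosed
  obtain ⟨φ, hφ⟩ : (Ioo (1 : ℝ) 2 \ (S : Set ℝ)).Nonempty :=
    ((Ioo_infinite (one_lt_two)).sdiff S.finite_toSet).nonempty
  obtain ⟨ε, hε, hball⟩ := Metric.isOpen_iff.1 hopen φ hφ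
  have hmem : ∀ t, φ - ε / 2 ≤ t → t ≤ φ + ε / 2 → t ∈ Ioo (1 : ℝ) 2 \ (S : Set ℝ) := by
    intro t h1 h2
    apply hball
    rw [mem_ball, Real.dist_eq, abs_lt]
    constructor <;> linarith
  refine ⟨φ - ε / 2, φ, φ + ε / 2, (hmem _ le_rfl (by linarith)).1.1, by linarith, by linarith,
    (hmem _ (by linarith) le_rfl).1.2, ?_⟩
  intro x h1 h2 h0
  apply (hmem _ h1 h2).2
  rw [Finset.mem_coe, hS, Finset.mem_image]
  refine ⟨x, ?_, rfl⟩
  rw [Multiset.mem_toFinset, Polynomial.mem_roots hF]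
  exact h0

/-- Module A3: one step of the construction. -/
theorem exists_step {p : ℂ → ℂ} (hp : Differentiable ℂ p) (hp0 : p 0 = 0) {ρ : ℝ}
    (hρ : 1 ≤ ρ) (hpc : ∀ z, ρ ≤ ‖z‖ → 1 ≤ ‖p z‖) (H δ L : ℝ) (hδ : 0 < δ) :
    ∃ (q : ℂ → ℂ) (ρ' : ℝ), Differentiable ℂ q ∧ q 0 = 0 ∧ L ≤ ρ' ∧
      (∀ z, ‖z‖ ≤ ρ / 2 → ‖q z - p z‖ ≤ δ) ∧
      (∀ z, ‖z‖ ≤ ρ → ‖q z‖ < ρ' / 2) ∧
      (∀ z, ‖z‖ = 2 * ρ → 10 * ρ' ≤ ‖q z‖) ∧
      (∀ z, 8 * ρ ≤ ‖z‖ → 10 * ρ' * (‖z‖ / ρ) ^ (Real.log ρ') ≤ ‖q z‖) ∧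
      (∀ z, ‖z‖ ≤ 9 * ρ → ρ' / 2 ≤ ‖q z‖ → ‖q z‖ ≤ 10 * ρ' → deriv q z ≠ 0) ∧
      (∀ x ∈ Icc (3 : ℝ) 7, ‖q (ρ * spi H x)‖ < ρ' / 2) ∧
      (∀ z, ‖z‖ < 9 * ρ → ‖q z‖ ≤ 1 → ∃ C : Set ℂ, IsPreconnected C ∧ z ∈ C ∧
        (∀ w ∈ C, ‖w‖ < 9 * ρ ∧ ‖q w‖ < ρ' / 2) ∧
        ((∃ w ∈ C, ‖w‖ ≤ ρ) ∨ ∃ x ∈ Icc (3 : ℝ) 7, (ρ * spi H x) ∈ C)) := by
  have hρ0 : 0 < ρ := by linarith
  obtain ⟨F, hF0, hF1, hF2, hF8⟩ := exists_fekete H 2
  -- `F` is not constant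
  have hFd : F.derivative ≠ 0 := by
    intro h
    have h1 := Polynomial.derivative_eq_zero.1 h
    obtain ⟨c, rfl⟩ := Polynomial.natDegree_eq_zero.1 h1
    have h2 := hF8 ((‖c‖ + 8 : ℝ) : ℂ) (by
      rw [Complex.norm_real, Real.norm_eq_abs, abs_of_nonneg (by positivity)]
      linarith [norm_nonneg c])
    rw [Complex.norm_real, Real.norm_eq_abs, abs_of_nonneg (by positivity),
      Polynomial.eval_C] at h2
    linarith [norm_nonneg c]
  obtain ⟨φ₁, φ, φ₂, h1φ, hφ1, hφ2, hφ2', hcrit⟩ := exists_annulus F hFd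
  -- bounds for `p` and its derivative
  obtain ⟨P, hP⟩ := (isCompact_closedBall (0 : ℂ) (9 * ρ)).exists_bound_of_continuousOn
    hp.continuous.continuousOn
  obtain ⟨P', hP'⟩ := (isCompact_closedBall (0 : ℂ) (9 * ρ)).exists_bound_of_continuousOn
    (hp.contDiff.continuous_deriv le_rfl).continuousOn
  have hPb : ∀ z : ℂ, ‖z‖ ≤ 9 * ρ → ‖p z‖ ≤ P := fun z hz => hP z (by simpa using hz)
  have hPb' : ∀ z : ℂ, ‖z‖ ≤ 9 * ρ → ‖deriv p z‖ ≤ P' := fun z hz => hP' z (by simpa using hz)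
  have hP1 : 1 ≤ P := by
    have h := hPb (ρ : ℂ) (by
      rw [Complex.norm_real, Real.norm_eq_abs, abs_of_pos hρ0]; linarith)
    refine (hpc (ρ : ℂ) ?_).trans h
    rw [Complex.norm_real, Real.norm_eq_abs, abs_of_pos hρ0]
  have hP'0 : 0 ≤ P' := (norm_nonneg _).trans (hPb' 0 (by simp; linarith))
  -- lower bound for the derivative of `F`
  obtain ⟨c, hc0, hc⟩ : ∃ c : ℝ, 0 < c ∧ ∀ x, ‖x‖ ≤ 9 → φ₁ ≤ ‖F.eval x‖ → ‖F.eval x‖ ≤ φ₂ →
      c ≤ ‖F.derivative.eval x‖ := by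
    have hT : IsCompact ({x : ℂ | φ₁ ≤ ‖F.eval x‖ ∧ ‖F.eval x‖ ≤ φ₂} ∩ closedBall 0 9) := by
      apply (isCompact_closedBall (0 : ℂ) 9).inter_left
      exact (isClosed_le continuous_const F.continuous.norm).inter
        (isClosed_le F.continuous.norm continuous_const)
    obtain ⟨c, hc0, hc⟩ := hT.exists_forall_le' (f := fun x => ‖F.derivative.eval x‖)
      F.derivative.continuous.norm.continuousOn (a := 0)
      (fun x hx => norm_pos_iff.2 (hcrit x hx.1.1 hx.1.2))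
    exact ⟨c, hc0, fun x hx h1 h2 => hc x ⟨⟨h1, h2⟩, by simpa using hx⟩⟩
  -- choice of `K = k + 1`
  obtain ⟨k, hk⟩ : ∃ k : ℕ, P * (1 / 2 : ℝ) ^ (k + 1) ≤ δ := by
    have t1 : Tendsto (fun k : ℕ => P * (1 / 2 : ℝ) ^ (k + 1)) atTop (𝓝 (P * 0)) :=
      ((tendsto_add_atTop_iff_nat 1).2
        (tendsto_pow_atTop_nhds_zero_of_lt_one (by norm_num) (by norm_num))).const_mul P
    rw [mul_zero] at t1
    obtain ⟨k, hk⟩ := (t1.eventually (gt_mem_nhds hδ)).exists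
    exact ⟨k, hk.le⟩
  -- choice of `M = m + 1`
  have h1φ' : 1 < φ := by linarith
  have h1φ₂ : 1 < φ₂ := by linarith
  obtain ⟨m, c1, c2, c3, c4, c5, c6, c7, c8⟩ : ∃ m : ℕ, L < φ ^ (m + 1) ∧
      4 * P < φ ^ (m + 1) ∧ 10 * φ ^ (m + 1) + 1 < 2 ^ (m + 1) ∧
      10 * φ ^ (m + 1) + 1 < φ₂ ^ (m + 1) ∧
      (2 * P * 9 ^ (k + 1)) * φ₁ ^ (m + 1) + 2 * P < φ ^ (m + 1) ∧
      (2 : ℝ) < φ₁ ^ (m + 1) ∧ 2 * (k + 1) + 36 * ρ * P' < (m + 1 : ℕ) * c ∧ 2 < φ ^ (m + 1) := by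
    have e1 := ev_lt le_rfl (by linarith : (0 : ℝ) < φ) h1φ' 0 L
    have e2 := ev_lt le_rfl (by linarith : (0 : ℝ) < φ) h1φ' 0 (4 * P)
    have e3 := ev_lt (by linarith : 0 ≤ φ) (by linarith : φ < 2) one_lt_two 10 1
    have e4 := ev_lt (by linarith : 0 ≤ φ) hφ2 h1φ₂ 10 1
    have e5 := ev_lt (by linarith : 0 ≤ φ₁) hφ1 h1φ' (2 * P * 9 ^ (k + 1)) (2 * P)
    have e6 := ev_lt le_rfl (by linarith : (0 : ℝ) < φ₁) h1φ 0 2
    have e7 : ∀ᶠ M : ℕ in atTop, 2 * ((k : ℝ) + 1) + 36 * ρ * P' < (M : ℝ) * c :=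
      (tendsto_natCast_atTop_atTop.atTop_mul_const hc0).eventually_gt_atTop _
    have e8 := ev_lt le_rfl (by linarith : (0 : ℝ) < φ) h1φ' 0 2
    have hall := e1.and (e2.and (e3.and (e4.and (e5.and (e6.and (e7.and e8))))))
    obtain ⟨M, hM, g1, g2, g3, g4, g5, g6, g7, g8⟩ :=
      ((eventually_ge_atTop 1).and hall).exists
    obtain ⟨m, rfl⟩ := Nat.exists_eq_add_of_le' hM
    simp only [zero_mul, zero_add] at g1 g2 g6 g8
    exact ⟨m, g1, g2, g3, g4, g5, g6, g7, g8⟩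
  set G : Polynomial ℂ := Polynomial.X ^ (k + 1) * F ^ (m + 1) with hG
  have hGn : ∀ x, ‖G.eval x‖ = ‖x‖ ^ (k + 1) * ‖F.eval x‖ ^ (m + 1) := by
    intro x
    simp [hG]
  set q : ℂ → ℂ := fun z => p z * (1 + G.eval (z / ρ)) with hq
  have hqn : ∀ z : ℂ, ‖q z‖ = ‖p z‖ * ‖1 + G.eval (z / ρ)‖ := fun z => norm_mul _ _
  have hxn : ∀ z : ℂ, ‖z / ρ‖ = ‖z‖ / ρ := by
    intro z
    rw [norm_div, Complex.norm_real, Real.norm_eq_abs, abs_of_pos hρ0]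
  have hup : ∀ z : ℂ, ‖z‖ ≤ 9 * ρ → ‖q z‖ ≤ P * (1 + ‖G.eval (z / ρ)‖) := by
    intro z hz
    rw [hqn]
    apply mul_le_mul (hPb z hz) _ (norm_nonneg _) (by linarith)
    exact (norm_add_le _ _).trans (by simp)
  have hlo : ∀ z : ℂ, ρ ≤ ‖z‖ → ‖G.eval (z / ρ)‖ - 1 ≤ ‖q z‖ := by
    intro z hz
    rw [hqn]
    have h1 : ‖G.eval (z / ρ)‖ - 1 ≤ ‖1 + G.eval (z / ρ)‖ := by
      have := norm_sub_norm_le (G.eval (z / ρ)) (-1)
      rw [norm_neg, norm_one, sub_neg_eq_add, add_comm (G.eval (z / ρ))] at this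
      exact this
    calc _ ≤ 1 * ‖1 + G.eval (z / ρ)‖ := by rw [one_mul]; exact h1
      _ ≤ _ := mul_le_mul_of_nonneg_right (hpc z hz) (norm_nonneg _)
  have hqd : ∀ z : ℂ, HasDerivAt q (deriv p z * (1 + G.eval (z / ρ)) +
      p z * (G.derivative.eval (z / ρ) * (1 / ρ))) z := by
    intro z
    have h1 := (hp z).hasDerivAt
    have h2 : HasDerivAt (fun z : ℂ => z / ρ) (1 / ρ) z := (hasDerivAt_id z).div_const _
    have h3 := (G.hasDerivAt (z / ρ)).comp z h2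
    exact h1.mul (h3.const_add 1)
  have hball : ∀ x : ℂ, ‖x‖ ≤ 1 → ‖F.eval x‖ ≤ 1 := fun x hx => hF1 x (Or.inl (by simpa using hx))
  have hGball : ∀ x : ℂ, ‖x‖ ≤ 1 → ‖G.eval x‖ ≤ 1 := by
    intro x hx
    rw [hGn]
    exact mul_le_one₀ (pow_le_one₀ (norm_nonneg _) hx) (by positivity)
      (pow_le_one₀ (norm_nonneg _) (hball x hx))
  have hlt2 : ∀ z : ℂ, ‖z‖ ≤ ρ → ‖q z‖ < φ ^ (m + 1) / 2 := by
    intro z hz
    have h1 := hup z (by linarith)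
    have h2 := hGball (z / ρ) (by rw [hxn, div_le_one hρ0]; exact hz)
    nlinarith
  refine ⟨q, φ ^ (m + 1), fun z => (hqd z).differentiableAt, ?_, c1.le, ?_, hlt2, ?_, ?_, ?_, ?_, ?_⟩
  · simp [hq, hp0]
  · -- (1)
    intro z hz
    have h1 : q z - p z = p z * G.eval (z / ρ) := by simp only [hq]; ring
    rw [h1, norm_mul, hGn, hxn]
    have h2 : ‖z‖ / ρ ≤ 1 / 2 := by rw [div_le_div_iff₀ hρ0 two_pos]; linarith
    have h3 : ‖F.eval (z / ρ)‖ ≤ 1 := hball _ (by rw [hxn]; linarith)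
    have h4 : (‖z‖ / ρ) ^ (k + 1) ≤ (1 / 2) ^ (k + 1) := pow_le_pow_left₀ (by positivity) h2 _
    have h5 : ‖F.eval (z / ρ)‖ ^ (m + 1) ≤ 1 := pow_le_one₀ (norm_nonneg _) h3
    calc ‖p z‖ * ((‖z‖ / ρ) ^ (k + 1) * ‖F.eval (z / ρ)‖ ^ (m + 1))
        ≤ P * ((1 / 2) ^ (k + 1) * 1) :=
          mul_le_mul (hPb z (by linarith)) (mul_le_mul h4 h5 (by positivity) (by positivity))
            (by positivity) (by linarith)
      _ ≤ δ := by rw [mul_one]; exact hk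
  · -- (3)
    intro z hz
    have h1 := hlo z (by linarith)
    have hx : ‖z / ρ‖ = 2 := by rw [hxn, hz]; field_simp
    have h2 : (2 : ℝ) ^ (m + 1) ≤ ‖G.eval (z / ρ)‖ := by
      rw [hGn, hx]
      calc (2 : ℝ) ^ (m + 1) = 1 * 2 ^ (m + 1) := (one_mul _).symm
        _ ≤ 2 ^ (k + 1) * ‖F.eval (z / ρ)‖ ^ (m + 1) :=
          mul_le_mul (one_le_pow₀ one_le_two) (pow_le_pow_left₀ zero_le_two (hF2 _ hx) _)
            (by positivity) (by positivity)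
    linarith
  · -- (4)
    intro z hz
    have h1 := hlo z (by linarith)
    have hx : 8 ≤ ‖z / ρ‖ := by rw [hxn, le_div_iff₀ hρ0]; exact hz
    have hx1 : 1 ≤ ‖z / ρ‖ := by linarith
    have h2 : (2 : ℝ) ^ (m + 1) * ‖z / ρ‖ ^ (m + 1) ≤ ‖G.eval (z / ρ)‖ := by
      rw [hGn]
      calc (2 : ℝ) ^ (m + 1) * ‖z / ρ‖ ^ (m + 1) = 1 * (2 * ‖z / ρ‖) ^ (m + 1) := by
            rw [mul_pow]; ring
        _ ≤ ‖z / ρ‖ ^ (k + 1) * ‖F.eval (z / ρ)‖ ^ (m + 1) :=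
          mul_le_mul (one_le_pow₀ hx1) (pow_le_pow_left₀ (by positivity) (hF8 _ hx) _)
            (by positivity) (by positivity)
    have h3 : (‖z‖ / ρ) ^ (Real.log (φ ^ (m + 1))) ≤ ‖z / ρ‖ ^ (m + 1) := by
      rw [hxn] at hx1 ⊢
      rw [← Real.rpow_natCast (‖z‖ / ρ) (m + 1)]
      apply Real.rpow_le_rpow_of_exponent_le hx1
      rw [Real.log_pow]
      have : Real.log φ ≤ 1 := by
        have := Real.log_le_sub_one_of_pos (by linarith : 0 < φ)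
        linarith
      exact mul_le_of_le_one_right (by positivity) this
    have h4 : 1 ≤ ‖z / ρ‖ ^ (m + 1) := one_le_pow₀ hx1
    have h5 : 10 * φ ^ (m + 1) * (‖z‖ / ρ) ^ (Real.log (φ ^ (m + 1))) ≤
        10 * φ ^ (m + 1) * ‖z / ρ‖ ^ (m + 1) := mul_le_mul_of_nonneg_left h3 (by positivity)
    nlinarith
  · -- (5)
    intro z hz h1 h2 h0
    have hzρ : ρ < ‖z‖ := by
      by_contra h
      push Not at h
      have := hlt2 z h
      linarith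
    have hx1 : 1 ≤ ‖z / ρ‖ := by rw [hxn, le_div_iff₀ hρ0]; linarith
    have hx9 : ‖z / ρ‖ ≤ 9 := by rw [hxn, div_le_iff₀ hρ0]; exact hz
    set x : ℂ := z / ρ with hx
    have hFx2 : ‖F.eval x‖ ≤ φ₂ := by
      have h3 := hlo z hzρ.le
      rw [hGn] at h3
      have h4 : ‖F.eval x‖ ^ (m + 1) ≤ ‖x‖ ^ (k + 1) * ‖F.eval x‖ ^ (m + 1) :=
        le_mul_of_one_le_left (by positivity) (one_le_pow₀ hx1)
      have h5 : ‖F.eval x‖ ^ (m + 1) ≤ φ₂ ^ (m + 1) := by linarith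
      exact le_of_pow_le_pow_left₀ (Nat.succ_ne_zero m) (by linarith) h5
    have hFx1 : φ₁ ≤ ‖F.eval x‖ := by
      have h3 := hup z hz
      rw [hGn] at h3
      have h4 : ‖x‖ ^ (k + 1) * ‖F.eval x‖ ^ (m + 1) ≤ 9 ^ (k + 1) * ‖F.eval x‖ ^ (m + 1) :=
        mul_le_mul_of_nonneg_right (pow_le_pow_left₀ (norm_nonneg _) hx9 _) (by positivity)
      have h5 : φ ^ (m + 1) ≤ 2 * P + 2 * P * 9 ^ (k + 1) * ‖F.eval x‖ ^ (m + 1) := by
        have h6 : P * (1 + ‖x‖ ^ (k + 1) * ‖F.eval x‖ ^ (m + 1)) ≤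
            P * (1 + 9 ^ (k + 1) * ‖F.eval x‖ ^ (m + 1)) :=
          mul_le_mul_of_nonneg_left (by linarith) (by linarith)
        nlinarith
      have h7 : (2 * P * 9 ^ (k + 1)) * φ₁ ^ (m + 1) <
          (2 * P * 9 ^ (k + 1)) * ‖F.eval x‖ ^ (m + 1) := by linarith
      have h8 : φ₁ ^ (m + 1) < ‖F.eval x‖ ^ (m + 1) := lt_of_mul_lt_mul_left h7 (by positivity)
      exact (lt_of_pow_lt_pow_left₀ _ (norm_nonneg _) h8).le
    have hcx := hc x hx9 hFx1 hFx2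
    have hFpos : 0 < ‖F.eval x‖ := by linarith
    have hxpos : 0 < ‖x‖ := by linarith
    -- the derivative of `G`
    have hGd : G.derivative.eval x = x ^ k * F.eval x ^ m *
        (((k + 1 : ℕ) : ℂ) * F.eval x + ((m + 1 : ℕ) : ℂ) * (x * F.derivative.eval x)) := by
      rw [hG, Polynomial.derivative_mul, Polynomial.derivative_X_pow, Polynomial.derivative_pow]
      simp only [Polynomial.eval_add, Polynomial.eval_mul, Polynomial.eval_pow, Polynomial.eval_X,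
        Polynomial.eval_C, Nat.add_sub_cancel]
      ring
    have hGdn : ‖x‖ ^ k * ‖F.eval x‖ ^ m * ((m + 1 : ℕ) * c - 2 * (k + 1)) ≤
        ‖G.derivative.eval x‖ := by
      rw [hGd, norm_mul, norm_mul, norm_pow, norm_pow]
      apply mul_le_mul_of_nonneg_left _ (by positivity)
      have e1 := norm_sub_norm_le (((m + 1 : ℕ) : ℂ) * (x * F.derivative.eval x))
        (-(((k + 1 : ℕ) : ℂ) * F.eval x))
      rw [norm_neg, sub_neg_eq_add, add_comm (((m + 1 : ℕ) : ℂ) * (x * F.derivative.eval x)),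
        norm_mul, norm_mul, norm_mul, Complex.norm_natCast, Complex.norm_natCast] at e1
      refine le_trans ?_ e1
      have e2 : c ≤ ‖x‖ * ‖F.derivative.eval x‖ := by
        calc c = 1 * c := (one_mul c).symm
          _ ≤ ‖x‖ * ‖F.derivative.eval x‖ := mul_le_mul hx1 hcx hc0.le (norm_nonneg _)
      have e3 : ((m + 1 : ℕ) : ℝ) * c ≤ ((m + 1 : ℕ) : ℝ) * (‖x‖ * ‖F.derivative.eval x‖) :=
        mul_le_mul_of_nonneg_left e2 (by positivity)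
      have e4 : ((k + 1 : ℕ) : ℝ) * ‖F.eval x‖ ≤ ((k + 1 : ℕ) : ℝ) * 2 :=
        mul_le_mul_of_nonneg_left (by linarith) (by positivity)
      push_cast at e3 e4 ⊢
      linarith
    rw [(hqd z).deriv] at h0
    have h6 : p z * (G.derivative.eval x * (1 / ρ)) = - (deriv p z * (1 + G.eval x)) := by
      linear_combination h0
    have h7 : ‖p z‖ * ‖G.derivative.eval x‖ / ρ = ‖deriv p z‖ * ‖1 + G.eval x‖ := by
      have := congrArg norm h6
      rw [norm_neg, norm_mul, norm_mul, norm_mul, norm_div, norm_one, Complex.norm_real,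
        Real.norm_eq_abs, abs_of_pos hρ0] at this
      rw [← this]; ring
    have h8 : ‖1 + G.eval x‖ ≤ 2 * (‖x‖ ^ (k + 1) * ‖F.eval x‖ ^ (m + 1)) := by
      have e1 : ‖1 + G.eval x‖ ≤ 1 + ‖x‖ ^ (k + 1) * ‖F.eval x‖ ^ (m + 1) := by
        rw [← hGn]
        exact (norm_add_le _ _).trans (by simp)
      have e2 : 1 ≤ ‖x‖ ^ (k + 1) * ‖F.eval x‖ ^ (m + 1) :=
        one_le_mul_of_one_le_of_one_le (one_le_pow₀ hx1) (one_le_pow₀ (by linarith))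
      linarith
    have h9 : ‖G.derivative.eval x‖ ≤ ρ * (P' * (2 * (‖x‖ ^ (k + 1) * ‖F.eval x‖ ^ (m + 1)))) := by
      have e1 : ‖G.derivative.eval x‖ ≤ ‖p z‖ * ‖G.derivative.eval x‖ :=
        le_mul_of_one_le_left (norm_nonneg _) (hpc z hzρ.le)
      have e2 : ‖p z‖ * ‖G.derivative.eval x‖ = ρ * (‖deriv p z‖ * ‖1 + G.eval x‖) := by
        rw [← h7]; field_simp
      rw [e2] at e1
      refine e1.trans (mul_le_mul_of_nonneg_left ?_ hρ0.le)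
      exact mul_le_mul (hPb' z hz) h8 (norm_nonneg _) hP'0
    have h10 : ‖x‖ ^ k * ‖F.eval x‖ ^ m * ((m + 1 : ℕ) * c - 2 * (k + 1)) ≤
        ‖x‖ ^ k * ‖F.eval x‖ ^ m * (36 * ρ * P') := by
      refine hGdn.trans (h9.trans ?_)
      have e1 : ρ * (P' * (2 * (‖x‖ ^ (k + 1) * ‖F.eval x‖ ^ (m + 1)))) =
          ‖x‖ ^ k * ‖F.eval x‖ ^ m * (2 * ρ * P' * (‖x‖ * ‖F.eval x‖)) := by ring
      rw [e1]
      apply mul_le_mul_of_nonneg_left _ (by positivity)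
      have e2 : ‖x‖ * ‖F.eval x‖ ≤ 9 * 2 := mul_le_mul hx9 (by linarith) hFpos.le (by norm_num)
      calc 2 * ρ * P' * (‖x‖ * ‖F.eval x‖) ≤ 2 * ρ * P' * (9 * 2) :=
            mul_le_mul_of_nonneg_left e2 (by positivity)
        _ = 36 * ρ * P' := by ring
    have h11 := le_of_mul_le_mul_left h10 (by positivity)
    linarith
  · -- (6)
    intro t ht
    have ht0 : (0 : ℝ) ≤ t := by linarith [ht.1]
    have hn : ‖(ρ : ℂ) * spi H t‖ = ρ * t := by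
      rw [norm_mul, norm_spi H ht0, Complex.norm_real, Real.norm_eq_abs, abs_of_pos hρ0]
    have h9 : ‖(ρ : ℂ) * spi H t‖ ≤ 9 * ρ := by rw [hn]; nlinarith [ht.2]
    have h1 := hup _ h9
    have hρc : (ρ : ℂ) ≠ 0 := by exact_mod_cast hρ0.ne'
    have hx : (ρ : ℂ) * spi H t / ρ = spi H t := by field_simp
    rw [hx, hGn, norm_spi H ht0] at h1
    have hF : ‖F.eval (spi H t)‖ ≤ 1 := hF1 _ (Or.inr ⟨t, ht, rfl⟩)
    have h2 : t ^ (k + 1) * ‖F.eval (spi H t)‖ ^ (m + 1) ≤ 9 ^ (k + 1) * 1 :=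
      mul_le_mul (pow_le_pow_left₀ ht0 (by linarith [ht.2]) _) (pow_le_one₀ (norm_nonneg _) hF)
        (by positivity) (by positivity)
    have h3 : (2 * P * 9 ^ (k + 1)) * 1 ≤ (2 * P * 9 ^ (k + 1)) * φ₁ ^ (m + 1) :=
      mul_le_mul_of_nonneg_left (one_le_pow₀ h1φ.le) (by positivity)
    have h4 : P * (1 + t ^ (k + 1) * ‖F.eval (spi H t)‖ ^ (m + 1)) ≤ P * (1 + 9 ^ (k + 1) * 1) :=
      mul_le_mul_of_nonneg_left (by linarith) (by linarith)
    linarith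
  · -- (7)
    intro z hz hqz
    by_cases hzρ : ‖z‖ ≤ ρ
    · refine ⟨{z}, isPreconnected_singleton, rfl, ?_, Or.inl ⟨z, rfl, hzρ⟩⟩
      rintro w rfl
      exact ⟨hz, by linarith⟩
    push Not at hzρ
    have hx1 : 1 ≤ ‖z / ρ‖ := by rw [hxn, le_div_iff₀ hρ0]; linarith
    have hFx : ‖F.eval (z / ρ)‖ < φ₁ := by
      have h3 := hlo z hzρ.le
      rw [hGn] at h3
      have h4 : ‖F.eval (z / ρ)‖ ^ (m + 1) ≤ ‖z / ρ‖ ^ (k + 1) * ‖F.eval (z / ρ)‖ ^ (m + 1) :=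
        le_mul_of_one_le_left (by positivity) (one_le_pow₀ hx1)
      have h5 : ‖F.eval (z / ρ)‖ ^ (m + 1) < φ₁ ^ (m + 1) := by linarith
      exact lt_of_pow_lt_pow_left₀ _ (by linarith) h5
    have hb8 : ∀ y : ℂ, 8 ≤ ‖y‖ → φ₁ ≤ ‖F.eval y‖ := fun y hy => by
      have := hF8 y hy
      linarith
    obtain ⟨y, hyV, hy0⟩ := exists_zero_in_component (by linarith : 0 < φ₁) hb8 hFx
    set V := connectedComponentIn {y | ‖F.eval y‖ < φ₁} (z / ρ) with hV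
    have hVsub : ∀ w ∈ V, ‖F.eval w‖ < φ₁ := by
      intro w hw
      have h : w ∈ {y | ‖F.eval y‖ < φ₁} := connectedComponentIn_subset _ _ hw
      exact h
    have hρc : (ρ : ℂ) ≠ 0 := by exact_mod_cast hρ0.ne'
    refine ⟨(fun w => (ρ : ℂ) * w) '' V, ?_, ⟨z / ρ, mem_connectedComponentIn hFx, by
      simp only; field_simp⟩, ?_, ?_⟩
    · exact isPreconnected_connectedComponentIn.image _ (by fun_prop)
    · rintro _ ⟨w, hw, rfl⟩
      have hw8 : ‖w‖ < 8 := by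
        by_contra h
        push Not at h
        have h1 := hb8 w h
        have h2 := hVsub w hw
        linarith
      have hn : ‖(ρ : ℂ) * w‖ = ρ * ‖w‖ := by
        rw [norm_mul, Complex.norm_real, Real.norm_eq_abs, abs_of_pos hρ0]
      have h9 : ‖(ρ : ℂ) * w‖ < 9 * ρ := by rw [hn]; nlinarith
      refine ⟨h9, ?_⟩
      have h1 := hup _ h9.le
      have hx : (ρ : ℂ) * w / ρ = w := by field_simp
      rw [hx, hGn] at h1
      have h2 : ‖w‖ ^ (k + 1) * ‖F.eval w‖ ^ (m + 1) ≤ 9 ^ (k + 1) * φ₁ ^ (m + 1) :=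
        mul_le_mul (pow_le_pow_left₀ (norm_nonneg _) (by linarith) _)
          (pow_le_pow_left₀ (norm_nonneg _) (hVsub w hw).le _) (by positivity) (by positivity)
      have h4 : P * (1 + ‖w‖ ^ (k + 1) * ‖F.eval w‖ ^ (m + 1)) ≤
          P * (1 + 9 ^ (k + 1) * φ₁ ^ (m + 1)) :=
        mul_le_mul_of_nonneg_left (by linarith) (by linarith)
      linarith
    · rcases hF0 y hy0 with h | ⟨t, ht, rfl⟩
      · left
        refine ⟨_, ⟨y, hyV, rfl⟩, ?_⟩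
        have h1 : ‖y‖ ≤ 1 := by simpa using h
        rw [norm_mul, Complex.norm_real, Real.norm_eq_abs, abs_of_pos hρ0]
        nlinarith
      · right
        exact ⟨t, ht, _, hyV, rfl⟩

end Pool.Agent.Work.MP_571b65_an_Q2
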