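import Mathlib
import Pool.Agent.Work.MP_571b65_an_Q2.Defs
import Pool.Agent.Work.MP_571b65_an_Q2.Step

/-!
# Module A4: existence of the data of the construction
-/

open Filter Topology Metric Set

namespace Pool.Agent.Work.MP_571b65_an_Q2

/-- One stage of the construction. -/
structure Stage where
  /-- the entire function of this stage -/
  p : ℂ → ℂ
  /-- the radius -/
  ρ : ℝ
  /-- the bound for orbits -/
  R : ℝ
  /-- the tolerance -/
  ε : ℝ

/-- The invariants of a stage. -/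
structure Stage.Inv (s : Stage) : Prop where
  diff : Differentiable ℂ s.p
  zero : s.p 0 = 0
  three_le : 3 ≤ s.ρ
  eps_pos : 0 < s.ε
  eps_le : s.ε ≤ 1
  big : ∀ z, s.ρ ≤ ‖z‖ → 1 ≤ ‖s.p z‖
  le_R : 27 * s.ρ ≤ s.R

/-- The speed of the spiral used at a stage. -/
noncomputable def Stage.H (s : Stage) : ℝ := 13 * (s.R / s.ρ + 3)

/-- The relation between two consecutive stages. -/
structure Stage.Next (n : ℕ) (s t : Stage) : Prop where
  step : 54 * s.ρ ≤ t.ρ
  two_R : 2 * s.R ≤ t.ρ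
  eps : t.ε ≤ s.ε / 2
  close : ∀ z, ‖z‖ ≤ s.ρ / 2 → ‖t.p z - s.p z‖ ≤ s.ε / 2
  slow : ∀ z, ‖z‖ ≤ s.ρ / 2 → (‖s.p z‖ + 1) ^ (n + 1) ≤ t.ρ
  out : ∀ z, ‖z‖ ≤ s.ρ / 2 → 2 * (‖s.p z‖ + 1) < t.ρ
  R_le : ∀ z, ‖z‖ ≤ s.R → ‖t.p z‖ + 1 ≤ t.R
  small : ∀ z, ‖z‖ ≤ s.ρ → ‖t.p z‖ < t.ρ / 2
  ring : ∀ z, ‖z‖ = 2 * s.ρ → 10 * t.ρ ≤ ‖t.p z‖
  grow : ∀ z, 8 * s.ρ ≤ ‖z‖ → 10 * t.ρ * (‖z‖ / s.ρ) ^ (Real.log t.ρ) ≤ ‖t.p z‖
  deriv_gt : ∀ z, ‖z‖ ≤ 9 * s.ρ → t.ρ / 2 ≤ ‖t.p z‖ → ‖t.p z‖ ≤ 10 * t.ρ →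
    t.ε < ‖deriv t.p z‖
  spiral : ∀ x ∈ Icc (3 : ℝ) 7, ‖t.p (s.ρ * spi s.H x)‖ < t.ρ / 2
  zeros : ∀ z, ‖z‖ < 9 * s.ρ → ‖t.p z‖ ≤ 1 → ∃ C : Set ℂ, IsPreconnected C ∧ z ∈ C ∧
    (∀ w ∈ C, ‖w‖ < 9 * s.ρ ∧ ‖t.p w‖ < t.ρ / 2) ∧
    ((∃ w ∈ C, ‖w‖ ≤ s.ρ) ∨ ∃ x ∈ Icc (3 : ℝ) 7, (s.ρ * spi s.H x) ∈ C)

lemma Stage.exists_next (n : ℕ) {s : Stage} (hs : s.Inv) : ∃ t : Stage, t.Inv ∧ s.Next n t := by
  have hρ0 : 0 < s.ρ := by linarith [hs.three_le]
  -- bound for `p` on the disc of radius `ρ / 2`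
  obtain ⟨B, hB⟩ := (isCompact_closedBall (0 : ℂ) (s.ρ / 2)).exists_bound_of_continuousOn
    hs.diff.continuous.continuousOn
  have hBb : ∀ z, ‖z‖ ≤ s.ρ / 2 → ‖s.p z‖ ≤ B := fun z hz => hB z (by simpa using hz)
  have hB0 : 0 ≤ B := (norm_nonneg _).trans (hBb 0 (by simp; linarith))
  set L : ℝ := max (54 * s.ρ) (max (2 * s.R) (max ((B + 1) ^ (n + 1)) (2 * (B + 1) + 1))) with hL
  obtain ⟨q, ρ', hqd, hq0, hLρ, h1, h2, h3, h4, h5, h6, h7⟩ := exists_step hs.diff hs.zero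
    (by linarith [hs.three_le] : 1 ≤ s.ρ) hs.big s.H (s.ε / 2) L (half_pos hs.eps_pos)
  have hL1 : 54 * s.ρ ≤ ρ' := (le_max_left _ _).trans hLρ
  have hL2 : 2 * s.R ≤ ρ' := ((le_max_left _ _).trans (le_max_right _ _)).trans hLρ
  have hL3 : (B + 1) ^ (n + 1) ≤ ρ' :=
    ((le_max_left _ _).trans ((le_max_right _ _).trans (le_max_right _ _))).trans hLρ
  have hL4 : 2 * (B + 1) + 1 ≤ ρ' :=
    ((le_max_right _ _).trans ((le_max_right _ _).trans (le_max_right _ _))).trans hLρ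
  have hρ'0 : 0 < ρ' := by linarith
  have hρ'1 : 1 ≤ ρ' := by linarith [hs.three_le]
  -- bound for `q` on the disc of radius `R`
  obtain ⟨B', hB'⟩ := (isCompact_closedBall (0 : ℂ) s.R).exists_bound_of_continuousOn
    hqd.continuous.continuousOn
  -- lower bound for the derivative
  obtain ⟨c, hc0, hc⟩ : ∃ c : ℝ, 0 < c ∧ ∀ z, ‖z‖ ≤ 9 * s.ρ → ρ' / 2 ≤ ‖q z‖ → ‖q z‖ ≤ 10 * ρ' →
      c ≤ ‖deriv q z‖ := by
    have hT : IsCompact ({z : ℂ | ρ' / 2 ≤ ‖q z‖ ∧ ‖q z‖ ≤ 10 * ρ'} ∩ closedBall 0 (9 * s.ρ)) := by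
      apply (isCompact_closedBall (0 : ℂ) (9 * s.ρ)).inter_left
      exact (isClosed_le continuous_const hqd.continuous.norm).inter
        (isClosed_le hqd.continuous.norm continuous_const)
    obtain ⟨c, hc0, hc⟩ := hT.exists_forall_le' (f := fun z => ‖deriv q z‖)
      (hqd.contDiff.continuous_deriv le_rfl).norm.continuousOn (a := 0)
      (fun z hz => norm_pos_iff.2 (h5 z (by simpa using hz.2) hz.1.1 hz.1.2))
    exact ⟨c, hc0, fun z hz h1 h2 => hc z ⟨⟨h1, h2⟩, by simpa using hz⟩⟩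
  refine ⟨⟨q, ρ', max (27 * ρ') (B' + 1), min (s.ε / 2) (c / 2)⟩, ?_, ?_⟩
  · refine ⟨hqd, hq0, by simp only; linarith [hs.three_le],
      lt_min (half_pos hs.eps_pos) (half_pos hc0), ?_, ?_, le_max_left _ _⟩
    · exact (min_le_left _ _).trans (by linarith [hs.eps_le])
    · intro z hz
      simp only at hz ⊢
      have hz8 : 8 * s.ρ ≤ ‖z‖ := by linarith
      refine le_trans ?_ (h4 z hz8)
      have e1 : 1 ≤ ‖z‖ / s.ρ := by rw [le_div_iff₀ hρ0]; linarith
      have e2 : 1 ≤ (‖z‖ / s.ρ) ^ (Real.log ρ') :=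
        Real.one_le_rpow e1 (Real.log_nonneg hρ'1)
      nlinarith
  · refine ⟨hL1, hL2, min_le_left _ _, h1, ?_, ?_, ?_, h2, h3, h4, ?_, h6, h7⟩
    · intro z hz
      exact (pow_le_pow_left₀ (by positivity) (by linarith [hBb z hz]) _).trans hL3
    · intro z hz
      simp only
      linarith [hBb z hz]
    · intro z hz
      refine le_trans ?_ (le_max_right _ _)
      simp only
      linarith [hB' z (by simpa using hz)]
    · intro z hz1 hz2 hz3
      have e1 := hc z hz1 hz2 hz3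
      have e2 : min (s.ε / 2) (c / 2) ≤ c / 2 := min_le_right _ _
      simp only
      linarith

/-- Module A4: existence of the data of the construction. -/
theorem exists_sys : ∃ f ρ R H, Sys f ρ R H := by
  have hstart : (⟨fun z => z, 3, 81, 1⟩ : Stage).Inv := by
    refine ⟨differentiable_id, rfl, le_rfl, one_pos, le_rfl, ?_, by norm_num⟩
    intro z hz
    simp only at hz ⊢
    linarith
  choose! N hN using fun (n : ℕ) (s : Stage) (hs : s.Inv) => Stage.exists_next n hs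
  let S : ℕ → Stage := fun n => Nat.rec ⟨fun z => z, 3, 81, 1⟩ (fun n s => N n s) n
  have hSs : ∀ n, S (n + 1) = N n (S n) := fun n => rfl
  have hInv : ∀ n, (S n).Inv := by
    intro n
    induction n with
    | zero => exact hstart
    | succ n ih => rw [hSs]; exact (hN n _ ih).1
  have hNext : ∀ n, (S n).Next n (S (n + 1)) := by
    intro n
    rw [hSs]; exact (hN n _ (hInv n)).2
  set p : ℕ → ℂ → ℂ := fun n => (S n).p with hp
  set ρ : ℕ → ℝ := fun n => (S n).ρ with hρ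
  set R : ℕ → ℝ := fun n => (S n).R with hR
  set ε : ℕ → ℝ := fun n => (S n).ε with hε
  have hρ3 : ∀ n, 3 ≤ ρ n := fun n => (hInv n).three_le
  have hρ0 : ∀ n, 0 < ρ n := fun n => by linarith [hρ3 n]
  have hstep : ∀ n, 54 * ρ n ≤ ρ (n + 1) := fun n => (hNext n).step
  have hεpos : ∀ n, 0 < ε n := fun n => (hInv n).eps_pos
  have hεle : ∀ n, ε (n + 1) ≤ ε n / 2 := fun n => (hNext n).eps
  have hε1 : ∀ n, ε n ≤ 1 := fun n => (hInv n).eps_le
  have hρmono : Monotone ρ := monotone_nat_of_le_succ fun n => by linarith [hstep n, hρ0 n]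
  have hεgeo : ∀ n, ε n ≤ (1 / 2 : ℝ) ^ n := by
    intro n
    induction n with
    | zero => simpa using hε1 0
    | succ n ih => rw [pow_succ]; linarith [hεle n]
  have hεlim : Tendsto ε atTop (𝓝 0) :=
    squeeze_zero (fun n => (hεpos n).le) hεgeo
      (tendsto_pow_atTop_nhds_zero_of_lt_one (by norm_num) (by norm_num))
  have hρge : ∀ n : ℕ, (n : ℝ) ≤ ρ n / 2 := by
    intro n
    induction n with
    | zero =>
      have := hρ0 0
      simp only [Nat.cast_zero]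
      linarith
    | succ n ih => push_cast; linarith [hstep n, hρ3 n]
  have hclose : ∀ n k z, ‖z‖ ≤ ρ n / 2 → ‖p (n + k) z - p n z‖ ≤ ε n - ε (n + k) := by
    intro n k z hz
    induction k with
    | zero => simp
    | succ k ih =>
      have h1 : ‖z‖ ≤ ρ (n + k) / 2 := by
        have := hρmono (Nat.le_add_right n k)
        linarith
      have h2 : ‖p (n + k + 1) z - p (n + k) z‖ ≤ ε (n + k) / 2 := (hNext (n + k)).close z h1
      have h3 := hεle (n + k)
      calc ‖p (n + (k + 1)) z - p n z‖ = ‖(p (n + k + 1) z - p (n + k) z) + (p (n + k) z - p n z)‖ := by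
            rw [← add_assoc]; congr 1; ring
        _ ≤ ‖p (n + k + 1) z - p (n + k) z‖ + ‖p (n + k) z - p n z‖ := norm_add_le _ _
        _ ≤ ε n - ε (n + (k + 1)) := by rw [← add_assoc]; linarith
  have hlim : ∀ z, ∃ l, Tendsto (fun n => p n z) atTop (𝓝 l) := by
    intro z
    apply cauchySeq_tendsto_of_complete
    rw [Metric.cauchySeq_iff']
    intro δ hδ
    obtain ⟨n0, hn0⟩ := exists_nat_ge ‖z‖
    obtain ⟨n, hn1, hn2⟩ := ((hεlim.eventually (gt_mem_nhds hδ)).and (eventually_ge_atTop n0)).exists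
    refine ⟨n, fun m hm => ?_⟩
    obtain ⟨k, rfl⟩ := Nat.exists_eq_add_of_le hm
    rw [dist_eq_norm]
    have hz : ‖z‖ ≤ ρ n / 2 := hn0.trans (le_trans (by exact_mod_cast hn2) (hρge n))
    have := hclose n k z hz
    linarith [hεpos (n + k)]
  choose f hf using hlim
  have hfp : ∀ n z, ‖z‖ ≤ ρ n / 2 → ‖f z - p n z‖ ≤ ε n := by
    intro n z hz
    have h1 : Tendsto (fun k => ‖p (n + k) z - p n z‖) atTop (𝓝 ‖f z - p n z‖) := by
      have : Tendsto (fun k => p (n + k) z) atTop (𝓝 (f z)) := by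
        have := (tendsto_add_atTop_iff_nat n).2 (hf z)
        simpa [add_comm] using this
      exact (this.sub_const _).norm
    apply le_of_tendsto h1
    filter_upwards with k
    linarith [hclose n k z hz, hεpos (n + k)]
  have hfd : Differentiable ℂ f := by
    have hloc : TendstoLocallyUniformlyOn p f atTop univ := by
      rw [Metric.tendstoLocallyUniformlyOn_iff]
      intro δ hδ x _
      obtain ⟨n0, hn0⟩ := exists_nat_gt ‖x‖
      refine ⟨ball 0 n0, ?_, ?_⟩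
      · apply mem_nhdsWithin_of_mem_nhds
        exact isOpen_ball.mem_nhds (by simpa using hn0)
      · filter_upwards [hεlim.eventually (gt_mem_nhds hδ), eventually_ge_atTop n0] with n h1 h2
        intro y hy
        have hy' : ‖y‖ < n0 := by simpa using hy
        rw [dist_eq_norm]
        have h3 : (n0 : ℝ) ≤ n := by exact_mod_cast h2
        have := hfp n y (by linarith [hρge n])
        linarith
    have := hloc.differentiableOn (Eventually.of_forall fun n =>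
      ((hInv n).diff).differentiableOn) isOpen_univ
    exact differentiableOn_univ.1 this
  -- simple consequences
  have hlow : ∀ n z, ‖z‖ ≤ ρ n / 2 → ‖p n z‖ - 1 ≤ ‖f z‖ := by
    intro n z hz
    have h1 := hfp n z hz
    have h2 := norm_sub_norm_le (p n z) (f z)
    rw [norm_sub_rev] at h1
    linarith [hε1 n]
  have hupp : ∀ n z, ‖z‖ ≤ ρ n / 2 → ‖f z‖ ≤ ‖p n z‖ + 1 := by
    intro n z hz
    have h1 := hfp n z hz
    have h2 := norm_sub_norm_le (f z) (p n z)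
    linarith [hε1 n]
  have h27 : ∀ n, 27 * ρ n ≤ ρ (n + 1) / 2 := fun n => by linarith [hstep n]
  have hgrow : ∀ n z, 8 * ρ n ≤ ‖z‖ → ‖z‖ ≤ ρ (n + 1) / 2 →
      9 * ρ (n + 1) < ‖f z‖ ∧ ρ (n + 1) * (‖z‖ / ρ n) ^ (Real.log (ρ (n + 1))) ≤ ‖f z‖ := by
    intro n z h8 hz
    have h1 : 10 * ρ (n + 1) * (‖z‖ / ρ n) ^ (Real.log (ρ (n + 1))) ≤ ‖p (n + 1) z‖ :=
      (hNext n).grow z h8
    have h2 := hlow (n + 1) z hz
    have e1 : 1 ≤ ‖z‖ / ρ n := by rw [le_div_iff₀ (hρ0 n)]; linarith [hρ0 n]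
    have e2 : 1 ≤ (‖z‖ / ρ n) ^ (Real.log (ρ (n + 1))) :=
      Real.one_le_rpow e1 (Real.log_nonneg (by linarith [hρ3 (n + 1)]))
    have e3 : ρ (n + 1) * 1 ≤ ρ (n + 1) * (‖z‖ / ρ n) ^ (Real.log (ρ (n + 1))) :=
      mul_le_mul_of_nonneg_left e2 (hρ0 (n + 1)).le
    have e4 := hρ3 (n + 1)
    constructor
    · nlinarith
    · nlinarith
  refine ⟨f, ρ, R, fun n => (S n).H, ?_⟩
  refine
    { diff := hfd
      zero := ?_
      one_le := hρ3
      step := hstep
      small_disc := ?_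
      big_ring := ?_
      big_out := fun n z h1 h2 => (hgrow n z h1 h2).1
      le_out := ?_
      deriv_ne := ?_
      spiral := ?_
      zeros := ?_
      bound := ?_
      turns := fun n => le_rfl
      grow := ?_
      slow := ?_ }
  · have h1 : Tendsto (fun n => p n 0) atTop (𝓝 0) := by
      have : (fun n => p n 0) = fun _ => (0 : ℂ) := by
        ext n; exact (hInv n).zero
      rw [this]; exact tendsto_const_nhds
    exact tendsto_nhds_unique (hf 0) h1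
  · -- small_disc
    intro n z hz
    have h1 : ‖p (n + 1) z‖ < ρ (n + 1) / 2 := (hNext n).small z hz
    have h2 := hupp (n + 1) z (by linarith [h27 n, hρ0 n])
    linarith [hρ3 (n + 1)]
  · -- big_ring
    intro n z hz
    have h1 : 10 * ρ (n + 1) ≤ ‖p (n + 1) z‖ := (hNext n).ring z hz
    have h2 := hlow (n + 1) z (by linarith [h27 n, hρ0 n])
    linarith [hρ3 (n + 1)]
  · -- le_out
    intro n z hz
    have h1 : 2 * (‖p (n + 1) z‖ + 1) < ρ (n + 2) := (hNext (n + 1)).out z hz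
    have h2 := hupp (n + 1) z hz
    linarith
  · -- deriv_ne
    intro n z hz h1 h2 h0
    have hz2 : ‖z‖ ≤ ρ (n + 1) / 2 := by linarith [h27 n, hρ0 n]
    have h3 := hlow (n + 1) z hz2
    have h4 := hupp (n + 1) z hz2
    have h5 : ε (n + 1) < ‖deriv (p (n + 1)) z‖ :=
      (hNext n).deriv_gt z hz.le
        (show ρ (n + 1) / 2 ≤ ‖p (n + 1) z‖ by linarith [hρ3 (n + 1)])
        (show ‖p (n + 1) z‖ ≤ 10 * ρ (n + 1) by linarith [hρ3 (n + 1)])
    -- Cauchy estimate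
    have hd1 : deriv (fun w => f w - p (n + 1) w) z = deriv f z - deriv (p (n + 1)) z :=
      deriv_fun_sub (hfd z) ((hInv (n + 1)).diff z)
    have h6 : ‖deriv (fun w => f w - p (n + 1) w) z‖ ≤ ε (n + 1) / 1 := by
      apply Complex.norm_deriv_le_of_forall_mem_sphere_norm_le one_pos
      · exact (hfd.sub (hInv (n + 1)).diff).diffContOnCl
      · intro w hw
        apply hfp (n + 1) w
        have hw' : ‖w - z‖ = 1 := by simpa [dist_eq_norm] using hw
        have : ‖w‖ ≤ ‖w - z‖ + ‖z‖ := by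
          calc ‖w‖ = ‖(w - z) + z‖ := by ring_nf
            _ ≤ _ := norm_add_le _ _
        linarith [h27 n, hρ3 n]
    rw [hd1, h0, zero_sub, norm_neg, div_one] at h6
    linarith
  · -- spiral
    intro n x hx
    have h1 : ‖p (n + 1) (ρ n * spi (S n).H x)‖ < ρ (n + 1) / 2 := (hNext n).spiral x hx
    have hn : ‖(ρ n : ℂ) * spi (S n).H x‖ = ρ n * x := by
      rw [norm_mul, norm_spi _ (by linarith [hx.1]), Complex.norm_real, Real.norm_eq_abs,
        abs_of_pos (hρ0 n)]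
    have h2 := hupp (n + 1) (ρ n * spi (S n).H x) (by
      rw [hn]
      nlinarith [h27 n, hρ0 n, hx.1, hx.2])
    linarith [hρ3 (n + 1)]
  · -- zeros
    intro n z hz h0
    have h1 := hlow (n + 1) z (by linarith [h27 n, hρ0 n])
    rw [h0, norm_zero] at h1
    obtain ⟨C, hC1, hC2, hC3, hC4⟩ := (hNext n).zeros z hz
      (show ‖p (n + 1) z‖ ≤ 1 by linarith)
    refine ⟨C, hC1, hC2, fun w hw => ⟨(hC3 w hw).1, ?_⟩, hC4⟩
    have h2 : ‖w‖ < 9 * ρ n := (hC3 w hw).1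
    have h3 : ‖p (n + 1) w‖ < ρ (n + 1) / 2 := (hC3 w hw).2
    have h4 := hupp (n + 1) w (by linarith [h27 n, hρ0 n])
    linarith [hρ3 (n + 1)]
  · -- bound
    intro m n z hmn hz
    obtain ⟨k, rfl⟩ := Nat.exists_eq_add_of_le hmn
    rw [Nat.add_sub_cancel_left]
    clear hmn
    induction k with
    | zero => simpa using hz.trans (hInv m).le_R
    | succ k ih =>
      rw [Function.iterate_succ_apply']
      have h1 : 2 * R (m + k) ≤ ρ (m + k + 1) := (hNext (m + k)).two_R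
      have h2 := hupp (m + k + 1) (f^[k] z) (by linarith)
      have h3 : ‖p (m + k + 1) (f^[k] z)‖ + 1 ≤ R (m + k + 1) := (hNext (m + k)).R_le _ ih
      exact h2.trans h3
  · -- grow
    intro n z h8 hz
    have h1 := (hgrow n z h8 hz).2
    have hzpos : 0 < ‖z‖ / ρ n := div_pos (by linarith [hρ0 n]) (hρ0 n)
    have h2 : 0 < (‖z‖ / ρ n) ^ (Real.log (ρ (n + 1))) := Real.rpow_pos_of_pos hzpos _
    have h3 := Real.log_le_log (mul_pos (hρ0 (n + 1)) h2) h1
    rw [Real.log_mul (hρ0 (n + 1)).ne' h2.ne', Real.log_rpow hzpos] at h3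
    linarith
  · -- slow
    intro n z hz
    have h1 : (‖p (n + 1) z‖ + 1) ^ (n + 1 + 1) ≤ ρ (n + 2) := (hNext (n + 1)).slow z hz
    have h2 := hupp (n + 1) z hz
    exact (pow_le_pow_left₀ (norm_nonneg _) h2 _).trans h1

end Pool.Agent.Work.MP_571b65_an_Q2
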