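import Mathlib
import Pool.Agent.Work.MP_571b65_an.Harnack

/-!
# Continuous logarithms of entire functions on compact sets, fibre bounds
-/

open Filter Topology Metric Set

namespace Pool.Agent.Work.MP_571b65_an_Q2

/-- `u` has a continuous logarithm on `Λ`. -/
def HasLog (Λ : Set ℂ) (u : ℂ → ℂ) : Prop :=
  ∃ L : ℂ → ℂ, ContinuousOn L Λ ∧ ∀ z ∈ Λ, Complex.exp (L z) = u z

theorem HasLog.mul {Λ : Set ℂ} {u v : ℂ → ℂ} (hu : HasLog Λ u) (hv : HasLog Λ v) :
    HasLog Λ (fun z => u z * v z) := by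
  obtain ⟨L, hL, hL'⟩ := hu
  obtain ⟨M, hM, hM'⟩ := hv
  exact ⟨fun z => L z + M z, hL.add hM, fun z hz => by rw [Complex.exp_add, hL' z hz, hM' z hz]⟩

theorem HasLog.move {Λ : Set ℂ} {a b : ℂ} (ha : HasLog Λ (fun z => z - a))
    (hab : ∀ z ∈ Λ, ‖a - b‖ < ‖z - a‖) : HasLog Λ (fun z => z - b) := by
  obtain ⟨L, hL, hL'⟩ := ha
  have hne : ∀ z ∈ Λ, z - a ≠ 0 := fun z hz h => by
    have := hab z hz
    rw [h, norm_zero] at this
    linarith [norm_nonneg (a - b)]
  have hs : ∀ z ∈ Λ, 1 + (a - b) / (z - a) ∈ Complex.slitPlane := by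
    intro z hz
    apply Complex.mem_slitPlane_of_norm_lt_one
    rw [norm_div]
    have h1 : 0 < ‖z - a‖ := norm_pos_iff.mpr (hne z hz)
    rw [div_lt_one h1]
    exact hab z hz
  refine ⟨fun z => L z + Complex.log (1 + (a - b) / (z - a)), hL.add ?_, fun z hz => ?_⟩
  · refine ContinuousOn.clog ?_ hs
    exact continuousOn_const.add (continuousOn_const.div (by fun_prop) hne)
  · rw [Complex.exp_add, hL' z hz, Complex.exp_log (Complex.slitPlane_ne_zero (hs z hz))]
    have := hne z hz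
    field_simp
    ring

/-- `z - a` has a continuous logarithm on the compact set `Λ` if `a` is in the unbounded component
of the complement. -/
theorem hasLog_sub {Λ : Set ℂ} (hΛ : IsCompact Λ) {a : ℂ} (ha : a ∉ Λ)
    (hub : ¬ Bornology.IsBounded (connectedComponentIn Λᶜ a)) : HasLog Λ (fun z => z - a) := by
  obtain ⟨r, hr⟩ := hΛ.isBounded.subset_closedBall 0
  have hex : ∃ b ∈ connectedComponentIn Λᶜ a, max r 0 < ‖b‖ := by
    by_contra hcon
    push Not at hcon
    exact hub ((isBounded_closedBall (x := (0 : ℂ)) (r := max r 0)).subset fun b hb =>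
      mem_closedBall_zero_iff.mpr (hcon b hb))
  obtain ⟨b, hb, hbr⟩ := hex
  have hb0 : 0 < ‖b‖ := (le_max_right _ _).trans_lt hbr
  have hb0' : b ≠ 0 := norm_pos_iff.mp hb0
  have hlogb : HasLog Λ (fun z => z - b) := by
    have hs : ∀ z ∈ Λ, 1 + -(z / b) ∈ Complex.slitPlane := by
      intro z hz
      apply Complex.mem_slitPlane_of_norm_lt_one
      rw [norm_neg, norm_div, div_lt_one hb0]
      exact (mem_closedBall_zero_iff.mp (hr hz)).trans_lt ((le_max_left _ _).trans_lt hbr)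
    refine ⟨fun z => Complex.log (-b) + Complex.log (1 + -(z / b)), ?_, fun z hz => ?_⟩
    · refine continuousOn_const.add (ContinuousOn.clog ?_ hs)
      fun_prop
    · rw [Complex.exp_add, Complex.exp_log (neg_ne_zero.mpr hb0'),
        Complex.exp_log (Complex.slitPlane_ne_zero (hs z hz))]
      field_simp
      ring
  have haC : a ∈ connectedComponentIn Λᶜ a := mem_connectedComponentIn ha
  refine isPreconnected_connectedComponentIn.induction₂'
    (fun x y => HasLog Λ (fun z => z - x) → HasLog Λ (fun z => z - y)) (fun x hx => ?_)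
    (fun x y v _ _ _ hxy hyv h => hyv (hxy h)) hb haC hlogb
  have hxΛ : x ∉ Λ := connectedComponentIn_subset _ _ hx
  obtain ⟨δ, hδ, hδb⟩ := Metric.isOpen_iff.mp hΛ.isClosed.isOpen_compl x hxΛ
  have hmem : ball x (δ / 2) ∈ 𝓝[connectedComponentIn Λᶜ a] x :=
    mem_nhdsWithin_of_mem_nhds (ball_mem_nhds x (by positivity))
  have hfar : ∀ z ∈ Λ, δ ≤ ‖z - x‖ := by
    intro z hz
    by_contra hlt
    push Not at hlt
    exact hδb (mem_ball_iff_norm.mpr hlt) hz
  filter_upwards [hmem] with y hy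
  rw [mem_ball_iff_norm] at hy
  constructor
  · intro h
    refine h.move fun z hz => ?_
    rw [norm_sub_rev x y]
    linarith [hfar z hz]
  · intro h
    refine h.move fun z hz => ?_
    have h1 : ‖z - x‖ ≤ ‖z - y‖ + ‖y - x‖ := by
      calc ‖z - x‖ = ‖(z - y) + (y - x)‖ := by congr 1; ring
        _ ≤ _ := norm_add_le _ _
    linarith [hfar z hz]

/-- Splitting off a zero. -/
theorem exists_factor_one {h : ℂ → ℂ} (hh : Differentiable ℂ h) {a : ℂ} (ha : h a = 0) :
    ∃ k : ℂ → ℂ, Differentiable ℂ k ∧ ∀ z, h z = (z - a) * k z := by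
  refine ⟨dslope h a, ?_, fun z => ?_⟩
  · have := (Complex.differentiableOn_dslope (f := h) (c := a) (s := univ) univ_mem).mpr
      hh.differentiableOn
    exact differentiableOn_univ.mp this
  · have := sub_smul_dslope h a z
    rw [ha, sub_zero, smul_eq_mul] at this
    exact this.symm

theorem norm_prod_le {s : Multiset ℂ} {z : ℂ} {A : ℝ} (hs : ∀ a ∈ s, ‖z - a‖ ≤ A) :
    ‖(s.map (fun a => z - a)).prod‖ ≤ A ^ s.card := by
  induction s using Multiset.induction_on with
  | empty => simp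
  | cons a s ih =>
    rw [Multiset.map_cons, Multiset.prod_cons, norm_mul, Multiset.card_cons, pow_succ, mul_comm]
    have h1 := hs a (Multiset.mem_cons_self a s)
    have h2 := ih fun b hb => hs b (Multiset.mem_cons_of_mem hb)
    have h3 : 0 ≤ A := (norm_nonneg _).trans h1
    gcongr

theorem le_norm_prod {s : Multiset ℂ} {z : ℂ} {A : ℝ} (hA : 0 ≤ A) (hs : ∀ a ∈ s, A ≤ ‖z - a‖) :
    A ^ s.card ≤ ‖(s.map (fun a => z - a)).prod‖ := by
  induction s using Multiset.induction_on with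
  | empty => simp
  | cons a s ih =>
    rw [Multiset.map_cons, Multiset.prod_cons, norm_mul, Multiset.card_cons, pow_succ, mul_comm]
    have h1 := hs a (Multiset.mem_cons_self a s)
    have h2 := ih fun b hb => hs b (Multiset.mem_cons_of_mem hb)
    gcongr

/-- Jensen type bound. -/
theorem card_bound {g h : ℂ → ℂ} (hh : Differentiable ℂ h) {s : Multiset ℂ}
    (hgh : ∀ z, g z = (s.map (fun a => z - a)).prod * h z) {z₀ : ℂ} {A R M : ℝ} (hA : 0 < A)
    (hz₀ : ‖z₀‖ < R) (hs : ∀ a ∈ s, ‖z₀ - a‖ ≤ A) (hs' : ∀ a ∈ s, ‖a‖ + 2 * A ≤ R)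
    (hM : ∀ z, ‖z‖ = R → ‖g z‖ ≤ M) : 2 ^ s.card * ‖g z₀‖ ≤ M := by
  have hR : 0 < R := (norm_nonneg _).trans_lt hz₀
  have h1 : ∀ z ∈ frontier (ball (0 : ℂ) R), ‖h z‖ ≤ M / (2 * A) ^ s.card := by
    intro z hz
    rw [frontier_ball _ hR.ne', mem_sphere_zero_iff_norm] at hz
    have h2 := hM z hz
    rw [hgh z, norm_mul] at h2
    have h3 : (2 * A) ^ s.card ≤ ‖(s.map (fun a => z - a)).prod‖ := by
      refine le_norm_prod (by positivity) fun a ha => ?_
      have h4 := norm_sub_norm_le z a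
      have h5 := hs' a ha
      rw [hz] at h4
      linarith
    rw [le_div_iff₀ (by positivity), mul_comm]
    exact (mul_le_mul_of_nonneg_right h3 (norm_nonneg _)).trans h2
  have h2 : ‖h z₀‖ ≤ M / (2 * A) ^ s.card :=
    Complex.norm_le_of_forall_mem_frontier_norm_le isBounded_ball
      hh.diffContOnCl h1 (subset_closure (mem_ball_zero_iff.mpr hz₀))
  have h3 := norm_prod_le hs
  have h4 : 0 ≤ M := by
    obtain ⟨z, hz⟩ : ∃ z : ℂ, ‖z‖ = R := ⟨R, by simp [abs_of_pos hR]⟩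
    exact (norm_nonneg _).trans (hM z hz)
  calc 2 ^ s.card * ‖g z₀‖ = 2 ^ s.card * (‖(s.map (fun a => z₀ - a)).prod‖ * ‖h z₀‖) := by
        rw [hgh z₀, norm_mul]
    _ ≤ 2 ^ s.card * (A ^ s.card * (M / (2 * A) ^ s.card)) := by gcongr
    _ = M := by
      rw [mul_pow]
      field_simp

/-- Fibre bound: the number of solutions of `g z = w` in `{|z| ≤ r}`. -/
theorem fibre_card {g : ℂ → ℂ} (hg : Differentiable ℂ g) (h0 : g 0 = 0) {w : ℂ} {S : Finset ℂ}
    {r ρ M : ℝ} (hr : 0 < r) (hρ : 0 < ρ) (hS : ∀ a ∈ S, ‖a‖ ≤ r ∧ g a = w)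
    (hM : ∀ z, ‖z‖ ≤ 3 * r → ‖g z‖ ≤ M) (hw : ρ ≤ ‖w‖) : (S.card : ℝ) ≤ M / ρ + 1 := by
  have hex : ∀ T : Finset ℂ, (∀ a ∈ T, g a = w) → ∃ h : ℂ → ℂ, Differentiable ℂ h ∧
      ∀ z, g z - w = (T.val.map (fun a => z - a)).prod * h z := by
    intro T
    induction T using Finset.induction_on with
    | empty => exact fun _ => ⟨fun z => g z - w, hg.sub_const _, fun z => by simp⟩
    | insert b T hb ih =>
      intro hT
      obtain ⟨h, hh, hgh⟩ := ih fun a ha => hT a (Finset.mem_insert_of_mem ha)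
      have h1 := hgh b
      rw [hT b (Finset.mem_insert_self b T), sub_self] at h1
      have h2 : (T.val.map (fun a => b - a)).prod ≠ 0 := by
        rw [Ne, Multiset.prod_eq_zero_iff, Multiset.mem_map]
        rintro ⟨a, ha, ha'⟩
        rw [sub_eq_zero] at ha'
        rw [ha'] at hb
        exact hb ha
      have h3 : h b = 0 := by
        rcases mul_eq_zero.mp h1.symm with h4 | h4
        · exact absurd h4 h2
        · exact h4
      obtain ⟨k, hk, hk'⟩ := exists_factor_one hh h3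
      refine ⟨k, hk, fun z => ?_⟩
      rw [Finset.insert_val_of_notMem hb, Multiset.map_cons, Multiset.prod_cons, hgh z, hk' z]
      ring
  obtain ⟨h, hh, hgh⟩ := hex S fun a ha => (hS a ha).2
  have hb := card_bound (g := fun z => g z - w) hh hgh (z₀ := 0) (A := r) (R := 3 * r)
    (M := M + ‖w‖) hr (by rw [norm_zero]; positivity)
    (fun a ha => by rw [zero_sub, norm_neg]; exact (hS a ha).1)
    (fun a ha => by linarith [(hS a ha).1])
    (fun z hz => (norm_sub_le _ _).trans (by linarith [hM z hz.le]))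
  simp only [h0, zero_sub, norm_neg, Finset.card_val] at hb
  have hw0 : 0 < ‖w‖ := hρ.trans_le hw
  have h1 : (2 : ℝ) ^ S.card ≤ M / ‖w‖ + 1 := by
    rw [div_add_one hw0.ne', le_div_iff₀ hw0]
    exact hb
  have h2 : (S.card : ℝ) ≤ 2 ^ S.card := by
    exact_mod_cast (Nat.lt_two_pow_self (n := S.card)).le
  have h3 : 0 ≤ M := (norm_nonneg _).trans (hM 0 (by rw [norm_zero]; positivity))
  have h4 : M / ‖w‖ ≤ M / ρ := div_le_div_of_nonneg_left h3 hρ hw
  linarith

/-- Splitting off all zeros in a disc. -/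
theorem exists_factor {g : ℂ → ℂ} (hg : Differentiable ℂ g) (hne : ∃ z, g z ≠ 0) {R : ℝ}
    (hR : 0 < R) : ∃ (s : Multiset ℂ) (h : ℂ → ℂ), (∀ a ∈ s, ‖a‖ < R ∧ g a = 0) ∧
      Differentiable ℂ h ∧ (∀ z, g z = (s.map (fun a => z - a)).prod * h z) ∧
      ∀ z, ‖z‖ < R → h z ≠ 0 := by
  -- a point in the disc where `g` is nonzero
  obtain ⟨z₀, hz₀, hgz₀⟩ : ∃ z₀ : ℂ, ‖z₀‖ < R ∧ g z₀ ≠ 0 := by
    by_contra hcon
    push Not at hcon
    obtain ⟨z, hz⟩ := hne
    have h1 : AnalyticOnNhd ℂ g univ := fun z _ => hg.analyticAt z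
    have h2 : g =ᶠ[𝓝 0] (fun _ => (0 : ℂ)) := by
      filter_upwards [ball_mem_nhds (0 : ℂ) hR] with z hz
      exact hcon z (mem_ball_zero_iff.mp hz)
    have h3 := h1.eq_of_eventuallyEq (fun z _ => analyticAt_const) h2
    exact hz (congrFun h3 z)
  have hgpos : 0 < ‖g z₀‖ := norm_pos_iff.mpr hgz₀
  obtain ⟨M, hM⟩ := (isCompact_closedBall (0 : ℂ) (5 * R)).exists_bound_of_continuousOn
    hg.continuous.continuousOn
  let D : ℕ → Prop := fun n => ∃ (s : Multiset ℂ) (h : ℂ → ℂ), s.card = n ∧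
    (∀ a ∈ s, ‖a‖ < R ∧ g a = 0) ∧ Differentiable ℂ h ∧
    (∀ z, g z = (s.map (fun a => z - a)).prod * h z)
  have hD0 : D 0 := ⟨0, g, by simp, by simp, hg, fun z => by simp⟩
  obtain ⟨N, hN⟩ := pow_unbounded_of_one_lt (M / ‖g z₀‖) (one_lt_two)
  have hDN : ∀ n, D n → n < N := by
    rintro n ⟨s, h, rfl, hs, hh, hgh⟩
    have h1 := card_bound hh hgh (z₀ := z₀) (A := 2 * R) (R := 5 * R) (M := M) (by positivity)
      (by linarith) (fun a ha => by
        have := norm_sub_le z₀ a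
        linarith [(hs a ha).1]) (fun a ha => by linarith [(hs a ha).1])
      (fun z hz => hM z (mem_closedBall_zero_iff.mpr hz.le))
    by_contra hcon
    push Not at hcon
    rw [div_lt_iff₀ hgpos] at hN
    have h2 : (2 : ℝ) ^ N ≤ 2 ^ s.card := pow_le_pow_right₀ one_le_two hcon
    nlinarith
  classical
  obtain ⟨n, hn, hmax⟩ : ∃ n, D n ∧ ¬ D (n + 1) := by
    by_contra hcon
    push Not at hcon
    have : ∀ n, D n := fun n => Nat.rec hD0 (fun k hk => hcon k hk) n
    exact lt_irrefl _ (hDN N (this N))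
  obtain ⟨s, h, hcard, hs, hh, hgh⟩ := hn
  refine ⟨s, h, hs, hh, hgh, fun z hz hz0 => hmax ?_⟩
  obtain ⟨k, hk, hk'⟩ := exists_factor_one hh hz0
  refine ⟨z ::ₘ s, k, by simp [hcard], ?_, hk, fun w => ?_⟩
  · intro a ha
    rcases Multiset.mem_cons.mp ha with rfl | ha
    · exact ⟨hz, by rw [hgh a, hz0, mul_zero]⟩
    · exact hs a ha
  · rw [Multiset.map_cons, Multiset.prod_cons, hgh w, hk' w]
    ring

/-- An entire function has a continuous logarithm on `Λ` if all its zeros in a disc containing `Λ`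
are in the unbounded component of the complement of `Λ`. -/
theorem hasLog_of_zeros {g : ℂ → ℂ} (hg : Differentiable ℂ g) (hne : ∃ z, g z ≠ 0)
    {Λ : Set ℂ} (hΛ : IsCompact Λ) {R : ℝ} (hR : 0 < R) (hΛR : ∀ z ∈ Λ, ‖z‖ < R)
    (hz : ∀ a, ‖a‖ < R → g a = 0 → a ∉ Λ ∧ ¬ Bornology.IsBounded (connectedComponentIn Λᶜ a)) :
    HasLog Λ g := by
  obtain ⟨s, h, hs, hh, hgh, hh0⟩ := exists_factor hg hne hR
  have h1 : HasLog Λ h := by
    obtain ⟨L, hL, -, hL'⟩ := MP_571b65_an.exists_log (z := 0) hR hh.differentiableOn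
      (fun w hw => hh0 w (mem_ball_zero_iff.mp hw))
    exact ⟨L, hL.continuousOn.mono fun z hz => mem_ball_zero_iff.mpr (hΛR z hz),
      fun z hz => hL' z (mem_ball_zero_iff.mpr (hΛR z hz))⟩
  have h2 : ∀ t : Multiset ℂ, (∀ a ∈ t, ‖a‖ < R ∧ g a = 0) →
      HasLog Λ (fun z => (t.map (fun a => z - a)).prod) := by
    intro t
    induction t using Multiset.induction_on with
    | empty => exact fun _ => ⟨fun _ => 0, continuousOn_const, fun z _ => by simp⟩
    | cons a t ih =>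
      intro ht
      have h3 := ht a (Multiset.mem_cons_self a t)
      have h4 := hz a h3.1 h3.2
      have h5 := (hasLog_sub hΛ h4.1 h4.2).mul (ih fun b hb => ht b (Multiset.mem_cons_of_mem hb))
      simpa only [Multiset.map_cons, Multiset.prod_cons] using h5
  obtain ⟨L, hL, hL'⟩ := (h2 s hs).mul h1
  exact ⟨L, hL, fun z hz => by rw [hL' z hz, hgh z]⟩

end Pool.Agent.Work.MP_571b65_an_Q2
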