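import Mathlib

/-!
# Proper holomorphic maps onto discs: components of preimages
-/

open Filter Topology Metric Set

namespace Pool.Agent.Work.MP_571b65_an_Q2

/-- `g : X → {|w| < τ}` is a proper holomorphic map, `X` a domain. -/
structure PL (g : ℂ → ℂ) (X : Set ℂ) (τ : ℝ) : Prop where
  diff : Differentiable ℂ g
  openMap : IsOpenMap g
  isOpen : IsOpen X
  preconn : IsPreconnected X
  lt : ∀ z ∈ X, ‖g z‖ < τ
  cpt : ∀ s < τ, IsCompact {z | z ∈ X ∧ ‖g z‖ ≤ s}

/-- A component is relatively closed. -/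
theorem mem_component_of_mem_closure {X : Type*} [TopologicalSpace X] {F : Set X} {z v : X}
    (hz : z ∈ F) (hv : v ∈ closure (connectedComponentIn F z)) (hvF : v ∈ F) :
    v ∈ connectedComponentIn F z := by
  have h2 : IsPreconnected (insert v (connectedComponentIn F z)) :=
    isPreconnected_connectedComponentIn.subset_closure (subset_insert _ _)
      (insert_subset hv subset_closure)
  exact h2.subset_connectedComponentIn (mem_insert_of_mem _ (mem_connectedComponentIn hz))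
    (insert_subset hvF (connectedComponentIn_subset _ _)) (mem_insert _ _)

variable {g : ℂ → ℂ} {X : Set ℂ} {τ : ℝ}

/-- Components of preimages of connected open sets are mapped onto. -/
theorem PL.subset_image (h : PL g X τ) {Δ : Set ℂ} (hΔ : IsOpen Δ) (hΔc : IsPreconnected Δ)
    (hΔτ : ∀ w ∈ Δ, ‖w‖ < τ) {z : ℂ} (hz : z ∈ X) (hgz : g z ∈ Δ) :
    Δ ⊆ g '' connectedComponentIn (X ∩ g ⁻¹' Δ) z := by
  have hc : Continuous g := h.diff.continuous
  set O := connectedComponentIn (X ∩ g ⁻¹' Δ) z with hO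
  have hOo : IsOpen O := (h.isOpen.inter (hΔ.preimage hc)).connectedComponentIn
  have hzF : z ∈ X ∩ g ⁻¹' Δ := ⟨hz, hgz⟩
  have hOF : O ⊆ X ∩ g ⁻¹' Δ := connectedComponentIn_subset _ _
  refine hΔc.subset_of_closure_inter_subset (h.openMap O hOo)
    ⟨g z, hgz, mem_image_of_mem g (mem_connectedComponentIn hzF)⟩ ?_
  rintro w ⟨hw1, hw2⟩
  obtain ⟨s, hs1, hs2⟩ := exists_between (hΔτ w hw2)
  have hcpt := h.cpt s hs2
  set Cs := {z | z ∈ X ∧ ‖g z‖ ≤ s} with hCs
  have h1 : w ∈ closure (ball 0 s ∩ g '' O) :=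
    isOpen_ball.inter_closure ⟨by rwa [mem_ball_zero_iff], hw1⟩
  have h2 : ball 0 s ∩ g '' O ⊆ g '' closure (O ∩ Cs) := by
    rintro _ ⟨hb, v, hv, rfl⟩
    rw [mem_ball_zero_iff] at hb
    exact mem_image_of_mem g (subset_closure ⟨hv, (hOF hv).1, hb.le⟩)
  have h3 : closure (O ∩ Cs) ⊆ Cs := closure_minimal inter_subset_right hcpt.isClosed
  have h4 : IsCompact (closure (O ∩ Cs)) := hcpt.of_isClosed_subset isClosed_closure h3
  obtain ⟨v, hv, rfl⟩ := closure_minimal h2 (h4.image hc).isClosed h1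
  refine mem_image_of_mem g (mem_component_of_mem_closure hzF (closure_mono inter_subset_left hv) ?_)
  exact ⟨(h3 hv).1, hw2⟩

/-- The components of sublevel sets contain zeros. -/
theorem PL.exists_zero (h : PL g X τ) {s : ℝ} (hs : 0 < s) (hsτ : s ≤ τ) {z : ℂ}
    (hz : z ∈ {z | z ∈ X ∧ ‖g z‖ < s}) :
    ∃ a ∈ connectedComponentIn {z | z ∈ X ∧ ‖g z‖ < s} z, g a = 0 := by
  have h1 := h.subset_image (Δ := ball 0 s) isOpen_ball (convex_ball _ _).isPreconnected
    (fun w hw => (mem_ball_zero_iff.mp hw).trans_le hsτ) hz.1 (mem_ball_zero_iff.mpr hz.2)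
  obtain ⟨a, ha, ha0⟩ := h1 (mem_ball_self hs)
  refine ⟨a, ?_, ha0⟩
  have h2 : X ∩ g ⁻¹' ball 0 s = {z | z ∈ X ∧ ‖g z‖ < s} := by
    ext z; simp
  rwa [h2] at ha

theorem PL.isOpen_sub (h : PL g X τ) (s : ℝ) : IsOpen {z | z ∈ X ∧ ‖g z‖ < s} := by
  have h1 : IsOpen {z : ℂ | ‖g z‖ < s} := isOpen_lt h.diff.continuous.norm continuous_const
  exact h.isOpen.inter h1

/-- Local structure at a noncritical point: the closure of a component of a sublevel set is open in
the closed sublevel set. -/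
theorem PL.local_struct (h : PL g X τ) {s : ℝ} (hs : 0 < s) {z p : ℂ}
    (hz : z ∈ {z | z ∈ X ∧ ‖g z‖ < s}) (hpX : p ∈ X) (hps : ‖g p‖ ≤ s)
    (hp : p ∈ closure (connectedComponentIn {z | z ∈ X ∧ ‖g z‖ < s} z))
    (hder : ‖g p‖ = s → deriv g p ≠ 0) :
    ∃ V : Set ℂ, IsOpen V ∧ p ∈ V ∧ ∀ v ∈ V, ‖g v‖ ≤ s →
      v ∈ closure (connectedComponentIn {z | z ∈ X ∧ ‖g z‖ < s} z) := by
  set S := {z | z ∈ X ∧ ‖g z‖ < s} with hS
  set O := connectedComponentIn S z with hO
  have hOo : IsOpen O := (h.isOpen_sub s).connectedComponentIn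
  rcases hps.lt_or_eq with hlt | heq
  · refine ⟨O, hOo, mem_component_of_mem_closure hz hp ⟨hpX, hlt⟩, fun v hv _ => subset_closure hv⟩
  · have hd := hder heq
    have hsd : HasStrictDerivAt g (deriv g p) p :=
      (h.diff.analyticAt p).hasStrictDerivAt
    have hsf := hsd.hasStrictFDerivAt_equiv hd
    set e := hsf.toOpenPartialHomeomorph g with he
    have hecoe : (e : ℂ → ℂ) = g := hsf.toOpenPartialHomeomorph_coe
    have hps : p ∈ e.source := hsf.mem_toOpenPartialHomeomorph_source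
    have hpt : g p ∈ e.target := hsf.image_mem_toOpenPartialHomeomorph_target
    have hsymm : e.symm (g p) = p := by
      rw [← hecoe]; exact e.left_inv hps
    -- choose a small ball
    have hc1 : ContinuousAt e.symm (g p) := e.continuousAt_symm hpt
    have hX1 : ∀ᶠ w in 𝓝 (g p), e.symm w ∈ X := by
      apply hc1.eventually_mem
      rw [hsymm]
      exact h.isOpen.mem_nhds hpX
    obtain ⟨ε, hε, hball⟩ := Metric.eventually_nhds_iff_ball.mp
      (hX1.and (e.open_target.eventually_mem hpt))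
    set B := ball (g p) ε with hB
    have hBt : B ⊆ e.target := fun w hw => (hball w hw).2
    set V := e.source ∩ g ⁻¹' B with hV
    have hVo : IsOpen V := e.open_source.inter (isOpen_ball.preimage h.diff.continuous)
    set Q := e.symm '' (B ∩ ball 0 s) with hQ
    have hQc : IsPreconnected Q := by
      refine ((convex_ball _ _).inter (convex_ball _ _)).isPreconnected.image _ ?_
      exact e.continuousOn_symm.mono (inter_subset_left.trans hBt)
    have hQS : Q ⊆ S := by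
      rintro _ ⟨w, ⟨hwB, hws⟩, rfl⟩
      refine ⟨(hball w hwB).1, ?_⟩
      have : g (e.symm w) = w := by rw [← hecoe]; exact e.right_inv (hBt hwB)
      rw [this]
      exact mem_ball_zero_iff.mp hws
    have hpV : p ∈ V := ⟨hps, mem_ball_self hε⟩
    obtain ⟨z', hz'V, hz'O⟩ := mem_closure_iff.mp hp V hVo hpV
    have hz'S : z' ∈ S := connectedComponentIn_subset _ _ hz'O
    have hz'Q : z' ∈ Q := by
      refine ⟨g z', ⟨hz'V.2, mem_ball_zero_iff.mpr hz'S.2⟩, ?_⟩
      rw [← hecoe]; exact e.left_inv hz'V.1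
    have hQO : Q ⊆ O := by
      have h1 := hQc.subset_connectedComponentIn hz'Q hQS
      rwa [← connectedComponentIn_eq hz'O] at h1
    refine ⟨V, hVo, hpV, fun v hv hvs => ?_⟩
    have hv1 : g v ∈ closure (B ∩ ball 0 s) := by
      apply isOpen_ball.inter_closure
      refine ⟨hv.2, ?_⟩
      rw [closure_ball _ hs.ne']
      exact mem_closedBall_zero_iff.mpr hvs
    have hv2 : e.symm (g v) = v := by rw [← hecoe]; exact e.left_inv hv.1
    have hc2 : ContinuousAt e.symm (g v) := e.continuousAt_symm (hBt hv.2)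
    rw [← hv2]
    exact closure_mono hQO (mem_closure_image hc2 hv1)

/-- If `z₂` is in the component of `z₁` in all larger sublevel sets and there are no critical points
on the level, then also at this level. -/
theorem PL.mem_component_of_forall (h : PL g X τ) {s : ℝ} (hs : 0 < s) (hsτ : s < τ) {z₁ z₂ : ℂ}
    (h1 : z₁ ∈ {z | z ∈ X ∧ ‖g z‖ < s}) (h2 : z₂ ∈ {z | z ∈ X ∧ ‖g z‖ < s})
    (hder : ∀ z ∈ X, ‖g z‖ = s → deriv g z ≠ 0)
    (hall : ∀ t, s < t → t < τ → z₂ ∈ connectedComponentIn {z | z ∈ X ∧ ‖g z‖ < t} z₁) :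
    z₂ ∈ connectedComponentIn {z | z ∈ X ∧ ‖g z‖ < s} z₁ := by
  set S := {z | z ∈ X ∧ ‖g z‖ < s} with hS
  set O := connectedComponentIn S z₁ with hO
  set Cs := {z | z ∈ X ∧ ‖g z‖ ≤ s} with hCs
  have hCc : IsCompact Cs := h.cpt s hsτ
  have hOC : closure O ⊆ Cs := by
    refine closure_minimal (fun z hz => ?_) hCc.isClosed
    have := connectedComponentIn_subset _ _ hz
    exact ⟨this.1, this.2.le⟩
  -- `closure O` is open in `Cs`
  choose! V hVo hpV hV using fun p (hp : p ∈ closure O) =>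
    h.local_struct hs h1 (hOC hp).1 (hOC hp).2 hp (fun he => hder p (hOC hp).1 he)
  set W : Set ℂ := ⋃ p ∈ closure O, V p with hW
  have hWo : IsOpen W := isOpen_biUnion fun p hp => hVo p hp
  have hOW : closure O ⊆ W := fun p hp => mem_biUnion hp (hpV p hp)
  have hWC : W ∩ Cs ⊆ closure O := by
    rintro v ⟨hv, hvC⟩
    obtain ⟨p, hp, hv⟩ := mem_iUnion₂.mp hv
    exact hV p hp v hv hvC.2
  have hA : IsCompact (closure O) := hCc.of_isClosed_subset isClosed_closure hOC
  have hB : IsCompact (Cs \ W) := hCc.diff hWo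
  have hdisj : Disjoint (closure O) (Cs \ W) := by
    rw [Set.disjoint_left]
    intro v hv hv'
    exact hv'.2 (hOW hv)
  obtain ⟨N1, N2, hN1, hN2, hAN, hBN, hN⟩ := SeparatedNhds.of_isCompact_isCompact hA hB hdisj
  have hCN : Cs ⊆ N1 ∪ N2 := by
    intro v hv
    by_cases hvW : v ∈ W
    · exact Or.inl (hAN (hWC ⟨hvW, hv⟩))
    · exact Or.inr (hBN ⟨hv, hvW⟩)
  -- slightly larger levels are still contained in `N1 ∪ N2`
  have hex : ∃ t, s < t ∧ t < τ ∧ {z | z ∈ X ∧ ‖g z‖ ≤ t} ⊆ N1 ∪ N2 := by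
    by_contra hcon
    push Not at hcon
    obtain ⟨t0, ht0, ht0'⟩ := exists_between hsτ
    have hK : IsCompact ({z | z ∈ X ∧ ‖g z‖ ≤ t0} \ (N1 ∪ N2)) :=
      (h.cpt t0 ht0').diff (hN1.union hN2)
    have hne : (({z | z ∈ X ∧ ‖g z‖ ≤ t0} \ (N1 ∪ N2))).Nonempty := by
      have := hcon t0 ht0 ht0'
      rw [Set.not_subset] at this
      obtain ⟨a, ha, ha'⟩ := this
      exact ⟨a, ha, ha'⟩
    obtain ⟨v, hv, hmin⟩ := hK.exists_isMinOn hne h.diff.continuous.norm.continuousOn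
    have hvs : s < ‖g v‖ := by
      by_contra hle
      push Not at hle
      exact hv.2 (hCN ⟨hv.1.1, hle⟩)
    obtain ⟨t, ht, ht'⟩ := exists_between hvs
    have htτ : t < τ := ht'.trans (hv.1.2.trans_lt ht0')
    have := hcon t ht htτ
    rw [Set.not_subset] at this
    obtain ⟨a, ha, ha'⟩ := this
    have h5 : t ≤ t0 := ht'.le.trans hv.1.2
    have h6 := hmin (show a ∈ ({z | z ∈ X ∧ ‖g z‖ ≤ t0} \ (N1 ∪ N2)) from
      ⟨⟨ha.1, ha.2.trans h5⟩, ha'⟩)
    simp only [mem_setOf_eq] at h6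
    linarith [ha.2]
  obtain ⟨t, hst, htτ, htN⟩ := hex
  have h3 := hall t hst htτ
  have h4 : connectedComponentIn {z | z ∈ X ∧ ‖g z‖ < t} z₁ ⊆ N1 := by
    refine isPreconnected_connectedComponentIn.subset_left_of_subset_union hN1 hN2 hN ?_ ?_
    · intro v hv
      have := connectedComponentIn_subset _ _ hv
      exact htN ⟨this.1, this.2.le⟩
    · refine ⟨z₁, mem_connectedComponentIn ⟨h1.1, h1.2.trans hst⟩, ?_⟩
      exact hAN (subset_closure (mem_connectedComponentIn h1))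
  have h5 : z₂ ∈ N1 := h4 h3
  have h6 : z₂ ∈ closure O := by
    apply hWC
    refine ⟨?_, h2.1, h2.2.le⟩
    by_contra hzW
    exact Set.disjoint_left.mp hN h5 (hBN ⟨⟨h2.1, h2.2.le⟩, hzW⟩)
  exact mem_component_of_mem_closure h1 h6 h2

/-- A connected sublevel relation persists for slightly smaller levels. -/
theorem PL.exists_smaller (h : PL g X τ) {s : ℝ} {z₁ z₂ : ℂ}
    (h12 : z₂ ∈ connectedComponentIn {z | z ∈ X ∧ ‖g z‖ < s} z₁) :
    ∃ t < s, ∀ t' , t < t' → z₂ ∈ connectedComponentIn {z | z ∈ X ∧ ‖g z‖ < t'} z₁ := by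
  set S := {z | z ∈ X ∧ ‖g z‖ < s} with hS
  have hz1 : z₁ ∈ S := by
    by_contra hcon
    rw [connectedComponentIn_eq_empty hcon] at h12
    exact h12
  set O := connectedComponentIn S z₁ with hO
  have hOo : IsOpen O := (h.isOpen_sub s).connectedComponentIn
  have hOc : IsConnected O := ⟨⟨z₁, mem_connectedComponentIn hz1⟩, isPreconnected_connectedComponentIn⟩
  have hOp : IsPathConnected O := hOo.isConnected_iff_isPathConnected.mp hOc
  obtain ⟨γ, hγ⟩ := hOp.joinedIn z₁ (mem_connectedComponentIn hz1) z₂ h12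
  have hcpt : IsCompact (range γ) := isCompact_range γ.continuous
  have hne : (range γ).Nonempty := range_nonempty _
  obtain ⟨v, hv, hmax⟩ := hcpt.exists_isMaxOn hne h.diff.continuous.norm.continuousOn
  have hrO : range γ ⊆ O := by rintro _ ⟨t, rfl⟩; exact hγ t
  refine ⟨‖g v‖, (connectedComponentIn_subset _ _ (hrO hv)).2, fun t' ht' => ?_⟩
  have hpre : IsPreconnected (range γ) := isPreconnected_range γ.continuous
  refine hpre.subset_connectedComponentIn ⟨0, γ.source⟩ ?_ ⟨1, γ.target⟩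
  intro w hw
  refine ⟨(connectedComponentIn_subset _ _ (hrO hw)).1, ?_⟩
  exact (hmax hw).trans_lt ht'

/-- The sublevel sets above the critical level are connected. -/
theorem PL.isPreconnected_sub (h : PL g X τ) {s₀ : ℝ} (hs₀ : 0 < s₀)
    (hder : ∀ z ∈ X, s₀ ≤ ‖g z‖ → deriv g z ≠ 0) {s : ℝ} (hs : s₀ ≤ s) (hsτ : s ≤ τ) :
    IsPreconnected {z | z ∈ X ∧ ‖g z‖ < s} := by
  have hspos : 0 < s := hs₀.trans_le hs
  -- zeros are in the same component
  have key : ∀ z₁ ∈ X, ∀ z₂ ∈ X, g z₁ = 0 → g z₂ = 0 →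
      z₂ ∈ connectedComponentIn {z | z ∈ X ∧ ‖g z‖ < s} z₁ := by
    intro z₁ hz₁ z₂ hz₂ hg₁ hg₂
    by_contra hcon
    set T : Set ℝ := {t | s ≤ t ∧ t ≤ τ ∧ z₂ ∈ connectedComponentIn {z | z ∈ X ∧ ‖g z‖ < t} z₁}
      with hT
    have hXτ : {z | z ∈ X ∧ ‖g z‖ < τ} = X := by
      ext z
      exact ⟨fun hz => hz.1, fun hz => ⟨hz, h.lt z hz⟩⟩
    have hτT : τ ∈ T := by
      refine ⟨hsτ, le_rfl, ?_⟩
      rw [hXτ]
      exact h.preconn.subset_connectedComponentIn hz₁ subset_rfl hz₂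
    have hbdd : BddBelow T := ⟨s, fun t ht => ht.1⟩
    set t₀ := sInf T with ht₀
    have hst₀ : s ≤ t₀ := le_csInf ⟨τ, hτT⟩ fun t ht => ht.1
    have ht₀τ : t₀ ≤ τ := csInf_le hbdd hτT
    have hmono : ∀ t ∈ T, ∀ t', t ≤ t' → z₂ ∈ connectedComponentIn {z | z ∈ X ∧ ‖g z‖ < t'} z₁ := by
      intro t ht t' htt'
      refine connectedComponentIn_mono _ ?_ ht.2.2
      intro z hz
      exact ⟨hz.1, hz.2.trans_le htt'⟩
    have ht₀T : t₀ ∈ T := by
      rcases ht₀τ.lt_or_eq with hlt | heq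
      · refine ⟨hst₀, ht₀τ, ?_⟩
        have ht₀pos : 0 < t₀ := hspos.trans_le hst₀
        refine h.mem_component_of_forall ht₀pos hlt ⟨hz₁, by rwa [hg₁, norm_zero]⟩
          ⟨hz₂, by rwa [hg₂, norm_zero]⟩ (fun z hz he => hder z hz (by rw [he]; exact hs.trans hst₀)) ?_
        intro t ht htτ
        obtain ⟨t', ht', ht'2⟩ := exists_lt_of_csInf_lt ⟨τ, hτT⟩ ht
        exact hmono t' ht' t ht'2.le
      · rw [heq]; exact hτT
    obtain ⟨t, ht, htall⟩ := h.exists_smaller ht₀T.2.2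
    rcases hst₀.lt_or_eq with hlt | heq
    · have h1 : max t s < t₀ := max_lt ht hlt
      obtain ⟨t', ht', ht'2⟩ := exists_between h1
      have h2 : t' ∈ T := ⟨(le_max_right _ _).trans ht'.le, ht'2.le.trans ht₀τ,
        htall t' ((le_max_left _ _).trans_lt ht')⟩
      exact absurd (csInf_le hbdd h2) (not_le.mpr ht'2)
    · rw [← heq] at ht₀T
      exact hcon ht₀T.2.2
  refine isPreconnected_of_forall_pair fun x hx y hy => ?_
  obtain ⟨a, ha, ha0⟩ := h.exists_zero hspos hsτ hx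
  obtain ⟨b, hb, hb0⟩ := h.exists_zero hspos hsτ hy
  have haS := connectedComponentIn_subset _ _ ha
  have hbS := connectedComponentIn_subset _ _ hb
  have hab := key a haS.1 b hbS.1 ha0 hb0
  refine ⟨connectedComponentIn {z | z ∈ X ∧ ‖g z‖ < s} x, connectedComponentIn_subset _ _,
    mem_connectedComponentIn hx, ?_, isPreconnected_connectedComponentIn⟩
  rw [connectedComponentIn_eq ha, connectedComponentIn_eq hab, ← connectedComponentIn_eq hb]
  exact mem_connectedComponentIn hy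

end Pool.Agent.Work.MP_571b65_an_Q2
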