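import Mathlib
import Pool.Agent.Work.MP_571b65_an_Q2.Defs
import Pool.Agent.Work.MP_571b65_an_Q2.Proper

/-!
# Spirals, tubes and segments
-/

open Filter Topology Metric Set

namespace Pool.Agent.Work.MP_571b65_an_Q2

theorem norm_spi {H x : ℝ} (hx : 0 ≤ x) : ‖spi H x‖ = x := by
  rw [spi, norm_mul, Complex.norm_exp_ofReal_mul_I, mul_one, Complex.norm_real,
    Real.norm_eq_abs, abs_of_nonneg hx]

theorem continuous_spi (H : ℝ) : Continuous (spi H) := by
  unfold spi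
  fun_prop

/-- Two continuous logarithms of the same function differ by a constant on a preconnected set. -/
theorem sub_eq_of_exp_eq {T : Type*} [TopologicalSpace T] {S : Set T} (hS : IsPreconnected S)
    {L M : T → ℂ} (hL : ContinuousOn L S) (hM : ContinuousOn M S)
    (h : ∀ z ∈ S, Complex.exp (L z) = Complex.exp (M z)) {x y : T} (hx : x ∈ S) (hy : y ∈ S) :
    L x - M x = L y - M y := by
  have hint : ∀ z ∈ S, ∃ n : ℤ, L z - M z = n * (2 * Real.pi * Complex.I) := by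
    intro z hz
    obtain ⟨n, hn⟩ := Complex.exp_eq_exp_iff_exists_int.mp (h z hz)
    exact ⟨n, by rw [hn]; ring⟩
  have hcont : ContinuousOn (fun z => (L z - M z).im / (2 * Real.pi)) S :=
    (Complex.continuous_im.comp_continuousOn (hL.sub hM)).div_const _
  have hval : ∀ z ∈ S, ∀ n : ℤ, L z - M z = n * (2 * Real.pi * Complex.I) →
      (L z - M z).im / (2 * Real.pi) = n := by
    intro z _ n hn
    have : (L z - M z).im = n * (2 * Real.pi) := by
      rw [hn]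
      simp
    rw [this]
    field_simp
  -- no two different values
  have key : ∀ x ∈ S, ∀ y ∈ S, ∀ m n : ℤ, L x - M x = m * (2 * Real.pi * Complex.I) →
      L y - M y = n * (2 * Real.pi * Complex.I) → ¬ m < n := by
    intro x hx y hy m n hm hn hlt
    have h1 := hval x hx m hm
    have h2 := hval y hy n hn
    have h3 : (m : ℝ) + 1 ≤ n := by exact_mod_cast hlt
    have h4 : (m : ℝ) + 1 / 2 ∈ Icc ((L x - M x).im / (2 * Real.pi))
        ((L y - M y).im / (2 * Real.pi)) := by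
      rw [h1, h2]
      constructor <;> linarith
    obtain ⟨z, hz, hzv⟩ := hS.intermediate_value hx hy hcont h4
    obtain ⟨k, hk⟩ := hint z hz
    have h5 := hval z hz k hk
    simp only at hzv
    rw [h5] at hzv
    have h6 : (2 * k : ℝ) = 2 * m + 1 := by linarith
    have h7 : (2 * k : ℤ) = 2 * m + 1 := by exact_mod_cast h6
    omega
  obtain ⟨m, hm⟩ := hint x hx
  obtain ⟨n, hn⟩ := hint y hy
  rcases lt_trichotomy m n with h1 | h1 | h1
  · exact absurd h1 (key x hx y hy m n hm hn)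
  · rw [hm, hn, h1]
  · exact absurd h1 (key y hy x hx n m hn hm)

/-- A thin tube around the middle part of the spiral, with a continuous logarithm. -/
theorem exists_tube {H ρ : ℝ} (hρ : 0 < ρ) {Δ : Set ℂ} (hΔ : IsOpen Δ)
    (hsp : ∀ x ∈ Icc (3 : ℝ) 7, (ρ : ℂ) * spi H x ∈ Δ) :
    ∃ (N : Set ℂ) (L : ℂ → ℂ), IsOpen N ∧ IsPreconnected N ∧ N ⊆ Δ ∧
      (∀ w ∈ N, 7 / 2 * ρ < ‖w‖ ∧ ‖w‖ < 13 / 2 * ρ) ∧
      (∀ x ∈ Icc (4 : ℝ) 6, (ρ : ℂ) * spi H x ∈ N) ∧ ContinuousOn L N ∧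
      (∀ w ∈ N, Complex.exp (L w) = w) ∧
      ∀ x ∈ Icc (4 : ℝ) 6, L (ρ * spi H x) = (Real.log (ρ * x) : ℝ) + ((H * (x - 3) : ℝ) : ℂ) * Complex.I := by
  set Ψ : ℝ × ℝ → ℂ := fun p => ((ρ * p.1 : ℝ) : ℂ) *
    Complex.exp (((H * (p.1 - 3) + p.2 : ℝ) : ℂ) * Complex.I) with hΨ
  have hΨc : Continuous Ψ := by rw [hΨ]; fun_prop
  have hΨn : ∀ p : ℝ × ℝ, 0 < p.1 → ‖Ψ p‖ = ρ * p.1 := by
    intro p hp
    rw [hΨ]
    simp only
    rw [norm_mul, Complex.norm_exp_ofReal_mul_I, mul_one, Complex.norm_real, Real.norm_eq_abs,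
      abs_of_pos (by positivity)]
  have hΨ0 : ∀ x : ℝ, Ψ (x, 0) = ρ * spi H x := by
    intro x
    rw [hΨ]
    simp only [spi, add_zero]
    push_cast
    ring
  obtain ⟨u, v, hu, hv, hsu, htv, huv⟩ := generalized_tube_lemma
    (isCompact_Icc (a := (7 / 2 : ℝ)) (b := 13 / 2)) (isCompact_singleton (x := (0 : ℝ)))
    (n := Ψ ⁻¹' Δ) (hΔ.preimage hΨc) (by
      rintro ⟨x, θ⟩ ⟨hx, hθ⟩
      rw [mem_singleton_iff] at hθ
      simp only at hθ hx
      rw [hθ, mem_preimage, hΨ0]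
      exact hsp x ⟨by linarith [hx.1], by linarith [hx.2]⟩)
  obtain ⟨ε', hε', hεv⟩ := Metric.isOpen_iff.mp hv 0 (htv (mem_singleton _))
  set ε := min ε' 1 with hεdef
  have hε : 0 < ε := lt_min hε' one_pos
  have hε1 : ε ≤ 1 := min_le_right _ _
  have hπ : 3 < Real.pi := Real.pi_gt_three
  set U : ℂ → ℂ := fun w => w * Complex.exp (((-(H * (‖w‖ / ρ - 3)) : ℝ) : ℂ) * Complex.I) with hU
  have hUc : Continuous U := by rw [hU]; fun_prop
  have hUn : ∀ w, ‖U w‖ = ‖w‖ := by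
    intro w
    rw [hU]
    simp only
    rw [norm_mul, Complex.norm_exp_ofReal_mul_I, mul_one]
  -- `w` in polar form
  have hpol : ∀ w : ℂ, w ≠ 0 → w = Ψ (‖w‖ / ρ, (U w).arg) := by
    intro w hw
    have h1 : (‖U w‖ : ℂ) * Complex.exp ((U w).arg * Complex.I) = U w :=
      Complex.norm_mul_exp_arg_mul_I _
    have h2 : w = U w * Complex.exp (((H * (‖w‖ / ρ - 3) : ℝ) : ℂ) * Complex.I) := by
      rw [hU]
      simp only
      rw [mul_assoc, ← Complex.exp_add]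
      have : (((-(H * (‖w‖ / ρ - 3)) : ℝ) : ℂ) * Complex.I +
        ((H * (‖w‖ / ρ - 3) : ℝ) : ℂ) * Complex.I) = 0 := by push_cast; ring
      rw [this, Complex.exp_zero, mul_one]
    rw [hΨ]
    simp only
    conv_lhs => rw [h2, ← h1, hUn]
    rw [mul_assoc, ← Complex.exp_add]
    have h3 : ρ * (‖w‖ / ρ) = ‖w‖ := by field_simp
    rw [h3]
    congr 2
    push_cast
    ring
  have hUΨ : ∀ x θ : ℝ, 0 < x → -Real.pi < θ → θ ≤ Real.pi → (U (Ψ (x, θ))).arg = θ := by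
    intro x θ hx hθ1 hθ2
    have h1 : U (Ψ (x, θ)) = ((ρ * x : ℝ) : ℂ) * Complex.exp (θ * Complex.I) := by
      rw [hU]
      simp only
      rw [hΨn (x, θ) hx]
      simp only
      have h2 : ρ * x / ρ = x := by field_simp
      rw [h2, hΨ]
      simp only
      rw [mul_assoc, ← Complex.exp_add]
      congr 2
      push_cast
      ring
    rw [h1, Complex.exp_mul_I]
    exact Complex.arg_mul_cos_add_sin_mul_I (by positivity) ⟨hθ1, hθ2⟩
  set N : Set ℂ := Ψ '' (Ioo (7 / 2) (13 / 2) ×ˢ Ioo (-ε) ε) with hN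
  set N' : Set ℂ := {w | 7 / 2 * ρ < ‖w‖ ∧ ‖w‖ < 13 / 2 * ρ} ∩
    (U ⁻¹' (Complex.slitPlane ∩ Complex.arg ⁻¹' (Ioo (-ε) ε))) with hN'
  have hNN' : N = N' := by
    apply subset_antisymm
    · rintro _ ⟨⟨x, θ⟩, ⟨hx, hθ⟩, rfl⟩
      simp only at hx hθ
      have hx0 : 0 < x := by linarith [hx.1]
      have h1 := hΨn (x, θ) hx0
      simp only at h1
      have h2 := hUΨ x θ hx0 (by linarith [hθ.1]) (by linarith [hθ.2])
      refine ⟨⟨?_, ?_⟩, ?_, ?_⟩
      · show 7 / 2 * ρ < ‖Ψ (x, θ)‖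
        rw [h1]; nlinarith [hx.1]
      · show ‖Ψ (x, θ)‖ < 13 / 2 * ρ
        rw [h1]; nlinarith [hx.2]
      · rw [Complex.mem_slitPlane_iff_arg]
        refine ⟨by rw [h2]; linarith [hθ.2], ?_⟩
        rw [← norm_pos_iff, hUn, h1]
        positivity
      · rw [mem_preimage, h2]
        exact hθ
    · rintro w ⟨⟨h1, h2⟩, h3, h4⟩
      have hw : w ≠ 0 := by rw [← norm_pos_iff]; linarith
      refine ⟨(‖w‖ / ρ, (U w).arg), ⟨⟨?_, ?_⟩, h4⟩, (hpol w hw).symm⟩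
      · simp only
        rw [lt_div_iff₀ hρ]; exact h1
      · simp only
        rw [div_lt_iff₀ hρ]; exact h2
  have hNo : IsOpen N' := by
    have h1 : IsOpen {w : ℂ | 7 / 2 * ρ < ‖w‖ ∧ ‖w‖ < 13 / 2 * ρ} :=
      (isOpen_lt continuous_const continuous_norm).inter (isOpen_lt continuous_norm continuous_const)
    have h2 : IsOpen (Complex.slitPlane ∩ Complex.arg ⁻¹' (Ioo (-ε) ε)) := by
      refine ContinuousOn.isOpen_inter_preimage (fun z hz => ?_) Complex.isOpen_slitPlane isOpen_Ioo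
      exact (Complex.continuousAt_arg hz).continuousWithinAt
    exact h1.inter (h2.preimage hUc)
  have hmem : ∀ x ∈ Icc (4 : ℝ) 6, (ρ : ℂ) * spi H x ∈ N := by
    intro x hx
    refine ⟨(x, 0), ⟨⟨by simp only; linarith [hx.1], by simp only; linarith [hx.2]⟩,
      ⟨by simp only; linarith, by simp only; linarith⟩⟩, hΨ0 x⟩
  have hnorm : ∀ w ∈ N, 7 / 2 * ρ < ‖w‖ ∧ ‖w‖ < 13 / 2 * ρ := by
    intro w hw
    rw [hNN'] at hw
    exact hw.1
  refine ⟨N, fun w => (Real.log ‖w‖ : ℝ) + ((H * (‖w‖ / ρ - 3) + (U w).arg : ℝ) : ℂ) * Complex.I,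
    by rw [hNN']; exact hNo, ?_, ?_, hnorm, hmem, ?_, ?_, ?_⟩
  · exact (isPreconnected_Ioo.prod isPreconnected_Ioo).image _ hΨc.continuousOn
  · rintro _ ⟨⟨x, θ⟩, ⟨hx, hθ⟩, rfl⟩
    simp only at hx hθ
    have h1 : (x, θ) ∈ Ψ ⁻¹' Δ := huv ⟨hsu ⟨hx.1.le, hx.2.le⟩, hεv (by
      rw [mem_ball_zero_iff, Real.norm_eq_abs, abs_lt]
      have : ε ≤ ε' := min_le_left _ _
      constructor <;> linarith [hθ.1, hθ.2])⟩
    exact h1
  · rw [hNN']
    have h1 : ContinuousOn (fun w : ℂ => Real.log ‖w‖) N' := by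
      refine ContinuousOn.log continuous_norm.continuousOn fun w hw => ?_
      exact (lt_trans (by positivity) hw.1.1).ne'
    have h2 : ContinuousOn (fun w : ℂ => (U w).arg) N' := by
      intro w hw
      exact ((Complex.continuousAt_arg hw.2.1).comp hUc.continuousAt).continuousWithinAt
    have h3 : ContinuousOn (fun w : ℂ => H * (‖w‖ / ρ - 3) + (U w).arg) N' :=
      ContinuousOn.add (by fun_prop) h2
    exact (Complex.continuous_ofReal.comp_continuousOn h1).add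
      ((Complex.continuous_ofReal.comp_continuousOn h3).mul continuousOn_const)
  · intro w hw
    have hw0 : 0 < ‖w‖ := lt_trans (by positivity) (hnorm w hw).1
    have hw' : w ≠ 0 := norm_pos_iff.mp hw0
    simp only
    rw [Complex.exp_add, ← Complex.ofReal_exp, Real.exp_log hw0]
    conv_rhs => rw [hpol w hw']
    rw [hΨ]
    simp only
    have h3 : ρ * (‖w‖ / ρ) = ‖w‖ := by field_simp
    rw [h3]
  · intro x hx
    have hx0 : 0 < x := by linarith [hx.1]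
    have h1 : ‖(ρ : ℂ) * spi H x‖ = ρ * x := by rw [← hΨ0 x]; exact hΨn (x, 0) hx0
    have h2 : (U (ρ * spi H x)).arg = 0 := by
      rw [← hΨ0 x]; exact hUΨ x 0 hx0 (by linarith) (by linarith)
    simp only
    rw [h1, h2]
    have h3 : ρ * x / ρ = x := by field_simp
    rw [h3, add_zero]

variable {g : ℂ → ℂ} {X : Set ℂ} {τ : ℝ}

/-- The part of a half line between the levels `a` and `b`. -/
theorem PL.exists_segment (h : PL g X τ) {r₀ a b : ℝ} (hXr : ∀ z ∈ X, ‖z‖ < r₀) (hab : a < b)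
    (hb : b < τ) {q v : ℂ} (hq : q ∈ X) (hgq : ‖g q‖ < a) (hv : ‖v‖ = 1) :
    ∃ t₀ t₁ : ℝ, 0 ≤ t₀ ∧ t₀ < t₁ ∧ t₁ - t₀ ≤ 2 * r₀ ∧ ‖g (q - t₀ * v)‖ = a ∧
      ‖g (q - t₁ * v)‖ = b ∧ ∀ t ∈ Icc t₀ t₁, q - t * v ∈ X ∧ a ≤ ‖g (q - t * v)‖ ∧
        ‖g (q - t * v)‖ ≤ b := by
  set σ : ℝ → ℂ := fun t => q - t * v with hσ
  have hσc : Continuous σ := by rw [hσ]; fun_prop
  have hgc : Continuous (fun t => ‖g (σ t)‖) := (h.diff.continuous.comp hσc).norm
  have hVb := h.isOpen_sub b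
  have hr₀ : 0 < r₀ := (norm_nonneg _).trans_lt (hXr q hq)
  have hσ2 : ∀ t : ℝ, 2 * r₀ ≤ t → σ t ∉ X := by
    intro t ht hX
    have h1 := hXr _ hX
    have h2 := hXr _ hq
    have h3 : ‖(t : ℂ) * v‖ ≤ ‖q‖ + ‖σ t‖ := by
      have : (t : ℂ) * v = q - σ t := by rw [hσ]; ring
      rw [this]; exact norm_sub_le _ _
    rw [norm_mul, hv, mul_one, Complex.norm_real, Real.norm_eq_abs,
      abs_of_nonneg (by linarith)] at h3
    linarith
  -- first exit
  set T1 : Set ℝ := Icc 0 (2 * r₀) ∩ σ ⁻¹' {z | z ∈ X ∧ ‖g z‖ < b}ᶜ with hT1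
  have hT1c : IsCompact T1 := isCompact_Icc.inter_right (hVb.isClosed_compl.preimage hσc)
  have hT1ne : T1.Nonempty := ⟨2 * r₀, ⟨by positivity, le_rfl⟩, fun hX => hσ2 _ le_rfl hX.1⟩
  obtain ⟨t₁, ht₁, hmin⟩ := hT1c.exists_isLeast hT1ne
  have hσ0 : σ 0 = q := by simp [hσ]
  have ht₁pos : 0 < t₁ := by
    rcases ht₁.1.1.lt_or_eq with h1 | h1
    · exact h1
    · exfalso
      refine ht₁.2 ?_
      rw [← h1, hσ0]
      exact ⟨hq, hgq.trans hab⟩
  have hbefore : ∀ t, 0 ≤ t → t < t₁ → σ t ∈ X ∧ ‖g (σ t)‖ < b := by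
    intro t ht0 ht
    by_contra hcon
    have : t ∈ T1 := ⟨⟨ht0, ht.le.trans ht₁.1.2⟩, hcon⟩
    exact absurd (hmin this) (not_le.mpr ht)
  have ht₁C : σ t₁ ∈ X ∧ ‖g (σ t₁)‖ ≤ b := by
    have h1 : t₁ ∈ closure (Ico 0 t₁) := by
      rw [closure_Ico ht₁pos.ne]
      exact ⟨ht₁pos.le, le_rfl⟩
    have h2 : σ t₁ ∈ closure (σ '' Ico 0 t₁) :=
      image_closure_subset_closure_image hσc (mem_image_of_mem σ h1)
    have h3 : σ '' Ico 0 t₁ ⊆ {z | z ∈ X ∧ ‖g z‖ ≤ b} := by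
      rintro _ ⟨t, ht, rfl⟩
      have := hbefore t ht.1 ht.2
      exact ⟨this.1, this.2.le⟩
    exact closure_minimal h3 (h.cpt b hb).isClosed h2
  have ht₁b : ‖g (σ t₁)‖ = b := by
    refine le_antisymm ht₁C.2 ?_
    by_contra hcon
    push Not at hcon
    exact ht₁.2 ⟨ht₁C.1, hcon⟩
  -- last time below level `a`
  set T0 : Set ℝ := Icc 0 t₁ ∩ {t | ‖g (σ t)‖ ≤ a} with hT0
  have hT0c : IsCompact T0 := isCompact_Icc.inter_right (isClosed_le hgc continuous_const)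
  have hT0ne : T0.Nonempty := ⟨0, ⟨le_rfl, ht₁pos.le⟩, by
    show ‖g (σ 0)‖ ≤ a
    rw [hσ0]; exact hgq.le⟩
  obtain ⟨t₀, ht₀, hmax⟩ := hT0c.exists_isGreatest hT0ne
  have ht₀a : ‖g (σ t₀)‖ ≤ a := ht₀.2
  have ht₀₁ : t₀ < t₁ := by
    rcases ht₀.1.2.lt_or_eq with h1 | h1
    · exact h1
    · rw [h1, ht₁b] at ht₀a
      linarith
  have hafter : ∀ t, t₀ < t → t ≤ t₁ → a < ‖g (σ t)‖ := by
    intro t ht ht'
    by_contra hcon
    push Not at hcon
    have : t ∈ T0 := ⟨⟨ht₀.1.1.trans ht.le, ht'⟩, hcon⟩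
    exact absurd (hmax this) (not_le.mpr ht)
  have ht₀a' : a ≤ ‖g (σ t₀)‖ := by
    have h1 : t₀ ∈ closure (Ioc t₀ t₁) := by
      rw [closure_Ioc ht₀₁.ne]
      exact ⟨le_rfl, ht₀₁.le⟩
    have h3 : IsClosed {t | a ≤ ‖g (σ t)‖} := isClosed_le continuous_const hgc
    exact closure_minimal (fun t ht => (hafter t ht.1 ht.2).le) h3 h1
  have hin : ∀ t ∈ Icc t₀ t₁, σ t ∈ X ∧ a ≤ ‖g (σ t)‖ ∧ ‖g (σ t)‖ ≤ b := by
    intro t ht
    refine ⟨?_, ?_, ?_⟩
    · rcases ht.2.lt_or_eq with h1 | h1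
      · exact (hbefore t (ht₀.1.1.trans ht.1) h1).1
      · rw [h1]; exact ht₁C.1
    · rcases ht.1.lt_or_eq with h1 | h1
      · exact (hafter t h1 ht.2).le
      · rw [← h1]; exact ht₀a'
    · rcases ht.2.lt_or_eq with h1 | h1
      · exact (hbefore t (ht₀.1.1.trans ht.1) h1).2.le
      · rw [h1]; exact ht₁C.2
  refine ⟨t₀, t₁, ht₀.1.1, ht₀₁, ?_, le_antisymm ht₀a ht₀a', ht₁b, hin⟩
  have h1 := hXr _ (hin t₀ ⟨le_rfl, ht₀₁.le⟩).1
  have h2 := hXr _ (hin t₁ ⟨ht₀₁.le, le_rfl⟩).1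
  have h3 : ‖((t₁ - t₀ : ℝ) : ℂ) * v‖ ≤ ‖σ t₀‖ + ‖σ t₁‖ := by
    have : ((t₁ - t₀ : ℝ) : ℂ) * v = σ t₀ - σ t₁ := by rw [hσ]; push_cast; ring
    rw [this]; exact norm_sub_le _ _
  rw [norm_mul, hv, mul_one, Complex.norm_real, Real.norm_eq_abs,
    abs_of_nonneg (by linarith)] at h3
  linarith

/-- A logarithm along a segment, with a bound for its variation. -/
theorem exists_log_segment (hg : Differentiable ℂ g) {q v : ℂ} (hv : ‖v‖ = 1) {t₀ t₁ a D : ℝ}
    (ht : t₀ < t₁) (ha : 0 < a) (h1 : ∀ t ∈ Icc t₀ t₁, a ≤ ‖g (q - t * v)‖)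
    (h2 : ∀ t ∈ Icc t₀ t₁, ‖deriv g (q - t * v)‖ ≤ D) :
    ∃ s : ℝ → ℂ, ContinuousOn s (Icc t₀ t₁) ∧ (∀ t ∈ Icc t₀ t₁, Complex.exp (s t) = g (q - t * v)) ∧
      ‖s t₁ - s t₀‖ ≤ D / a * (t₁ - t₀) := by
  set c : ℝ → ℝ := fun t => max t₀ (min t t₁) with hc
  have hcc : Continuous c := by rw [hc]; fun_prop
  have hcI : ∀ t, c t ∈ Icc t₀ t₁ := by
    intro t
    exact ⟨le_max_left _ _, max_le ht.le (min_le_right _ _)⟩
  have hceq : ∀ t ∈ Icc t₀ t₁, c t = t := by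
    intro t ht'
    rw [hc]
    simp only
    rw [min_eq_left ht'.2, max_eq_right ht'.1]
  have hσc : Continuous (fun t : ℝ => q - (t : ℂ) * v) := by fun_prop
  have hne : ∀ t, g (q - (c t : ℂ) * v) ≠ 0 := by
    intro t h0
    have := h1 _ (hcI t)
    rw [h0, norm_zero] at this
    linarith
  set I : ℝ → ℂ := fun t => -v * deriv g (q - (c t : ℂ) * v) / g (q - (c t : ℂ) * v) with hI
  have hdc : Continuous (deriv g) := by
    have := hg.contDiff (n := 1)
    exact this.continuous_deriv le_rfl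
  have hIc : Continuous I := by
    rw [hI]
    refine Continuous.div ?_ ?_ hne
    · exact continuous_const.mul (hdc.comp (hσc.comp hcc))
    · exact hg.continuous.comp (hσc.comp hcc)
  have hIb : ∀ t, ‖I t‖ ≤ D / a := by
    intro t
    rw [hI]
    simp only
    rw [norm_div, norm_mul, norm_neg, hv, one_mul]
    have h3 := h1 _ (hcI t)
    have h4 := h2 _ (hcI t)
    have h5 : 0 ≤ D := (norm_nonneg _).trans h4
    exact div_le_div₀ h5 h4 ha h3
  set s : ℝ → ℂ := fun t => Complex.log (g (q - t₀ * v)) + ∫ x in t₀..t, I x with hs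
  have hsd : ∀ t, HasDerivAt s (I t) t := by
    intro t
    exact ((hIc.integral_hasStrictDerivAt t₀ t).hasDerivAt).const_add _
  have hsc : Continuous s := continuous_iff_continuousAt.mpr fun t => (hsd t).continuousAt
  refine ⟨s, hsc.continuousOn, ?_, ?_⟩
  · have hσd : ∀ t : ℝ, HasDerivAt (fun t : ℝ => q - (t : ℂ) * v) (-v) t := by
      intro t
      have := ((Complex.ofRealCLM.hasDerivAt (x := t)).mul_const v).const_sub q
      simpa using this
    have hFd : ∀ t : ℝ, HasDerivAt (fun t : ℝ => g (q - (t : ℂ) * v) * Complex.exp (-s t))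
        (deriv g (q - (t : ℂ) * v) * (-v) * Complex.exp (-s t) +
          g (q - (t : ℂ) * v) * (Complex.exp (-s t) * (-I t))) t := by
      intro t
      have e1 : HasDerivAt (fun t : ℝ => g (q - (t : ℂ) * v)) (deriv g (q - (t : ℂ) * v) * (-v)) t :=
        ((hg _).hasDerivAt).comp t (hσd t)
      exact e1.mul ((hsd t).neg.cexp)
    have hconst := constant_of_has_deriv_right_zero
      (f := fun t : ℝ => g (q - (t : ℂ) * v) * Complex.exp (-s t)) (a := t₀) (b := t₁)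
      (fun t _ => (hFd t).continuousAt.continuousWithinAt) (fun t ht' => by
        have e1 := (hFd t).hasDerivWithinAt (s := Ici t)
        convert e1 using 1
        have e2 : c t = t := hceq t ⟨ht'.1, ht'.2.le⟩
        have e3 : g (q - (t : ℂ) * v) ≠ 0 := by
          have := hne t
          rwa [e2] at this
        rw [hI]
        simp only
        rw [e2]
        field_simp
        ring)
    intro t ht'
    have e1 := hconst t ht'
    have e2 : s t₀ = Complex.log (g (q - t₀ * v)) := by rw [hs]; simp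
    have e3 : g (q - (t₀ : ℂ) * v) ≠ 0 := by
      have := hne t₀
      rwa [hceq t₀ ⟨le_rfl, ht.le⟩] at this
    rw [e2, Complex.exp_neg, Complex.exp_neg, Complex.exp_log e3, mul_inv_cancel₀ e3] at e1
    have e4 := Complex.exp_ne_zero (s t)
    field_simp at e1
    exact e1.symm
  · have e1 : s t₁ - s t₀ = ∫ x in t₀..t₁, I x := by rw [hs]; simp
    rw [e1]
    have e2 := intervalIntegral.norm_integral_le_of_norm_le_const (a := t₀) (b := t₁) (f := I)
      (C := D / a) (fun x _ => hIb x)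
    rwa [abs_of_pos (by linarith)] at e2

end Pool.Agent.Work.MP_571b65_an_Q2
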