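import Mathlib
import Pool.Agent.Work.MP_571b65_an_Q2.LogLemma
import Pool.Agent.Work.MP_571b65_an_Q2.Spiral

/-!
# The crossing lemma
-/

open Filter Topology Metric Set

namespace Pool.Agent.Work.MP_571b65_an_Q2

variable {g : ℂ → ℂ} {X : Set ℂ}

/-- **Crossing lemma.** Every component of `g⁻¹(Δ)`, where `Δ` contains a fast spiral, meets the half
plane `{Re (c z) < α}` if `X` has a point of low level there. -/
theorem crossing {ρ r₀ R H α : ℝ} (hPL : PL g X (9 * ρ)) (hρ : 0 < ρ) (g0 : g 0 = 0)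
    (hXr : ∀ z ∈ X, ‖z‖ < r₀) (hM : ∀ z, ‖z‖ ≤ 3 * r₀ → ‖g z‖ ≤ R)
    (hfill : ∀ Λ ⊆ X, IsCompact Λ → ∀ a ∉ Λ, Bornology.IsBounded (connectedComponentIn Λᶜ a) → a ∈ X)
    (hsub : IsPreconnected {z | z ∈ X ∧ ‖g z‖ < 7 / 2 * ρ})
    {Δ : Set ℂ} (hΔ : IsOpen Δ) (hΔc : IsPreconnected Δ) (hΔτ : ∀ w ∈ Δ, ‖w‖ < 9 * ρ)
    (hsp : ∀ x ∈ Icc (3 : ℝ) 7, (ρ : ℂ) * spi H x ∈ Δ) {z₁ : ℂ} (hz₁ : z₁ ∈ X) (hgz₁ : g z₁ ∈ Δ)
    {c : ℂ} (hc : ‖c‖ = 1) {q : ℂ} (hq : q ∈ X) (hgq : ‖g q‖ < 4 * ρ) (hqα : (c * q).re < α)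
    (hH : 13 * (R / ρ + 3) ≤ H) :
    ∃ q' ∈ connectedComponentIn (X ∩ g ⁻¹' Δ) z₁, (c * q').re < α := by
  by_contra hcon
  push Not at hcon
  have hr₀ : 0 < r₀ := (norm_nonneg _).trans_lt (hXr q hq)
  have hgc : Continuous g := hPL.diff.continuous
  have hR0 : 0 ≤ R := (norm_nonneg _).trans (hM 0 (by rw [norm_zero]; positivity))
  have hRρ : 0 ≤ R / ρ := by positivity
  set O := connectedComponentIn (X ∩ g ⁻¹' Δ) z₁ with hO
  -- the tube
  obtain ⟨N, LN, hNo, hNc, hNΔ, hNn, hNs, hLNc, hLNe, hLNs⟩ := exists_tube hρ hΔ hsp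
  -- the segment
  obtain ⟨t₀, t₁, ht₀, ht₀₁, htr, hgt₀, hgt₁, hseg⟩ := hPL.exists_segment (a := 4 * ρ) (b := 6 * ρ)
    hXr (by linarith) (by linarith) hq hgq (v := (starRingEnd ℂ) c) (by rw [Complex.norm_conj, hc])
  set v := (starRingEnd ℂ) c with hv
  have hvn : ‖v‖ = 1 := by rw [hv, Complex.norm_conj, hc]
  have hderiv : ∀ t ∈ Icc t₀ t₁, ‖deriv g (q - t * v)‖ ≤ R / (2 * r₀) := by
    intro t ht
    refine Complex.norm_deriv_le_of_forall_mem_sphere_norm_le (by positivity)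
      hPL.diff.diffContOnCl fun z hz => hM z ?_
    rw [mem_sphere_iff_norm] at hz
    have h1 := hXr _ (hseg t ht).1
    have h2 : ‖z‖ ≤ ‖z - (q - t * v)‖ + ‖q - t * v‖ := by
      calc ‖z‖ = ‖(z - (q - t * v)) + (q - t * v)‖ := by congr 1; ring
        _ ≤ _ := norm_add_le _ _
    linarith
  obtain ⟨s, hsc, hse, hsv⟩ := exists_log_segment hPL.diff hvn ht₀₁ (a := 4 * ρ) (by positivity)
    (fun t ht => (hseg t ht).2.1) hderiv
  have hV : ‖s t₁ - s t₀‖ ≤ R / ρ / 4 := by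
    refine hsv.trans ?_
    have h1 : R / (2 * r₀) / (4 * ρ) * (t₁ - t₀) ≤ R / (2 * r₀) / (4 * ρ) * (2 * r₀) := by
      gcongr
    refine h1.trans (le_of_eq ?_)
    field_simp
  have hreσ : ∀ t ∈ Icc t₀ t₁, (c * (q - t * v)).re < α := by
    intro t ht
    have h1 : c * (q - t * v) = c * q - t * (c * (starRingEnd ℂ) c) := by rw [hv]; ring
    rw [h1, Complex.mul_conj, Complex.normSq_eq_norm_sq, hc]
    have h2 : 0 ≤ t := ht₀.trans ht.1
    simp only [Complex.sub_re, one_pow, Complex.ofReal_one, mul_one, Complex.ofReal_re]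
    linarith
  -- real parts of the logarithm
  have hsre : ∀ t ∈ Icc t₀ t₁, (s t).re = Real.log ‖g (q - t * v)‖ := by
    intro t ht
    rw [← hse t ht, Complex.norm_exp, Real.log_exp]
  set x : ℝ → ℝ := fun t => ‖g (q - t * v)‖ / ρ with hx
  have hxc : Continuous x := by
    rw [hx]
    refine Continuous.div_const ?_ _
    exact (hgc.comp (by fun_prop)).norm
  have hx0 : x t₀ = 4 := by rw [hx]; simp only; rw [hgt₀]; field_simp
  have hx1 : x t₁ = 6 := by rw [hx]; simp only; rw [hgt₁]; field_simp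
  have hxI : ∀ t ∈ Icc t₀ t₁, x t ∈ Icc (4 : ℝ) 6 := by
    intro t ht
    obtain ⟨-, h1, h2⟩ := hseg t ht
    rw [hx]
    simp only
    constructor
    · rw [le_div_iff₀ hρ]; exact h1
    · rw [div_le_iff₀ hρ]; exact h2
  have hπ : 0 < Real.pi := Real.pi_pos
  have hπ3 : Real.pi < 3.15 := Real.pi_lt_d2
  set K : ℕ := ⌊R / ρ⌋₊ + 1 with hK
  have hK1 : R / ρ < K := by
    rw [hK]; push_cast; exact Nat.lt_floor_add_one _
  have hK2 : (K : ℝ) ≤ R / ρ + 1 := by
    rw [hK]; push_cast; linarith [Nat.floor_le hRρ]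
  set m₀ : ℤ := ⌈(H - (s t₀).im) / (2 * Real.pi)⌉ with hm₀
  have hm₀1 : H - (s t₀).im ≤ m₀ * (2 * Real.pi) := by
    rw [← div_le_iff₀ (by positivity)]
    exact Int.le_ceil _
  have hm₀2 : m₀ * (2 * Real.pi) < H - (s t₀).im + 2 * Real.pi := by
    have h1 := Int.ceil_lt_add_one ((H - (s t₀).im) / (2 * Real.pi))
    rw [← hm₀] at h1
    have h2 : ((H - (s t₀).im) / (2 * Real.pi) + 1) * (2 * Real.pi) =
        H - (s t₀).im + 2 * Real.pi := by field_simp
    rw [← h2]
    exact mul_lt_mul_of_pos_right h1 (by positivity)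
  have him : (s t₁).im - (s t₀).im ≤ R / ρ / 4 := by
    have h1 := (Complex.abs_im_le_norm (s t₁ - s t₀)).trans hV
    rw [Complex.sub_im] at h1
    exact (le_abs_self _).trans h1
  -- the intersection points
  have hpts : ∀ j : ℕ, j < K + 1 → ∃ t ∈ Icc t₀ t₁,
      (s t).im + (m₀ + j : ℤ) * (2 * Real.pi) = H * (x t - 3) := by
    intro j hj
    have hj' : (j : ℝ) ≤ K := by exact_mod_cast Nat.lt_succ_iff.mp hj
    have hcont : ContinuousOn (fun t => (s t).im + (m₀ + j : ℤ) * (2 * Real.pi) - H * (x t - 3))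
        (Icc t₀ t₁) := by
      refine ContinuousOn.sub (ContinuousOn.add (Complex.continuous_im.comp_continuousOn hsc)
        continuousOn_const) ?_
      exact (continuous_const.mul (hxc.sub continuous_const)).continuousOn
    have h0 : (0 : ℝ) ∈ Icc ((s t₁).im + (m₀ + j : ℤ) * (2 * Real.pi) - H * (x t₁ - 3))
        ((s t₀).im + (m₀ + j : ℤ) * (2 * Real.pi) - H * (x t₀ - 3)) := by
      rw [hx0, hx1]
      push_cast
      constructor
      · have e1 : (j : ℝ) * (2 * Real.pi) ≤ (R / ρ + 1) * (2 * Real.pi) := by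
          have : (j : ℝ) ≤ R / ρ + 1 := hj'.trans hK2
          gcongr
        have e2 : (R / ρ + 1) * (2 * Real.pi) ≤ (R / ρ + 1) * 6.3 := by
          gcongr; linarith
        nlinarith
      · have e1 : 0 ≤ (j : ℝ) * (2 * Real.pi) := by positivity
        nlinarith
    obtain ⟨t, ht, ht'⟩ := intermediate_value_Icc' ht₀₁.le hcont h0
    exact ⟨t, ht, by simp only at ht'; linarith⟩
  choose! t htI hteq using hpts
  -- values at the intersection points
  have hxg : ∀ t ∈ Icc t₀ t₁, ‖g (q - t * v)‖ = ρ * x t := by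
    intro t _
    rw [hx]
    field_simp
  have hst : ∀ j < K + 1, s (t j) = (Real.log (ρ * x (t j)) : ℝ) +
      ((H * (x (t j) - 3) : ℝ) : ℂ) * Complex.I - (m₀ + j : ℤ) * (2 * Real.pi * Complex.I) := by
    intro j hj
    apply Complex.ext
    · rw [hsre _ (htI j hj), hxg _ (htI j hj)]
      simp
    · have := hteq j hj
      push_cast at this
      simp
      linarith
  have hgt : ∀ j < K + 1, g (q - t j * v) = ρ * spi H (x (t j)) := by
    intro j hj
    rw [← hse _ (htI j hj), hst j hj, Complex.exp_sub, Complex.exp_int_mul_two_pi_mul_I, div_one,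
      Complex.exp_add, ← Complex.ofReal_exp, Real.exp_log, spi]
    · push_cast; ring
    · have := (hxI _ (htI j hj)).1
      positivity
  have hgN : ∀ j < K + 1, g (q - t j * v) ∈ N := by
    intro j hj
    rw [hgt j hj]
    exact hNs _ (hxI _ (htI j hj))
  have hzX : ∀ j < K + 1, q - t j * v ∈ X := fun j hj => (hseg _ (htI j hj)).1
  -- the components of the preimage of the tube
  have hW : ∀ j < K + 1, ∃ y ∈ connectedComponentIn (X ∩ g ⁻¹' N) (q - t j * v),
      g y = ρ * spi H 5 := by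
    intro j hj
    have h1 := hPL.subset_image hNo hNc (fun w hw => by linarith [(hNn w hw).2]) (hzX j hj) (hgN j hj)
    exact h1 (hNs 5 ⟨by norm_num, by norm_num⟩)
  choose! y hyW hgy using hW
  have hyX : ∀ j < K + 1, y j ∈ X := fun j hj => (connectedComponentIn_subset _ _ (hyW j hj)).1
  -- pigeonhole
  obtain ⟨j, hj, l, hl, hjl, hyjl⟩ : ∃ j < K + 1, ∃ l < K + 1, j ≠ l ∧ y j = y l := by
    by_contra hcon2
    push Not at hcon2
    have hcard : ((Finset.range (K + 1)).image y).card = K + 1 := by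
      rw [Finset.card_image_of_injOn, Finset.card_range]
      intro a ha b hb hab
      simp only [Finset.coe_range, mem_Iio] at ha hb
      by_contra hne
      exact hcon2 a ha b hb hne hab
    have h1 := fibre_card (r := r₀) (ρ := ρ) (M := R) (w := ρ * spi H 5)
      (S := (Finset.range (K + 1)).image y) hPL.diff g0 hr₀ hρ (fun a ha => by
        obtain ⟨j, hj, rfl⟩ := Finset.mem_image.mp ha
        rw [Finset.mem_range] at hj
        exact ⟨(hXr _ (hyX j hj)).le, hgy j hj⟩) hM (by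
        rw [norm_mul, norm_spi (by norm_num), Complex.norm_real, Real.norm_eq_abs, abs_of_pos hρ]
        linarith)
    rw [hcard] at h1
    push_cast at h1
    linarith
  set W := connectedComponentIn (X ∩ g ⁻¹' N) (q - t j * v) with hWdef
  have hzjF : q - t j * v ∈ X ∩ g ⁻¹' N := ⟨hzX j hj, hgN j hj⟩
  have hzlF : q - t l * v ∈ X ∩ g ⁻¹' N := ⟨hzX l hl, hgN l hl⟩
  have hWl : q - t l * v ∈ W := by
    rw [hWdef, connectedComponentIn_eq (hyW j hj), hyjl, ← connectedComponentIn_eq (hyW l hl)]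
    exact mem_connectedComponentIn hzlF
  have hWj : q - t j * v ∈ W := mem_connectedComponentIn hzjF
  have hWo : IsOpen W := (hPL.isOpen.inter (hNo.preimage hgc)).connectedComponentIn
  have hWF : W ⊆ X ∩ g ⁻¹' N := connectedComponentIn_subset _ _
  have hWp : IsPathConnected W := hWo.isConnected_iff_isPathConnected.mp
    ⟨⟨_, hWj⟩, isPreconnected_connectedComponentIn⟩
  obtain ⟨γ, hγ⟩ := hWp.joinedIn _ hWj _ hWl
  have hγW : range γ ⊆ W := by rintro _ ⟨u, rfl⟩; exact hγ u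
  have hγc : IsCompact (range γ) := isCompact_range γ.continuous
  have hγp : IsPreconnected (range γ) := isPreconnected_range γ.continuous
  have hγj : q - t j * v ∈ range γ := ⟨0, γ.source⟩
  have hγl : q - t l * v ∈ range γ := ⟨1, γ.target⟩
  -- the loop
  set σ : ℝ → ℂ := fun u => q - u * v with hσ
  have hσc : Continuous σ := by rw [hσ]; fun_prop
  set Λ : Set ℂ := range γ ∪ σ '' Icc t₀ t₁ with hΛ
  have hΛc : IsCompact Λ := hγc.union (isCompact_Icc.image hσc)
  have hΛX : Λ ⊆ X := by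
    rintro z (hz | ⟨u, hu, rfl⟩)
    · exact (hWF (hγW hz)).1
    · exact (hseg u hu).1
  have hΛge : ∀ z ∈ Λ, 7 / 2 * ρ ≤ ‖g z‖ := by
    rintro z (hz | ⟨u, hu, rfl⟩)
    · exact (hNn _ (hWF (hγW hz)).2).1.le
    · have := (hseg u hu).2.1
      linarith
  have hΛle : ∀ z ∈ Λ, ‖g z‖ ≤ 13 / 2 * ρ := by
    rintro z (hz | ⟨u, hu, rfl⟩)
    · exact (hNn _ (hWF (hγW hz)).2).2.le
    · have := (hseg u hu).2.2
      linarith
  -- `O` is disjoint from `Λ`
  have hOΛ : O ⊆ Λᶜ := by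
    rintro z hz (hz' | ⟨u, hu, rfl⟩)
    · have h1 : W ⊆ connectedComponentIn (X ∩ g ⁻¹' Δ) z := by
        refine isPreconnected_connectedComponentIn.subset_connectedComponentIn (hγW hz') ?_
        exact hWF.trans (inter_subset_inter_right _ (preimage_mono hNΔ))
      rw [← connectedComponentIn_eq hz] at h1
      have h2 := hcon _ (h1 hWj)
      have h3 := hreσ _ (htI j hj)
      linarith
    · have h2 := hcon _ hz
      have h3 := hreσ _ hu
      simp only [hσ] at h2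
      linarith
  have hOimg : Δ ⊆ g '' O := hPL.subset_image hΔ hΔc hΔτ hz₁ hgz₁
  obtain ⟨p₀, hp₀O, hp₀⟩ := hOimg (hsp 3 ⟨le_rfl, by norm_num⟩)
  obtain ⟨p₁, hp₁O, hp₁⟩ := hOimg (hsp 7 ⟨by norm_num, le_rfl⟩)
  have hp₀n : ‖g p₀‖ = 3 * ρ := by
    rw [hp₀, norm_mul, norm_spi (by norm_num), Complex.norm_real, Real.norm_eq_abs, abs_of_pos hρ]
    ring
  have hp₁n : ‖g p₁‖ = 7 * ρ := by
    rw [hp₁, norm_mul, norm_spi (by norm_num), Complex.norm_real, Real.norm_eq_abs, abs_of_pos hρ]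
    ring
  have hp₀1 : connectedComponentIn Λᶜ p₀ = connectedComponentIn Λᶜ p₁ := by
    refine (connectedComponentIn_eq ?_).symm
    have h1 : IsPreconnected O := isPreconnected_connectedComponentIn
    exact h1.subset_connectedComponentIn hp₁O hOΛ hp₀O
  have hub : ¬ Bornology.IsBounded (connectedComponentIn Λᶜ p₁) := by
    intro hb
    have hΩo : IsOpen (connectedComponentIn Λᶜ p₁) := hΛc.isClosed.isOpen_compl.connectedComponentIn
    have h1 : ∀ z ∈ frontier (connectedComponentIn Λᶜ p₁), ‖g z‖ ≤ 13 / 2 * ρ := by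
      intro z hz
      apply hΛle
      by_contra hzΛ
      rw [hΩo.frontier_eq] at hz
      exact hz.2 (mem_component_of_mem_closure (hOΛ hp₁O) hz.1 hzΛ)
    have h2 := Complex.norm_le_of_forall_mem_frontier_norm_le hb hPL.diff.diffContOnCl h1
      (subset_closure (mem_connectedComponentIn (hOΛ hp₁O)))
    rw [hp₁n] at h2
    linarith
  have hp₀X : p₀ ∈ X := (connectedComponentIn_subset _ _ hp₀O).1
  -- zeros are in the unbounded component
  have hzeros : ∀ a, ‖a‖ < r₀ → g a = 0 → a ∉ Λ ∧ ¬ Bornology.IsBounded (connectedComponentIn Λᶜ a) := by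
    intro a _ ha
    have haΛ : a ∉ Λ := by
      intro h1
      have h2 := hΛge a h1
      rw [ha, norm_zero] at h2
      linarith
    refine ⟨haΛ, fun hb => ?_⟩
    have haX := hfill Λ hΛX hΛc a haΛ hb
    have h1 : {z | z ∈ X ∧ ‖g z‖ < 7 / 2 * ρ} ⊆ Λᶜ := by
      intro z hz hzΛ
      have := hΛge z hzΛ
      linarith [hz.2]
    have h2 : a ∈ connectedComponentIn Λᶜ p₀ := by
      refine hsub.subset_connectedComponentIn ⟨hp₀X, ?_⟩ h1 ⟨haX, ?_⟩
      · rw [hp₀n]; linarith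
      · rw [ha, norm_zero]; positivity
    rw [← connectedComponentIn_eq h2, hp₀1] at hb
    exact hub hb
  have hgne : ∃ z, g z ≠ 0 := by
    refine ⟨p₁, fun h0 => ?_⟩
    rw [h0, norm_zero] at hp₁n
    linarith
  obtain ⟨L, hLc, hLe⟩ := hasLog_of_zeros hPL.diff hgne hΛc hr₀ (fun z hz => hXr z (hΛX hz)) hzeros
  -- comparison of the logarithms
  have hcmp1 := sub_eq_of_exp_eq hγp (hLc.mono subset_union_left)
    (M := fun z => LN (g z)) (hLNc.comp hgc.continuousOn fun z hz => (hWF (hγW hz)).2)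
    (fun z hz => by rw [hLe z (Or.inl hz), hLNe _ (hWF (hγW hz)).2]) hγj hγl
  have hcmp2 := sub_eq_of_exp_eq (isPreconnected_Icc (a := t₀) (b := t₁)) (L := fun u => L (σ u))
    (M := s) (hLc.comp hσc.continuousOn fun u hu => Or.inr (mem_image_of_mem σ hu)) hsc
    (fun u hu => by rw [hLe _ (Or.inr (mem_image_of_mem σ hu)), hse u hu]) (htI j hj) (htI l hl)
  simp only [hσ] at hcmp2
  rw [hgt j hj, hgt l hl, hLNs _ (hxI _ (htI j hj)), hLNs _ (hxI _ (htI l hl))] at hcmp1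
  rw [hst j hj, hst l hl] at hcmp2
  have hfin : ((m₀ + j : ℤ) : ℂ) * (2 * Real.pi * Complex.I) =
      ((m₀ + l : ℤ) : ℂ) * (2 * Real.pi * Complex.I) := by
    linear_combination hcmp2 - hcmp1
  have h2πI : (2 * (Real.pi : ℂ) * Complex.I) ≠ 0 := Complex.two_pi_I_ne_zero
  have hint := mul_right_cancel₀ h2πI hfin
  have hint' : m₀ + (j : ℤ) = m₀ + l := by exact_mod_cast hint
  apply hjl
  have : (j : ℤ) = l := by linarith
  exact_mod_cast this

end Pool.Agent.Work.MP_571b65_an_Q2
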