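import Mathlib

/-!
# Small open neighbourhoods of point components
-/

open Filter Topology Metric Set

namespace Pool.Agent.Work.MP_571b65_an_Q2

/-- If the component of `p` in the closed set `C` is `{p}`, there are arbitrarily small open
neighbourhoods of `p` whose frontier misses `C`. -/
theorem exists_open_of_component_eq {C : Set ℂ} (hC : IsClosed C) {p : ℂ}
    (hp : p ∈ C) (hcomp : connectedComponentIn C p = {p}) {r : ℝ} (hr : 0 < r) :
    ∃ N : Set ℂ, IsOpen N ∧ p ∈ N ∧ N ⊆ ball p r ∧ Disjoint (frontier N) C := by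
  set C' : Set ℂ := C ∩ closedBall p (r / 2) with hC'
  have hC'c : IsCompact C' := (isCompact_closedBall p (r / 2)).inter_left hC
  have hp' : p ∈ C' := ⟨hp, mem_closedBall_self (by positivity)⟩
  haveI : CompactSpace C' := isCompact_iff_compactSpace.mp hC'c
  let x : C' := ⟨p, hp'⟩
  have h1 : connectedComponent x = {x} := by
    refine subset_antisymm (fun y hy => ?_) (by
      rw [singleton_subset_iff]; exact mem_connectedComponent)
    have h2 : IsPreconnected (((↑) : C' → ℂ) '' connectedComponent x) :=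
      isPreconnected_connectedComponent.image _ continuous_subtype_val.continuousOn
    have h3 : ((↑) : C' → ℂ) '' connectedComponent x ⊆ connectedComponentIn C p := by
      refine h2.subset_connectedComponentIn (mem_image_of_mem _ mem_connectedComponent) ?_
      rintro _ ⟨y, -, rfl⟩
      exact y.2.1
    have h4 : (y : ℂ) ∈ connectedComponentIn C p := h3 (mem_image_of_mem _ hy)
    rw [hcomp, mem_singleton_iff] at h4
    exact Subtype.ext h4
  rw [connectedComponent_eq_iInter_isClopen] at h1
  have hne : Nonempty { s : Set C' // IsClopen s ∧ x ∈ s } :=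
    ⟨⟨univ, isClopen_univ, mem_univ _⟩⟩
  have hopen : IsOpen {y : C' | (y : ℂ) ∈ ball p (r / 4)} :=
    isOpen_ball.preimage continuous_subtype_val
  have h5 : ∃ s : { s : Set C' // IsClopen s ∧ x ∈ s }, (s : Set C') ⊆ {y : C' | (y : ℂ) ∈ ball p (r / 4)} := by
    refine exists_subset_nhds_of_compactSpace ?_ (fun s => s.2.1.1) ?_
    · intro s t
      refine ⟨⟨s.1 ∩ t.1, s.2.1.inter t.2.1, s.2.2, t.2.2⟩, inter_subset_left, inter_subset_right⟩
    · intro y hy
      rw [h1, mem_singleton_iff] at hy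
      rw [hy]
      exact hopen.mem_nhds (mem_ball_self (by positivity))
  obtain ⟨⟨Z', hZ', hxZ⟩, hZb⟩ := h5
  simp only at hZb
  set Z : Set ℂ := ((↑) : C' → ℂ) '' Z' with hZ
  have hZc : IsCompact Z := hZ'.1.isCompact.image continuous_subtype_val
  have hZball : Z ⊆ ball p (r / 4) := by
    rintro _ ⟨y, hy, rfl⟩
    exact hZb hy
  have hZ2 : IsClosed (((↑) : C' → ℂ) '' Z'ᶜ ∪ C ∩ (ball p (r / 2))ᶜ) := by
    refine IsClosed.union ?_ (hC.inter isOpen_ball.isClosed_compl)
    exact (hZ'.compl.1.isCompact.image continuous_subtype_val).isClosed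
  set D : Set ℂ := ((↑) : C' → ℂ) '' Z'ᶜ ∪ C ∩ (ball p (r / 2))ᶜ with hD
  have hdisj : Disjoint Z D := by
    rw [Set.disjoint_left]
    rintro _ ⟨y, hy, rfl⟩ (⟨y', hy', h⟩ | ⟨-, h⟩)
    · have : y' = y := Subtype.ext h
      rw [this] at hy'
      exact hy' hy
    · exact h (ball_subset_ball (by linarith) (hZb hy))
  have hcover : C ⊆ Z ∪ D := by
    intro y hy
    by_cases hyb : y ∈ ball p (r / 2)
    · have hyC : y ∈ C' := ⟨hy, ball_subset_closedBall hyb⟩
      by_cases hyZ : (⟨y, hyC⟩ : C') ∈ Z'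
      · exact Or.inl ⟨⟨y, hyC⟩, hyZ, rfl⟩
      · exact Or.inr (Or.inl ⟨⟨y, hyC⟩, hyZ, rfl⟩)
    · exact Or.inr (Or.inr ⟨hy, hyb⟩)
  obtain ⟨δ, hδ, hδd⟩ := hdisj.exists_thickenings hZc hZ2
  refine ⟨thickening δ Z ∩ ball p r, isOpen_thickening.inter isOpen_ball, ?_,
    inter_subset_right, ?_⟩
  · refine ⟨self_subset_thickening hδ _ ⟨x, hxZ, rfl⟩, mem_ball_self hr⟩
  · rw [Set.disjoint_left]
    intro y hy hyC
    rcases hcover hyC with h | h
    · have h6 : y ∈ thickening δ Z ∩ ball p r :=
        ⟨self_subset_thickening hδ _ h, ball_subset_ball (by linarith) (hZball h)⟩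
      rw [(isOpen_thickening.inter isOpen_ball).frontier_eq] at hy
      exact hy.2 h6
    · have h7 : y ∈ closure (thickening δ Z) :=
        closure_mono inter_subset_left (frontier_subset_closure hy)
      have h8 : Disjoint (closure (thickening δ Z)) (thickening δ D) :=
        hδd.closure_left isOpen_thickening
      exact Set.disjoint_left.mp h8 h7 (self_subset_thickening hδ _ h)

/-- Pull-back of a nondegenerate connected closed set by an open continuous map is nondegenerate
at every point. -/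
theorem component_preimage_ne {h : ℂ → ℂ} (hc : Continuous h) (ho : IsOpenMap h) {Y C : Set ℂ}
    (hYc : IsClosed Y) (hY : IsPreconnected Y) {p y : ℂ} (hp : h p ∈ Y) (hy : y ∈ Y)
    (hne : y ≠ h p) (hC : IsClosed C) (hYC : h ⁻¹' Y ⊆ C) :
    connectedComponentIn C p ≠ {p} := by
  intro hcomp
  have h1 : ∀ᶠ z in 𝓝 p, h z ≠ y := hc.continuousAt.eventually_ne hne.symm
  obtain ⟨r, hr, hrb⟩ := Metric.eventually_nhds_iff_ball.mp h1
  obtain ⟨N, hNo, hpN, hNb, hNf⟩ := exists_open_of_component_eq hC (hYC hp) hcomp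
    (half_pos hr)
  have hNc : IsCompact (closure N) :=
    (isCompact_closedBall p (r / 2)).of_isClosed_subset isClosed_closure
      (closure_minimal (hNb.trans ball_subset_closedBall) isClosed_closedBall)
  have h2 : Y ⊆ h '' N := by
    refine hY.subset_of_closure_inter_subset (ho N hNo) ⟨h p, hp, mem_image_of_mem h hpN⟩ ?_
    rintro w ⟨hw1, hw2⟩
    have h3 : closure (h '' N) ⊆ h '' closure N :=
      closure_minimal (image_mono subset_closure) (hNc.image hc).isClosed
    obtain ⟨v, hv, rfl⟩ := h3 hw1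
    refine mem_image_of_mem h ?_
    by_contra hvN
    refine Set.disjoint_left.mp hNf ?_ (hYC hw2)
    rw [hNo.frontier_eq]
    exact ⟨hv, hvN⟩
  obtain ⟨v, hv, hvy⟩ := h2 hy
  exact hrb v (ball_subset_ball (by linarith) (hNb hv)) hvy

end Pool.Agent.Work.MP_571b65_an_Q2
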