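import Mathlib
import Pool.Agent.Work.MP_571b65_an_Q2.Cross
import Pool.Agent.Work.MP_571b65_an_Q2.TopQ

/-!
# The level sets of a system
-/

open Filter Topology Metric Set

namespace Pool.Agent.Work.MP_571b65_an_Q2

/-- Points staying in the discs for `n` steps. -/
def Aset (f : ℂ → ℂ) (ρ : ℕ → ℝ) (m n : ℕ) : Set ℂ := {z | ∀ j ≤ n, ‖f^[j] z‖ < 9 * ρ (m + j)}

variable {f : ℂ → ℂ} {ρ R H : ℕ → ℝ}

namespace Sys

theorem pos (hS : Sys f ρ R H) (n : ℕ) : 0 < ρ n := by linarith [hS.one_le n]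

theorem isOpenMap (hS : Sys f ρ R H) : IsOpenMap f := by
  have h : AnalyticOnNhd ℂ f univ := fun z _ => hS.diff.analyticAt z
  refine h.is_constant_or_isOpenMap.resolve_left ?_
  rintro ⟨c, hc⟩
  have hρ := hS.pos 0
  have h1 := hS.big_ring 0 (2 * ρ 0 : ℝ) (by
    rw [Complex.norm_real, Real.norm_eq_abs, abs_of_pos (by positivity)])
  rw [hc, ← hc 0, hS.zero, norm_zero] at h1
  linarith [hS.pos (0 + 1)]

theorem iterate_diff (hS : Sys f ρ R H) (n : ℕ) : Differentiable ℂ f^[n] := hS.diff.iterate n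

theorem iterate_open (hS : Sys f ρ R H) (n : ℕ) : IsOpenMap f^[n] := by
  induction n with
  | zero => exact IsOpenMap.id
  | succ n ih => rw [Function.iterate_succ']; exact hS.isOpenMap.comp ih

theorem iterate_zero (hS : Sys f ρ R H) (n : ℕ) : f^[n] 0 = 0 :=
  Function.iterate_fixed hS.zero n

/-- orbits of the annulus `8 ρ n ≤ |w| ≤ ρ (n+1)/2` -/
theorem out (hS : Sys f ρ R H) {n : ℕ} {w : ℂ} (h1 : 8 * ρ n ≤ ‖w‖) (h2 : ‖w‖ ≤ ρ (n + 1) / 2)
    (j : ℕ) : 9 * ρ (n + (j + 1)) < ‖f^[j + 1] w‖ ∧ ‖f^[j + 1] w‖ < ρ (n + (j + 1) + 1) / 2 := by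
  induction j with
  | zero => exact ⟨hS.big_out n w h1 h2, hS.le_out n w h2⟩
  | succ j ih =>
    rw [Function.iterate_succ_apply' f (j + 1)]
    have hρ := hS.pos (n + (j + 1))
    exact ⟨hS.big_out (n + (j + 1)) _ (by linarith [ih.1]) ih.2.le,
      hS.le_out (n + (j + 1)) _ ih.2.le⟩

theorem nine_le (hS : Sys f ρ R H) (n : ℕ) : 9 * ρ n ≤ ρ (n + 1) / 2 := by
  linarith [hS.step n, hS.pos n]

/-- An orbit staying in the closed discs up to time `n` with the last point in the open disc is in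
the open discs. -/
theorem mem_Aset_of_le (hS : Sys f ρ R H) {m n : ℕ} {z : ℂ}
    (h1 : ∀ j ≤ n, ‖f^[j] z‖ ≤ 9 * ρ (m + j)) (h2 : ‖f^[n] z‖ < 9 * ρ (m + n)) :
    z ∈ Aset f ρ m n := by
  intro j hj
  rcases (h1 j hj).lt_or_eq with h3 | h3
  · exact h3
  · exfalso
    rcases hj.lt_or_eq with h4 | h4
    · obtain ⟨i, rfl⟩ : ∃ i, n = j + (i + 1) := ⟨n - j - 1, by omega⟩
      have hρ := hS.pos (m + j)
      have h5 := (hS.out (n := m + j) (w := f^[j] z) (by linarith)
        (by rw [h3]; exact hS.nine_le _) i).1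
      rw [← Function.iterate_add_apply, show i + 1 + j = j + (i + 1) by ring, add_assoc] at h5
      linarith
    · rw [h4] at h3
      linarith

theorem isOpen_Aset (hS : Sys f ρ R H) (m n : ℕ) : IsOpen (Aset f ρ m n) := by
  have h1 : Aset f ρ m n = ⋂ j ∈ Finset.range (n + 1), {z | ‖f^[j] z‖ < 9 * ρ (m + j)} := by
    ext z
    simp [Aset]
  rw [h1]
  exact isOpen_biInter_finset fun j _ =>
    isOpen_lt (hS.iterate_diff j).continuous.norm continuous_const

theorem Aset_subset_ball (_hS : Sys f ρ R H) {m n : ℕ} {z : ℂ} (hz : z ∈ Aset f ρ m n) :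
    ‖z‖ < 9 * ρ m := by
  have := hz 0 (Nat.zero_le _)
  simpa using this

/-- Components of the level sets are proper over the discs. -/
theorem pl (hS : Sys f ρ R H) (m n : ℕ) {z : ℂ} (hz : z ∈ Aset f ρ m n) :
    PL f^[n] (connectedComponentIn (Aset f ρ m n) z) (9 * ρ (m + n)) where
  diff := hS.iterate_diff n
  openMap := hS.iterate_open n
  isOpen := (hS.isOpen_Aset m n).connectedComponentIn
  preconn := isPreconnected_connectedComponentIn
  lt := fun w hw => connectedComponentIn_subset _ _ hw n le_rfl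
  cpt := by
    intro s hs
    have hb : Bornology.IsBounded {w | w ∈ connectedComponentIn (Aset f ρ m n) z ∧ ‖f^[n] w‖ ≤ s} := by
      refine (isBounded_ball (x := (0 : ℂ)) (r := 9 * ρ m)).subset fun w hw => ?_
      exact mem_ball_zero_iff.mpr (hS.Aset_subset_ball (connectedComponentIn_subset _ _ hw.1))
    refine Metric.isCompact_of_isClosed_isBounded ?_ hb
    refine isClosed_of_closure_subset fun w hw => ?_
    have h1 : ∀ j ≤ n, ‖f^[j] w‖ ≤ 9 * ρ (m + j) := by
      intro j hj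
      have hcl : IsClosed {w | ‖f^[j] w‖ ≤ 9 * ρ (m + j)} :=
        isClosed_le (hS.iterate_diff j).continuous.norm continuous_const
      exact closure_minimal (fun u hu => (connectedComponentIn_subset _ _ hu.1 j hj).le) hcl hw
    have h2 : ‖f^[n] w‖ ≤ s := by
      have hcl : IsClosed {w | ‖f^[n] w‖ ≤ s} :=
        isClosed_le (hS.iterate_diff n).continuous.norm continuous_const
      exact closure_minimal (fun u hu => hu.2) hcl hw
    have h3 : w ∈ Aset f ρ m n := hS.mem_Aset_of_le h1 (h2.trans_lt hs)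
    exact ⟨mem_component_of_mem_closure hz (closure_mono (fun u hu => hu.1) hw) h3, h2⟩

/-- Components of the level sets have no holes. -/
theorem fill (hS : Sys f ρ R H) (m n : ℕ) {z : ℂ} (_hz : z ∈ Aset f ρ m n) :
    ∀ Λ ⊆ connectedComponentIn (Aset f ρ m n) z, IsCompact Λ → ∀ a ∉ Λ,
      Bornology.IsBounded (connectedComponentIn Λᶜ a) → a ∈ connectedComponentIn (Aset f ρ m n) z := by
  intro Λ hΛ hΛc a ha hb
  set Ω := connectedComponentIn Λᶜ a with hΩ
  have hΩo : IsOpen Ω := hΛc.isClosed.isOpen_compl.connectedComponentIn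
  have haΩ : a ∈ Ω := mem_connectedComponentIn ha
  have hfr : frontier Ω ⊆ Λ := by
    intro w hw
    by_contra hwΛ
    rw [hΩo.frontier_eq] at hw
    exact hw.2 (mem_component_of_mem_closure ha hw.1 hwΛ)
  have hfrne : (frontier Ω).Nonempty := by
    rw [nonempty_frontier_iff]
    refine ⟨⟨a, haΩ⟩, fun h => ?_⟩
    rw [h] at hb
    exact NormedSpace.unbounded_univ ℝ ℂ hb
  have hΩA : Ω ⊆ Aset f ρ m n := by
    intro w hw j hj
    have hne : Λ.Nonempty := hfrne.mono hfr
    obtain ⟨u, hu, hmax⟩ := hΛc.exists_isMaxOn hne (hS.iterate_diff j).continuous.norm.continuousOn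
    have h1 := Complex.norm_le_of_forall_mem_frontier_norm_le hb (hS.iterate_diff j).diffContOnCl
      (fun v hv => hmax (hfr hv)) (subset_closure hw)
    exact h1.trans_lt (connectedComponentIn_subset _ _ (hΛ hu) j hj)
  obtain ⟨u, hu⟩ := hfrne
  have h1 : closure Ω ⊆ Aset f ρ m n := by
    intro w hw
    by_cases hwΩ : w ∈ Ω
    · exact hΩA hwΩ
    · have : w ∈ frontier Ω := by rw [hΩo.frontier_eq]; exact ⟨hw, hwΩ⟩
      exact connectedComponentIn_subset _ _ (hΛ (hfr this))
  have h2 : IsPreconnected (closure Ω) := isPreconnected_connectedComponentIn.closure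
  have h3 := h2.subset_connectedComponentIn (frontier_subset_closure hu) h1
  rw [connectedComponentIn_eq (hΛ (hfr hu))]
  exact h3 (subset_closure haΩ)

theorem deriv_iterate_ne (hS : Sys f ρ R H) (m n : ℕ) {z : ℂ} (hz : z ∈ Aset f ρ m n)
    (hρ : ρ (m + n) ≤ ‖f^[n] z‖) : deriv f^[n] z ≠ 0 := by
  induction n with
  | zero => simp
  | succ n ih =>
    have hz' : z ∈ Aset f ρ m n := fun j hj => hz j (hj.trans (Nat.le_succ n))
    have h1 : ‖f^[n] z‖ < 9 * ρ (m + n) := hz n (Nat.le_succ n)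
    have h2 : ‖f (f^[n] z)‖ < 9 * ρ (m + n + 1) := by
      have := hz (n + 1) le_rfl
      rwa [Function.iterate_succ_apply'] at this
    rw [Function.iterate_succ_apply'] at hρ
    have h3 : ρ (m + n) ≤ ‖f^[n] z‖ := by
      by_contra hlt
      push Not at hlt
      have := hS.small_disc (m + n) _ hlt.le
      exact absurd hρ (not_le.mpr this)
    have h4 := ih hz' h3
    have h5 := hS.deriv_ne (m + n) _ h1 hρ h2
    have h6 : deriv f^[n + 1] z = deriv f (f^[n] z) * deriv f^[n] z := by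
      rw [Function.iterate_succ']
      exact deriv_comp z (hS.diff _) (hS.iterate_diff n z)
    rw [h6]
    exact mul_ne_zero h5 h4

theorem isPreconnected_sub (hS : Sys f ρ R H) (m n : ℕ) {z : ℂ} (hz : z ∈ Aset f ρ m n) {s : ℝ}
    (hs : ρ (m + n) ≤ s) (hs' : s ≤ 9 * ρ (m + n)) :
    IsPreconnected {w | w ∈ connectedComponentIn (Aset f ρ m n) z ∧ ‖f^[n] w‖ < s} :=
  (hS.pl m n hz).isPreconnected_sub (hS.pos _)
    (fun _ hw h => hS.deriv_iterate_ne m n (connectedComponentIn_subset _ _ hw) h) hs hs'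

/-- Every component of every level set meets the half plane `Re (c z) < - ρ m / 2`. -/
theorem cross (hS : Sys f ρ R H) (m n : ℕ) {c : ℂ} (hc : ‖c‖ = 1) {z₀ : ℂ}
    (hz₀ : z₀ ∈ Aset f ρ m n) : ∃ q ∈ connectedComponentIn (Aset f ρ m n) z₀,
      ‖f^[n] q‖ < ρ (m + n) ∧ (c * q).re < -(ρ m / 2) := by
  induction n generalizing z₀ with
  | zero =>
    have hρ := hS.pos m
    have hA : Aset f ρ m 0 = ball 0 (9 * ρ m) := by
      ext z
      simp [Aset]
    have hq : ‖-((3 / 4 * ρ m : ℝ) : ℂ) * (starRingEnd ℂ) c‖ = 3 / 4 * ρ m := by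
      rw [norm_mul, norm_neg, Complex.norm_conj, hc, mul_one, Complex.norm_real, Real.norm_eq_abs,
        abs_of_pos (by positivity)]
    refine ⟨-((3 / 4 * ρ m : ℝ) : ℂ) * (starRingEnd ℂ) c, ?_, ?_, ?_⟩
    · rw [hA] at hz₀ ⊢
      have h1 : IsPreconnected (ball (0 : ℂ) (9 * ρ m)) := (convex_ball _ _).isPreconnected
      refine h1.subset_connectedComponentIn hz₀ subset_rfl ?_
      rw [mem_ball_zero_iff, hq]
      linarith
    · simp only [Function.iterate_zero, id_eq, add_zero]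
      rw [hq]
      linarith
    · have h1 : c * (-((3 / 4 * ρ m : ℝ) : ℂ) * (starRingEnd ℂ) c) =
          ((-(3 / 4 * ρ m) : ℝ) : ℂ) * (c * (starRingEnd ℂ) c) := by push_cast; ring
      rw [h1, Complex.mul_conj, Complex.normSq_eq_norm_sq, hc]
      simp only [one_pow, Complex.ofReal_one, mul_one, Complex.ofReal_re]
      linarith
  | succ n ih =>
    have hsubA : Aset f ρ m (n + 1) ⊆ Aset f ρ m n := fun z hz j hj => hz j (hj.trans (Nat.le_succ n))
    have hz₀' : z₀ ∈ Aset f ρ m n := hsubA hz₀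
    have hρ := hS.pos (m + n)
    have hρ' := hS.pos (m + n + 1)
    set X := connectedComponentIn (Aset f ρ m n) z₀ with hX
    set Y := connectedComponentIn (Aset f ρ m (n + 1)) z₀ with hY
    have hYX : Y ⊆ X := connectedComponentIn_mono _ hsubA
    have hPLX := hS.pl m n hz₀'
    have hPLY := hS.pl m (n + 1) hz₀
    -- a zero of `f^[n+1]` in `Y`
    obtain ⟨z₁, hz₁Y, hz₁⟩ : ∃ z₁ ∈ Y, f^[n + 1] z₁ = 0 := by
      have h1 := hPLY.exists_zero (s := 9 * ρ (m + (n + 1))) (by linarith [hS.pos (m + (n + 1))]) le_rfl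
        (z := z₀) ⟨mem_connectedComponentIn hz₀, hz₀ (n + 1) le_rfl⟩
      obtain ⟨a, ha, ha0⟩ := h1
      exact ⟨a, (connectedComponentIn_subset _ _ ha).1, ha0⟩
    have hz₁X : z₁ ∈ X := hYX hz₁Y
    have hz₁A : z₁ ∈ Aset f ρ m (n + 1) := connectedComponentIn_subset _ _ hz₁Y
    rw [Function.iterate_succ_apply'] at hz₁
    have hw₁ : ‖f^[n] z₁‖ < 9 * ρ (m + n) := hz₁A n (Nat.le_succ n)
    obtain ⟨C, hCc, hw₁C, hC, hCalt⟩ := hS.zeros (m + n) _ hw₁ hz₁
    set G : Set ℂ := {w | ‖w‖ < 9 * ρ (m + n) ∧ ‖f w‖ < ρ (m + n + 1)} with hG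
    have hGo : IsOpen G := (isOpen_lt continuous_norm continuous_const).inter
      (isOpen_lt hS.diff.continuous.norm continuous_const)
    have hw₁G : f^[n] z₁ ∈ G := hC _ hw₁C
    set Δ := connectedComponentIn G (f^[n] z₁) with hΔ
    have hΔo : IsOpen Δ := hGo.connectedComponentIn
    have hΔp : IsPreconnected Δ := isPreconnected_connectedComponentIn
    have hΔG : Δ ⊆ G := connectedComponentIn_subset _ _
    have hw₁Δ : f^[n] z₁ ∈ Δ := mem_connectedComponentIn hw₁G
    have hCΔ : C ⊆ Δ := hCc.subset_connectedComponentIn hw₁C hC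
    set O := connectedComponentIn (X ∩ f^[n] ⁻¹' Δ) z₁ with hO
    have hOF : O ⊆ X ∩ f^[n] ⁻¹' Δ := connectedComponentIn_subset _ _
    have hOA : O ⊆ Aset f ρ m (n + 1) := by
      intro w hw j hj
      rcases hj.lt_or_eq with h1 | h1
      · exact connectedComponentIn_subset _ _ (hOF hw).1 j (Nat.lt_succ_iff.mp h1)
      · rw [h1, Function.iterate_succ_apply', ← add_assoc]
        have := (hΔG (hOF hw).2).2
        linarith
    have hz₁O : z₁ ∈ O := mem_connectedComponentIn ⟨hz₁X, hw₁Δ⟩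
    have hOY : O ⊆ Y := by
      have h1 : O ⊆ connectedComponentIn (Aset f ρ m (n + 1)) z₁ :=
        isPreconnected_connectedComponentIn.subset_connectedComponentIn hz₁O hOA
      rwa [← connectedComponentIn_eq hz₁Y] at h1
    have hlast : ∀ w ∈ O, ‖f^[n + 1] w‖ < ρ (m + (n + 1)) := by
      intro w hw
      rw [Function.iterate_succ_apply', ← add_assoc]
      exact (hΔG (hOF hw).2).2
    obtain ⟨q, hqX, hqn, hqc⟩ := ih hz₀'
    suffices hsuff : ∃ q' ∈ O, (c * q').re < -(ρ m / 2) by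
      obtain ⟨q', hq'O, hq'c⟩ := hsuff
      exact ⟨q', hOY hq'O, hlast q' hq'O, hq'c⟩
    rcases hCalt with ⟨w, hwC, hwρ⟩ | ⟨x, hx, hxC⟩
    · -- central case
      have hball : closedBall (0 : ℂ) (ρ (m + n)) ⊆ Δ := by
        have h1 : IsPreconnected (closedBall (0 : ℂ) (ρ (m + n))) :=
          (convex_closedBall _ _).isPreconnected
        have h2 : closedBall (0 : ℂ) (ρ (m + n)) ⊆ G := by
          intro u hu
          rw [mem_closedBall_zero_iff] at hu
          exact ⟨by linarith, hS.small_disc _ _ hu⟩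
        have h3 := h1.subset_connectedComponentIn (mem_closedBall_zero_iff.mpr hwρ) h2
        rwa [← connectedComponentIn_eq (hCΔ hwC)] at h3
      obtain ⟨z₂, hz₂O, hz₂⟩ := hPLX.subset_image hΔo hΔp (fun w hw => (hΔG hw).1) hz₁X hw₁Δ
        (hball (mem_closedBall_self hρ.le))
      have h1 : IsPreconnected {w | w ∈ X ∧ ‖f^[n] w‖ < ρ (m + n)} :=
        hS.isPreconnected_sub m n hz₀' le_rfl (by linarith)
      have h2 : {w | w ∈ X ∧ ‖f^[n] w‖ < ρ (m + n)} ⊆ X ∩ f^[n] ⁻¹' Δ := by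
        intro w hw
        exact ⟨hw.1, hball (mem_closedBall_zero_iff.mpr hw.2.le)⟩
      have h3 : z₂ ∈ {w | w ∈ X ∧ ‖f^[n] w‖ < ρ (m + n)} :=
        ⟨(hOF hz₂O).1, by rw [hz₂, norm_zero]; exact hρ⟩
      have h4 := h1.subset_connectedComponentIn h3 h2
      rw [← connectedComponentIn_eq hz₂O] at h4
      exact ⟨q, h4 ⟨hqX, hqn⟩, hqc⟩
    · -- spiral case
      have hsp : ∀ x ∈ Icc (3 : ℝ) 7, (ρ (m + n) : ℂ) * spi (H (m + n)) x ∈ Δ := by
        set S : Set ℂ := (fun x : ℝ => (ρ (m + n) : ℂ) * spi (H (m + n)) x) '' Icc 3 7 with hSdef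
        have h1 : IsPreconnected S :=
          isPreconnected_Icc.image _ (continuous_const.mul (continuous_spi _)).continuousOn
        have h2 : S ⊆ G := by
          rintro _ ⟨u, hu, rfl⟩
          refine ⟨?_, hS.spiral _ u hu⟩
          rw [norm_mul, norm_spi (by linarith [hu.1]), Complex.norm_real, Real.norm_eq_abs,
            abs_of_pos hρ]
          nlinarith [hu.2]
        have h3 := h1.subset_connectedComponentIn (mem_image_of_mem _ hx) h2
        rw [← connectedComponentIn_eq (hCΔ hxC)] at h3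
        intro u hu
        exact h3 (mem_image_of_mem _ hu)
      refine crossing (r₀ := 9 * ρ m) (R := R (m + n)) (H := H (m + n)) hPLX hρ (hS.iterate_zero n)
        (fun w hw => hS.Aset_subset_ball (connectedComponentIn_subset _ _ hw)) ?_
        (hS.fill m n hz₀') ?_ hΔo hΔp (fun w hw => (hΔG hw).1) hsp hz₁X hw₁Δ hc hqX (by linarith)
        hqc (hS.turns _)
      · intro z hz
        have := hS.bound m (m + n) z (Nat.le_add_right m n) (by linarith)
        rwa [Nat.add_sub_cancel_left] at this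
      · exact hS.isPreconnected_sub m n hz₀' (by linarith) (by linarith)

end Sys

end Pool.Agent.Work.MP_571b65_an_Q2
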