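import Mathlib
import Pool.Agent.Work.MP_571b65_an_Q2.Levels
import Pool.Agent.Work.MP_571b65_an.Topo

/-!
# The sets of points staying in the discs
-/

open Filter Topology Metric Set

namespace Pool.Agent.Work.MP_571b65_an_Q2

variable {f : ℂ → ℂ} {ρ R H : ℕ → ℝ}

namespace Sys

theorem Kset_eq (hS : Sys f ρ R H) (m : ℕ) :
    Kset f ρ m = ⋂ n : ℕ, {z | ∀ j ≤ n, ‖f^[j] z‖ ≤ 9 * ρ (m + j)} := by
  ext z
  simp only [mem_iInter, mem_ofPred_eq]
  constructor
  · intro hz n j _
    exact (hz j).le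
  · intro hz j
    rcases (hz j j le_rfl).lt_or_eq with h | h
    · exact h
    · exfalso
      have hρ := hS.pos (m + j)
      have h1 := (hS.out (n := m + j) (w := f^[j] z) (by linarith)
        (by rw [h]; exact hS.nine_le _) 0).1
      have h2 := hz (j + 1) (j + 1) le_rfl
      rw [zero_add, ← Function.iterate_add_apply, add_comm 1 j, add_assoc] at h1
      linarith

theorem isClosed_le_set (hS : Sys f ρ R H) (m n : ℕ) :
    IsClosed {z | ∀ j ≤ n, ‖f^[j] z‖ ≤ 9 * ρ (m + j)} := by
  have h1 : {z | ∀ j ≤ n, ‖f^[j] z‖ ≤ 9 * ρ (m + j)} =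
      ⋂ j ∈ Finset.range (n + 1), {z | ‖f^[j] z‖ ≤ 9 * ρ (m + j)} := by
    ext z
    simp
  rw [h1]
  exact isClosed_biInter fun j _ =>
    isClosed_le (hS.iterate_diff j).continuous.norm continuous_const

theorem isClosed_Kset (hS : Sys f ρ R H) (m : ℕ) : IsClosed (Kset f ρ m) := by
  rw [hS.Kset_eq m]
  exact isClosed_iInter fun n => hS.isClosed_le_set m n

theorem Kset_subset_Aset (_hS : Sys f ρ R H) (m n : ℕ) : Kset f ρ m ⊆ Aset f ρ m n :=
  fun _ hz j _ => hz j

/-- The components of `K m` are nondegenerate. -/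
theorem K_nontrivial (hS : Sys f ρ R H) (m : ℕ) {p : ℂ} (hp : p ∈ Kset f ρ m) :
    connectedComponentIn (Kset f ρ m) p ≠ {p} := by
  intro hcomp
  have hρ := hS.pos m
  obtain ⟨N, hNo, hpN, hNb, hNf⟩ := exists_open_of_component_eq (hS.isClosed_Kset m) hp hcomp
    (r := ρ m / 2) (by positivity)
  have hfc : IsCompact (frontier N) := by
    refine Metric.isCompact_of_isClosed_isBounded isClosed_frontier ?_
    refine (isBounded_closedBall (x := p) (r := ρ m / 2)).subset (frontier_subset_closure.trans ?_)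
    exact closure_minimal (hNb.trans ball_subset_closedBall) isClosed_closedBall
  have hinter : frontier N ∩ ⋂ n : ℕ, {z | ∀ j ≤ n, ‖f^[j] z‖ ≤ 9 * ρ (m + j)} = ∅ := by
    rw [← hS.Kset_eq m]
    exact hNf.inter_eq
  obtain ⟨n, hn⟩ := hfc.elim_directed_family_closed _ (fun n => hS.isClosed_le_set m n) hinter (by
    intro a b
    refine ⟨max a b, ?_, ?_⟩
    · intro z hz j hj
      exact hz j (hj.trans (le_max_left _ _))
    · intro z hz j hj
      exact hz j (hj.trans (le_max_right _ _)))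
  have hpA : p ∈ Aset f ρ m n := hS.Kset_subset_Aset m n hp
  have hXN : connectedComponentIn (Aset f ρ m n) p ⊆ N := by
    refine MP_571b65_an.subset_of_disjoint_frontier isPreconnected_connectedComponentIn hNo ?_
      ⟨p, mem_connectedComponentIn hpA, hpN⟩
    rw [Set.disjoint_left]
    intro z hz hzf
    have h1 : z ∈ frontier N ∩ {z | ∀ j ≤ n, ‖f^[j] z‖ ≤ 9 * ρ (m + j)} :=
      ⟨hzf, fun j hj => (connectedComponentIn_subset _ _ hz j hj).le⟩
    rw [hn] at h1
    exact h1
  obtain ⟨q, hqX, -, hq⟩ := hS.cross m n (c := 1) (by simp) hpA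
  obtain ⟨q', hq'X, -, hq'⟩ := hS.cross m n (c := -1) (by simp) hpA
  have h1 := hNb (hXN hqX)
  have h2 := hNb (hXN hq'X)
  rw [mem_ball_iff_norm] at h1 h2
  have h3 : ‖q' - q‖ < ρ m := by
    calc ‖q' - q‖ = ‖(q' - p) - (q - p)‖ := by congr 1; ring
      _ ≤ ‖q' - p‖ + ‖q - p‖ := norm_sub_le _ _
      _ < ρ m := by linarith
  have h4 := (Complex.re_le_norm (q' - q))
  simp only [one_mul, neg_mul, Complex.neg_re, Complex.sub_re] at hq hq' h4
  linarith

/-- Connected sets staying in the discs do not cross the ring `|w| = 2 ρ k`. -/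
theorem ring_lt (hS : Sys f ρ R H) {C : Set ℂ} (hC : IsPreconnected C) {j k : ℕ}
    (hCA : ∀ z ∈ C, ‖f^[j + 1] z‖ < 9 * ρ (k + 1)) {z₀ z : ℂ} (hz₀ : z₀ ∈ C) (hz : z ∈ C)
    (h : ‖f^[j] z₀‖ < 2 * ρ k) : ‖f^[j] z‖ < 2 * ρ k := by
  by_contra hcon
  push Not at hcon
  have hc : ContinuousOn (fun z => ‖f^[j] z‖) C := (hS.iterate_diff j).continuous.norm.continuousOn
  obtain ⟨w, hw, hwe⟩ := hC.intermediate_value hz₀ hz hc ⟨h.le, hcon⟩
  have h1 := hS.big_ring k _ hwe
  have h2 := hCA w hw
  rw [Function.iterate_succ_apply'] at h2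
  linarith

theorem ring_gt (hS : Sys f ρ R H) {C : Set ℂ} (hC : IsPreconnected C) {j k : ℕ}
    (hCA : ∀ z ∈ C, ‖f^[j + 1] z‖ < 9 * ρ (k + 1)) {z₀ z : ℂ} (hz₀ : z₀ ∈ C) (hz : z ∈ C)
    (h : 2 * ρ k < ‖f^[j] z₀‖) : 2 * ρ k < ‖f^[j] z‖ := by
  by_contra hcon
  push Not at hcon
  have hc : ContinuousOn (fun z => ‖f^[j] z‖) C := (hS.iterate_diff j).continuous.norm.continuousOn
  obtain ⟨w, hw, hwe⟩ := hC.intermediate_value hz hz₀ hc ⟨hcon, h.le⟩
  have h1 := hS.big_ring k _ hwe
  have h2 := hCA w hw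
  rw [Function.iterate_succ_apply'] at h2
  linarith

/-- There is a zero of `f` in the outer part of every disc. -/
theorem exists_outer_zero (hS : Sys f ρ R H) (k : ℕ) :
    ∃ b : ℂ, ‖b‖ < 9 * ρ k ∧ 2 * ρ k < ‖b‖ ∧ f b = 0 := by
  have hρ := hS.pos k
  set a : ℂ := ρ k * spi (H k) 7 with ha
  have han : ‖a‖ = 7 * ρ k := by
    rw [ha, norm_mul, norm_spi (by norm_num), Complex.norm_real, Real.norm_eq_abs, abs_of_pos hρ]
    ring
  have haA : a ∈ Aset f ρ k 1 := by
    intro j hj
    rcases Nat.le_one_iff_eq_zero_or_eq_one.mp hj with rfl | rfl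
    · simp only [Function.iterate_zero, id_eq, add_zero]
      linarith
    · have h1 := hS.spiral k 7 ⟨by norm_num, le_rfl⟩
      have h2 := hS.pos (k + 1)
      simp only [Function.iterate_one]
      linarith
  obtain ⟨b, hb, hb0⟩ := (hS.pl k 1 haA).exists_zero (s := 9 * ρ (k + 1))
    (by linarith [hS.pos (k + 1)]) le_rfl (z := a) ⟨mem_connectedComponentIn haA, haA 1 le_rfl⟩
  have hbX := (connectedComponentIn_subset _ _ hb).1
  have hbA : b ∈ Aset f ρ k 1 := connectedComponentIn_subset _ _ hbX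
  refine ⟨b, hS.Aset_subset_ball hbA, ?_, by simpa using hb0⟩
  have h1 := hS.ring_gt (C := connectedComponentIn (Aset f ρ k 1) a) (j := 0) (k := k)
    isPreconnected_connectedComponentIn
    (fun z hz => connectedComponentIn_subset _ _ hz 1 le_rfl) (mem_connectedComponentIn haA) hbX
    (by simp only [Function.iterate_zero, id_eq]; linarith)
  simpa using h1

/-- `K m` has infinitely many components. -/
theorem K_infinite (hS : Sys f ρ R H) (m : ℕ) :
    {C | ∃ p ∈ Kset f ρ m, C = connectedComponentIn (Kset f ρ m) p}.Infinite := by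
  -- the points
  have hex : ∀ l : ℕ, ∃ a ∈ Kset f ρ m, (∀ j < l, ‖f^[j] a‖ < 2 * ρ (m + j)) ∧
      2 * ρ (m + l) < ‖f^[l] a‖ := by
    intro l
    obtain ⟨b, hb1, hb2, hb3⟩ := hS.exists_outer_zero (m + l)
    have h0A : (0 : ℂ) ∈ Aset f ρ m l := by
      intro j _
      rw [hS.iterate_zero, norm_zero]
      linarith [hS.pos (m + j)]
    have h1 := (hS.pl m l h0A).subset_image (Δ := ball 0 (9 * ρ (m + l))) isOpen_ball
      (convex_ball _ _).isPreconnected (fun w hw => mem_ball_zero_iff.mp hw)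
      (mem_connectedComponentIn h0A) (by
        rw [hS.iterate_zero]; exact mem_ball_self (by linarith [hS.pos (m + l)]))
    obtain ⟨a, ha, hab⟩ := h1 (mem_ball_zero_iff.mpr hb1)
    have haX := (connectedComponentIn_subset _ _ ha).1
    have haA : a ∈ Aset f ρ m l := connectedComponentIn_subset _ _ haX
    refine ⟨a, ?_, ?_, by rw [hab]; exact hb2⟩
    · intro j
      rcases le_or_gt j l with hj | hj
      · exact haA j hj
      · obtain ⟨i, rfl⟩ : ∃ i, j = i + (1 + l) := ⟨j - (1 + l), by omega⟩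
        rw [Function.iterate_add_apply, Function.iterate_add_apply f 1 l, hab,
          Function.iterate_one, hb3, hS.iterate_zero, norm_zero]
        linarith [hS.pos (m + (i + (1 + l)))]
    · intro j hj
      refine hS.ring_lt (C := connectedComponentIn (Aset f ρ m l) 0) (k := m + j)
        isPreconnected_connectedComponentIn (fun z hz => ?_) (mem_connectedComponentIn h0A) haX ?_
      · have := connectedComponentIn_subset _ _ hz (j + 1) hj
        rwa [← add_assoc] at this
      · rw [hS.iterate_zero, norm_zero]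
        linarith [hS.pos (m + j)]
  choose a haK hacen haout using hex
  have hlt : ∀ k l, k < l → connectedComponentIn (Kset f ρ m) (a k) ≠
      connectedComponentIn (Kset f ρ m) (a l) := by
    intro k l hkl heq
    have h1 : a k ∈ connectedComponentIn (Kset f ρ m) (a l) := by
      rw [← heq]; exact mem_connectedComponentIn (haK k)
    have h2 := hS.ring_lt (C := connectedComponentIn (Kset f ρ m) (a l)) (j := k) (k := m + k)
      isPreconnected_connectedComponentIn
      (fun z hz => by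
        have := connectedComponentIn_subset _ _ hz (k + 1)
        rwa [← add_assoc] at this) (mem_connectedComponentIn (haK l)) h1 (hacen l k hkl)
    linarith [haout k]
  refine Set.infinite_of_injective_forall_mem
    (f := fun l : ℕ => connectedComponentIn (Kset f ρ m) (a l)) ?_ (fun l => ⟨a l, haK l, rfl⟩)
  intro k l hkl
  rcases lt_trichotomy k l with h | h | h
  · exact absurd hkl (hlt k l h)
  · exact h
  · exact absurd hkl.symm (hlt l k h)

end Sys

end Pool.Agent.Work.MP_571b65_an_Q2
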