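import Mathlib
import Pool.Agent.Work.MP_571b65_an_Q2.KSets
import Pool.Agent.Work.MP_571b65_an.Harnack

/-!
# The Fatou components of a system
-/

open Filter Topology Metric Set

namespace Pool.Agent.Work.MP_571b65_an_Q2

open MP_571b65_an

/-- the absorbing annuli -/
def Bset (ρ : ℕ → ℝ) (n : ℕ) : Set ℂ := {z | 8 * ρ n ≤ ‖z‖ ∧ ‖z‖ ≤ ρ (n + 1) / 2}

/-- the Fatou components -/
def Uset (f : ℂ → ℂ) (ρ : ℕ → ℝ) (n : ℕ) : Set ℂ :=
  connectedComponentIn (fatouSet f) ((8 * ρ n : ℝ) : ℂ)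

variable {f : ℂ → ℂ} {ρ R H : ℕ → ℝ}

theorem mem_fatouSet_of_iterate (hf : Continuous f) {z : ℂ} (j : ℕ) (h : f^[j] z ∈ fatouSet f) :
    z ∈ fatouSet f := by
  induction j generalizing z with
  | zero => exact h
  | succ j ih =>
    rw [Function.iterate_succ_apply] at h
    exact mem_fatouSet_of_map hf (ih h)

namespace Sys

theorem mono_succ (hS : Sys f ρ R H) (n : ℕ) : ρ n ≤ ρ (n + 1) := by
  linarith [hS.step n, hS.pos n]

theorem monotone (hS : Sys f ρ R H) : Monotone ρ := monotone_nat_of_le_succ hS.mono_succ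

theorem le_rho (hS : Sys f ρ R H) (n : ℕ) : (n : ℝ) ≤ ρ n := by
  induction n with
  | zero => simpa using (hS.pos 0).le
  | succ n ih =>
    have h1 := hS.step n
    have h2 := hS.one_le n
    push_cast
    linarith

theorem rho_tendsto (hS : Sys f ρ R H) : Tendsto ρ atTop atTop :=
  tendsto_atTop_mono hS.le_rho tendsto_natCast_atTop_atTop

theorem map_B (hS : Sys f ρ R H) {n : ℕ} {z : ℂ} (hz : z ∈ Bset ρ n) : f z ∈ Bset ρ (n + 1) := by
  have h1 := hS.big_out n z hz.1 hz.2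
  have h2 := hS.le_out n z hz.2
  have h3 := hS.pos (n + 1)
  exact ⟨by linarith, h2.le⟩

theorem iterate_B (hS : Sys f ρ R H) {n : ℕ} {z : ℂ} (hz : z ∈ Bset ρ n) (j : ℕ) :
    f^[j] z ∈ Bset ρ (n + j) := by
  induction j with
  | zero => exact hz
  | succ j ih => rw [Function.iterate_succ_apply']; exact hS.map_B ih

theorem escAt_B (hS : Sys f ρ R H) {n : ℕ} {z : ℂ} (hz : z ∈ Bset ρ n) : EscAt f z := by
  let Ω : Set ℂ := {w | 8 * ρ (n + 1) < ‖w‖ ∧ ‖w‖ < ρ (n + 2) / 2}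
  have hΩ : IsOpen Ω := (isOpen_lt continuous_const continuous_norm).inter
    (isOpen_lt continuous_norm continuous_const)
  have hΩB : Ω ⊆ Bset ρ (n + 1) := fun w hw => ⟨hw.1.le, hw.2.le⟩
  refine ⟨f ⁻¹' Ω, hΩ.preimage hS.diff.continuous, ?_, fun M => ?_⟩
  · have h1 := hS.big_out n z hz.1 hz.2
    have h2 := hS.le_out n z hz.2
    have h3 := hS.pos (n + 1)
    exact ⟨by linarith, h2⟩
  · have h2 := hS.rho_tendsto.eventually (eventually_gt_atTop M)
    rw [eventually_atTop] at h2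
    obtain ⟨J, hJ⟩ := h2
    filter_upwards [eventually_ge_atTop (J + 1)] with j hj w hw
    obtain ⟨i, rfl⟩ : ∃ i, j = i + 1 := ⟨j - 1, by omega⟩
    rw [Function.iterate_succ_apply]
    have h3 := (hS.iterate_B (hΩB hw) i).1
    have h4 := hJ (n + 1 + i) (by omega)
    linarith [hS.pos (n + 1 + i)]

theorem base_mem_B (hS : Sys f ρ R H) (n : ℕ) : ((8 * ρ n : ℝ) : ℂ) ∈ Bset ρ n := by
  have hρ := hS.pos n
  have h : ‖((8 * ρ n : ℝ) : ℂ)‖ = 8 * ρ n := by
    rw [Complex.norm_real, Real.norm_eq_abs, abs_of_pos (by positivity)]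
  refine ⟨h.ge, ?_⟩
  rw [h]
  linarith [hS.step n]

theorem base_mem_fatou (hS : Sys f ρ R H) (n : ℕ) : ((8 * ρ n : ℝ) : ℂ) ∈ fatouSet f :=
  (hS.escAt_B (hS.base_mem_B n)).mem_fatouSet

theorem isOpen_U (_hS : Sys f ρ R H) (n : ℕ) : IsOpen (Uset f ρ n) :=
  isOpen_fatouSet.connectedComponentIn

theorem isPreconnected_U (_hS : Sys f ρ R H) (n : ℕ) : IsPreconnected (Uset f ρ n) :=
  isPreconnected_connectedComponentIn

theorem base_mem_U (hS : Sys f ρ R H) (n : ℕ) : ((8 * ρ n : ℝ) : ℂ) ∈ Uset f ρ n :=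
  mem_connectedComponentIn (hS.base_mem_fatou n)

theorem U_subset (_hS : Sys f ρ R H) (n : ℕ) : Uset f ρ n ⊆ fatouSet f :=
  connectedComponentIn_subset _ _

theorem subset_U (_hS : Sys f ρ R H) {n : ℕ} {Q : Set ℂ} (hQ : IsPreconnected Q)
    (hF : Q ⊆ fatouSet f) (hne : (Q ∩ Uset f ρ n).Nonempty) : Q ⊆ Uset f ρ n := by
  obtain ⟨y, hy, hyU⟩ := hne
  have h1 := hQ.subset_connectedComponentIn hy hF
  rwa [← connectedComponentIn_eq hyU] at h1

theorem escAt_U (hS : Sys f ρ R H) {n : ℕ} {z : ℂ} (hz : z ∈ Uset f ρ n) : EscAt f z :=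
  (hS.escAt_B (hS.base_mem_B n)).component hz

theorem isPreconnected_B (hS : Sys f ρ R H) (n : ℕ) : IsPreconnected (Bset ρ n) := by
  have h : Bset ρ n = (fun x : ℝ × ℝ => (x.1 : ℂ) * Complex.exp (x.2 * Complex.I)) ''
      (Icc (8 * ρ n) (ρ (n + 1) / 2) ×ˢ univ) := by
    ext z
    constructor
    · intro hz
      refine ⟨(‖z‖, z.arg), ⟨⟨hz.1, hz.2⟩, mem_univ _⟩, ?_⟩
      exact Complex.norm_mul_exp_arg_mul_I z
    · rintro ⟨⟨x, θ⟩, ⟨⟨h1, h2⟩, -⟩, rfl⟩
      have ha := hS.pos n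
      have hx : 0 < x := by linarith
      have : ‖(x : ℂ) * Complex.exp (θ * Complex.I)‖ = x := by
        rw [norm_mul, Complex.norm_exp_ofReal_mul_I, mul_one, Complex.norm_real,
          Real.norm_eq_abs, abs_of_pos hx]
      refine ⟨?_, ?_⟩
      · show 8 * ρ n ≤ ‖(x : ℂ) * Complex.exp (θ * Complex.I)‖
        rw [this]; exact h1
      · show ‖(x : ℂ) * Complex.exp (θ * Complex.I)‖ ≤ ρ (n + 1) / 2
        rw [this]; exact h2
  rw [h]
  exact (isPreconnected_Icc.prod isPreconnected_univ).image _ (by fun_prop)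

theorem B_subset_U (hS : Sys f ρ R H) (n : ℕ) : Bset ρ n ⊆ Uset f ρ n :=
  hS.subset_U (hS.isPreconnected_B n) (fun _ hz => (hS.escAt_B hz).mem_fatouSet)
    ⟨_, hS.base_mem_B n, hS.base_mem_U n⟩

theorem map_U (hS : Sys f ρ R H) (n : ℕ) : f '' Uset f ρ n ⊆ Uset f ρ (n + 1) := by
  refine hS.subset_U ((hS.isPreconnected_U n).image f hS.diff.continuous.continuousOn) ?_ ?_
  · rintro _ ⟨z, hz, rfl⟩
    exact ((hS.escAt_U hz).map hS.isOpenMap).mem_fatouSet
  · exact ⟨_, mem_image_of_mem f (hS.base_mem_U n), hS.B_subset_U _ (hS.map_B (hS.base_mem_B n))⟩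

theorem iterate_U (hS : Sys f ρ R H) (n j : ℕ) : f^[j] '' Uset f ρ n ⊆ Uset f ρ (n + j) := by
  induction j with
  | zero => simp
  | succ j ih =>
    rw [Function.iterate_succ', image_comp]
    exact (image_mono ih).trans (hS.map_U (n + j))

/-- points of the disc leaving at time `j + 1` are in the Fatou set -/
theorem exit_mem_fatou (hS : Sys f ρ R H) (n j : ℕ) {z : ℂ} (hz : z ∈ Aset f ρ n j)
    (hz' : 8 * ρ (n + (j + 1)) ≤ ‖f^[j + 1] z‖) : z ∈ fatouSet f := by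
  have h1 : ‖f^[j] z‖ ≤ ρ (n + j + 1) / 2 := (hz j le_rfl).le.trans (hS.nine_le _)
  have h2 := hS.le_out (n + j) _ h1
  rw [← Function.iterate_succ_apply' f] at h2
  exact mem_fatouSet_of_iterate hS.diff.continuous (j + 1)
    (hS.escAt_B (n := n + (j + 1)) ⟨hz', h2.le⟩).mem_fatouSet

theorem exit_aux (hS : Sys f ρ R H) (n j : ℕ) {z : ℂ} (hz : z ∈ Aset f ρ n j)
    (hz' : 8 * ρ (n + (j + 1)) < ‖f^[j + 1] z‖) :
    ∃ Ω : Set ℂ, IsPreconnected Ω ∧ Ω ⊆ fatouSet f ∧ z ∈ Ω ∧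
      ∃ z' ∈ Ω, z' ∈ Aset f ρ n j ∧ 8 * ρ (n + j) < ‖f^[j] z'‖ := by
  set E : Set ℂ := Aset f ρ n j ∩ {z | 8 * ρ (n + (j + 1)) < ‖f^[j + 1] z‖} with hE
  have hEo : IsOpen E := (hS.isOpen_Aset n j).inter
    (isOpen_lt continuous_const (hS.iterate_diff (j + 1)).continuous.norm)
  have hzE : z ∈ E := ⟨hz, hz'⟩
  set Ω := connectedComponentIn E z with hΩ
  have hΩo : IsOpen Ω := hEo.connectedComponentIn
  have hΩE : Ω ⊆ E := connectedComponentIn_subset _ _
  have hzΩ : z ∈ Ω := mem_connectedComponentIn hzE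
  refine ⟨Ω, isPreconnected_connectedComponentIn, ?_, hzΩ, ?_⟩
  · intro w hw
    exact hS.exit_mem_fatou n j (hΩE hw).1 (le_of_lt (hΩE hw).2)
  · by_contra hcon
    push Not at hcon
    have hle : ∀ w ∈ Ω, ‖f^[j] w‖ ≤ 8 * ρ (n + j) := fun w hw => hcon w hw (hΩE hw).1
    have hb : Bornology.IsBounded Ω := by
      refine (isBounded_ball (x := (0 : ℂ)) (r := 9 * ρ n)).subset fun w hw => ?_
      exact mem_ball_zero_iff.mpr (hS.Aset_subset_ball (hΩE hw).1)
    have hfr : ∀ w ∈ frontier Ω, ‖f^[j + 1] w‖ ≤ 8 * ρ (n + (j + 1)) := by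
      intro w hw
      rw [hΩo.frontier_eq] at hw
      by_contra hlt
      push Not at hlt
      refine hw.2 (mem_component_of_mem_closure hzE hw.1 ⟨?_, hlt⟩)
      have h1 : ∀ i ≤ j, ‖f^[i] w‖ ≤ 9 * ρ (n + i) := by
        intro i hi
        have hcl : IsClosed {w | ‖f^[i] w‖ ≤ 9 * ρ (n + i)} :=
          isClosed_le (hS.iterate_diff i).continuous.norm continuous_const
        exact closure_minimal (fun u hu => ((hΩE hu).1 i hi).le) hcl hw.1
      have h2 : ‖f^[j] w‖ ≤ 8 * ρ (n + j) := by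
        have hcl : IsClosed {w | ‖f^[j] w‖ ≤ 8 * ρ (n + j)} :=
          isClosed_le (hS.iterate_diff j).continuous.norm continuous_const
        exact closure_minimal hle hcl hw.1
      exact hS.mem_Aset_of_le h1 (by linarith [hS.pos (n + j)])
    have h3 := Complex.norm_le_of_forall_mem_frontier_norm_le hb (hS.iterate_diff (j + 1)).diffContOnCl
      hfr (subset_closure hzΩ)
    linarith

/-- The points leaving the discs are in the Fatou component. -/
theorem exit_mem_U (hS : Sys f ρ R H) (n j : ℕ) {z : ℂ} (hz : z ∈ Aset f ρ n j)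
    (hz' : 8 * ρ (n + (j + 1)) < ‖f^[j + 1] z‖) : z ∈ Uset f ρ n := by
  induction j generalizing z with
  | zero =>
    obtain ⟨Ω, hΩp, hΩF, hzΩ, z', hz'Ω, hz'A, hz'g⟩ := hS.exit_aux n 0 hz hz'
    refine hS.subset_U hΩp hΩF ⟨z', hz'Ω, hS.B_subset_U n ⟨?_, ?_⟩⟩ hzΩ
    · simpa using hz'g.le
    · exact (hS.Aset_subset_ball hz'A).le.trans (hS.nine_le n)
  | succ j ih =>
    obtain ⟨Ω, hΩp, hΩF, hzΩ, z', hz'Ω, hz'A, hz'g⟩ := hS.exit_aux n (j + 1) hz hz'
    refine hS.subset_U hΩp hΩF ⟨z', hz'Ω, ih (fun i hi => hz'A i (hi.trans (Nat.le_succ j))) hz'g⟩ hzΩ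

/-- The points of the disc not in `K n` are in `U n`. -/
theorem mem_U_of_notMem_K (hS : Sys f ρ R H) {n : ℕ} {z : ℂ} (hz : ‖z‖ < 9 * ρ n)
    (hK : z ∉ Kset f ρ n) : z ∈ Uset f ρ n := by
  have hex : ∃ j, 9 * ρ (n + j) ≤ ‖f^[j] z‖ := by
    by_contra hcon
    push Not at hcon
    exact hK hcon
  classical
  set j := Nat.find hex with hj
  have h1 : 9 * ρ (n + j) ≤ ‖f^[j] z‖ := Nat.find_spec hex
  have h2 : ∀ i < j, ‖f^[i] z‖ < 9 * ρ (n + i) := fun i hi => not_le.mp (Nat.find_min hex hi)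
  clear_value j
  cases j with
  | zero => simp at h1; linarith
  | succ j =>
    exact hS.exit_mem_U n j (fun i hi => h2 i (Nat.lt_succ_of_le hi))
      (by linarith [hS.pos (n + (j + 1))])

theorem log_rho_pos (hS : Sys f ρ R H) (n : ℕ) : 1 ≤ Real.log (ρ n) := by
  have h1 := hS.one_le n
  rw [Real.le_log_iff_exp_le (hS.pos n)]
  linarith [Real.exp_one_lt_d9]

theorem log_rho_tendsto (hS : Sys f ρ R H) : Tendsto (fun n => Real.log (ρ n)) atTop atTop :=
  Real.tendsto_log_atTop.comp hS.rho_tendsto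

theorem norm_B (hS : Sys f ρ R H) {n : ℕ} {z : ℂ} (hz : z ∈ Bset ρ n) : 24 ≤ ‖z‖ := by
  linarith [hz.1, hS.one_le n]

theorem two_le_log (hS : Sys f ρ R H) {n : ℕ} {z : ℂ} (hz : z ∈ Bset ρ n) :
    2 ≤ Real.log (‖z‖ / ρ n) := by
  have hρ := hS.pos n
  have h1 : 8 ≤ ‖z‖ / ρ n := by rw [le_div_iff₀ hρ]; exact hz.1
  rw [Real.le_log_iff_exp_le (by linarith)]
  have h2 : Real.exp 2 = Real.exp 1 * Real.exp 1 := by rw [← Real.exp_add]; norm_num
  rw [h2]
  have h3 := Real.exp_one_lt_d9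
  have h4 := Real.exp_pos 1
  nlinarith

/-- growth of the orbits in the annuli -/
theorem growth (hS : Sys f ρ R H) {n : ℕ} {z : ℂ} (hz : z ∈ Bset ρ n) (j : ℕ) :
    Real.log (ρ (n + (j + 2))) * (1 + 2 * Real.log (ρ (n + (j + 1)))) ≤ Real.log ‖f^[j + 2] z‖ := by
  have hB1 := hS.iterate_B hz j
  have hB2 := hS.iterate_B hz (j + 1)
  have hρ1 := hS.pos (n + (j + 1))
  have hL1 := hS.log_rho_pos (n + (j + 1))
  have hL2 := hS.log_rho_pos (n + (j + 2))
  have h1 := hS.grow (n + j) _ hB1.1 hB1.2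
  rw [← Function.iterate_succ_apply' f] at h1
  have h2 := hS.two_le_log hB1
  have h3 : 3 * Real.log (ρ (n + (j + 1))) ≤ Real.log ‖f^[j + 1] z‖ := by
    refine le_trans ?_ h1
    rw [show n + j + 1 = n + (j + 1) by ring]
    nlinarith
  have h4 := hS.grow (n + (j + 1)) _ hB2.1 hB2.2
  rw [← Function.iterate_succ_apply' f] at h4
  have h5 : Real.log (‖f^[j + 1] z‖ / ρ (n + (j + 1))) =
      Real.log ‖f^[j + 1] z‖ - Real.log (ρ (n + (j + 1))) := by
    rw [Real.log_div (by have := hS.norm_B hB2; positivity) hρ1.ne']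
  rw [h5] at h4
  refine le_trans ?_ h4
  rw [show n + (j + 1) + 1 = n + (j + 2) by ring]
  nlinarith

/-- Orbits in `U n` are eventually in the annuli (lower bound). -/
theorem eventually_large (hS : Sys f ρ R H) {n : ℕ} {z : ℂ} (hz : z ∈ Uset f ρ n) :
    ∀ᶠ j in atTop, 9 * ρ (n + j) < ‖f^[j] z‖ := by
  have hR : Rel f ((8 * ρ n : ℝ) : ℂ) z :=
    rel_of_mem hS.diff (hS.escAt_B (hS.base_mem_B n)) hz
  obtain ⟨K, hK, h3⟩ := hR
  have hev : ∀ᶠ j in atTop, 3 * K < 1 + 2 * Real.log (ρ (n + (j + 1))) := by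
    have h1 : Tendsto (fun j : ℕ => n + (j + 1)) atTop atTop :=
      tendsto_atTop_mono (fun j => by simp only [id]; omega) tendsto_id
    have h2 := (hS.log_rho_tendsto.comp h1).eventually (eventually_gt_atTop (3 * K))
    filter_upwards [h2] with j hj
    simp only [Function.comp_apply] at hj
    linarith [hS.log_rho_pos (n + (j + 1))]
  have hev' : ∀ᶠ j in atTop, 9 * ρ (n + (j + 2)) < ‖f^[j + 2] z‖ := by
    filter_upwards [(tendsto_add_atTop_nat 2).eventually h3, hev,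
      (tendsto_add_atTop_nat 2).eventually ((hS.escAt_U hz).tendsto.eventually (eventually_gt_atTop 0))]
      with j h3 h4 hpos
    by_contra hcon
    push Not at hcon
    have hL := hS.log_rho_pos (n + (j + 2))
    have hρ := hS.pos (n + (j + 2))
    have h5 : Real.log ‖f^[j + 2] z‖ ≤ 3 * Real.log (ρ (n + (j + 2))) := by
      refine (Real.log_le_log hpos hcon).trans ?_
      rw [show (3 : ℝ) * Real.log (ρ (n + (j + 2))) = Real.log (ρ (n + (j + 2)) ^ 3) by
        rw [Real.log_pow]; norm_num]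
      refine Real.log_le_log (by positivity) ?_
      have h6 := hS.one_le (n + (j + 2))
      nlinarith [mul_le_mul h6 h6 (by norm_num) (by linarith)]
    have h6 := hS.growth (hS.base_mem_B n) j
    have h7 : Real.log (ρ (n + (j + 2))) * (1 + 2 * Real.log (ρ (n + (j + 1)))) ≤
        K * (3 * Real.log (ρ (n + (j + 2)))) := h6.trans (h3.trans (by gcongr))
    have h8 : Real.log (ρ (n + (j + 2))) * (1 + 2 * Real.log (ρ (n + (j + 1)))) ≤
        Real.log (ρ (n + (j + 2))) * (3 * K) := by linarith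
    have h9 := le_of_mul_le_mul_left h8 (by linarith)
    linarith
  rw [eventually_atTop] at hev' ⊢
  obtain ⟨N, hN⟩ := hev'
  refine ⟨N + 2, fun j hj => ?_⟩
  obtain ⟨i, rfl⟩ : ∃ i, j = i + 2 := ⟨j - 2, by omega⟩
  exact hN i (by omega)

/-- Orbits in `U n` are eventually in the annuli (upper bound). -/
theorem eventually_small (hS : Sys f ρ R H) {n : ℕ} {z : ℂ} (hz : z ∈ Uset f ρ n) :
    ∀ᶠ j in atTop, ‖f^[j] z‖ < ρ (n + j + 1) / 2 := by
  have hR : Rel f z ((8 * ρ n : ℝ) : ℂ) := by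
    refine rel_of_mem hS.diff (hS.escAt_U hz) ?_
    rw [← connectedComponentIn_eq (show z ∈ connectedComponentIn (fatouSet f) _ from hz)]
    exact hS.base_mem_U n
  obtain ⟨K, hK, h3⟩ := hR
  obtain ⟨N, hN⟩ := exists_nat_gt (2 * K)
  have hev' : ∀ᶠ j in atTop, ‖f^[j + 1] z‖ < ρ (n + (j + 1) + 1) / 2 := by
    filter_upwards [(tendsto_add_atTop_nat 1).eventually h3, eventually_ge_atTop N,
      (tendsto_add_atTop_nat 1).eventually ((hS.escAt_U hz).tendsto.eventually (eventually_gt_atTop 0))]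
      with j h3 h4 hpos
    have hB := hS.iterate_B (hS.base_mem_B n) j
    have hB1 := hS.iterate_B (hS.base_mem_B n) (j + 1)
    have h5 := hS.slow (n + j) _ hB.2
    rw [← Function.iterate_succ_apply' f] at h5
    set b : ℂ := ((8 * ρ n : ℝ) : ℂ) with hb
    have hbpos : 0 < ‖f^[j + 1] b‖ := by linarith [hS.norm_B hB1]
    have hρ := hS.pos (n + (j + 1) + 1)
    have h6 := Real.log_le_log (by positivity) h5
    rw [Real.log_pow, show n + j + 2 = n + (j + 1) + 1 by ring] at h6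
    have hlb : 0 < Real.log ‖f^[j + 1] b‖ := Real.log_pos (by linarith [hS.norm_B hB1])
    have h7 : 2 * Real.log ‖f^[j + 1] z‖ ≤ Real.log (ρ (n + (j + 1) + 1)) := by
      refine le_trans ?_ h6
      have h8 : (N : ℝ) ≤ j := by exact_mod_cast h4
      have h9 : (0 : ℝ) ≤ n := Nat.cast_nonneg n
      push_cast
      calc 2 * Real.log ‖f^[j + 1] z‖ ≤ 2 * (K * Real.log ‖f^[j + 1] b‖) := by linarith
        _ = (2 * K) * Real.log ‖f^[j + 1] b‖ := by ring
        _ ≤ (n + (j + 1) + 1) * Real.log ‖f^[j + 1] b‖ := by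
          apply mul_le_mul_of_nonneg_right _ hlb.le
          linarith
    have h10 : ‖f^[j + 1] z‖ ^ 2 ≤ ρ (n + (j + 1) + 1) := by
      rw [← Real.log_le_log_iff (by positivity) hρ, Real.log_pow]
      exact_mod_cast h7
    have h11 : 54 * 3 ≤ ρ (n + (j + 1) + 1) := by
      linarith [hS.step (n + (j + 1)), hS.one_le (n + (j + 1))]
    by_contra hcon
    push Not at hcon
    nlinarith
  rw [eventually_atTop] at hev' ⊢
  obtain ⟨N, hN⟩ := hev'
  refine ⟨N + 1, fun j hj => ?_⟩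
  obtain ⟨i, rfl⟩ : ∃ i, j = i + 1 := ⟨j - 1, by omega⟩
  exact hN i (by omega)

theorem notMem_U_of_mem_K (hS : Sys f ρ R H) {n : ℕ} {z : ℂ} (hz : z ∈ Kset f ρ n) :
    z ∉ Uset f ρ n := by
  intro hU
  obtain ⟨j, hj⟩ := (hS.eventually_large hU).exists
  exact lt_asymm hj (hz j)

theorem U_injective (hS : Sys f ρ R H) : ∀ m n, m < n → Uset f ρ m ≠ Uset f ρ n := by
  intro m n hmn heq
  have h1 := hS.base_mem_U n
  rw [← heq] at h1
  obtain ⟨j, hj⟩ := (hS.eventually_small h1).exists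
  have h2 := (hS.iterate_B (hS.base_mem_B n) j).1
  have h3 : ρ (m + j + 1) ≤ ρ (n + j) := hS.monotone (by omega)
  linarith [hS.pos (m + j + 1)]

theorem sphere_subset_U (hS : Sys f ρ R H) (n : ℕ) {z : ℂ} (hz : ‖z‖ = 17 / 2 * ρ n) :
    z ∈ Uset f ρ n := by
  refine hS.B_subset_U n ⟨?_, ?_⟩
  · rw [hz]; linarith [hS.pos n]
  · rw [hz]; linarith [hS.nine_le n, hS.pos n]

theorem zero_mem_K (hS : Sys f ρ R H) (n : ℕ) : (0 : ℂ) ∈ Kset f ρ n := by
  intro j
  rw [hS.iterate_zero, norm_zero]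
  linarith [hS.pos (n + j)]

theorem multiply (hS : Sys f ρ R H) (n : ℕ) : IsMultiplyConnected (Uset f ρ n) := by
  have h0 : (0 : ℂ) ∈ (Uset f ρ n)ᶜ := hS.notMem_U_of_mem_K (hS.zero_mem_K n)
  refine ⟨0, h0, ?_⟩
  have hρ := hS.pos n
  refine (isBounded_ball (x := (0 : ℂ)) (r := 17 / 2 * ρ n)).subset ?_
  refine subset_of_disjoint_frontier isPreconnected_connectedComponentIn isOpen_ball ?_
    ⟨0, mem_connectedComponentIn h0, mem_ball_self (by positivity)⟩
  rw [Set.disjoint_left]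
  intro z hz hzf
  rw [frontier_ball _ (by positivity), mem_sphere_zero_iff_norm] at hzf
  exact connectedComponentIn_subset _ _ hz (hS.sphere_subset_U n hzf)

end Sys

end Pool.Agent.Work.MP_571b65_an_Q2
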