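import Mathlib
import Pool.Agent.Work.MP_571b65_an_Q2.FatouPart

/-!
# Inner connectivity and absence of point components
-/

open Filter Topology Metric Set

namespace Pool.Agent.Work.MP_571b65_an_Q2

open MP_571b65_an

variable {f : ℂ → ℂ} {ρ R H : ℕ → ℝ}

namespace Sys

/-- The component of `p ∈ K k` in the complement of `U k ∩ {|z| < r}` in the sphere. -/
theorem component_sphere (hS : Sys f ρ R H) (k : ℕ) {r : ℝ} (hr : 9 * ρ k < r) {p : ℂ}
    (hp : p ∈ Kset f ρ k) :
    ((↑) : ℂ → OnePoint ℂ) ⁻¹' (connectedComponentIn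
      (((↑) : ℂ → OnePoint ℂ) '' (Uset f ρ k ∩ ball 0 r))ᶜ (p : OnePoint ℂ)) =
      connectedComponentIn (Kset f ρ k) p := by
  have hρ := hS.pos k
  set V : Set ℂ := Uset f ρ k ∩ ball 0 r with hV
  set Z : Set (OnePoint ℂ) := (((↑) : ℂ → OnePoint ℂ) '' V)ᶜ with hZ
  have hKZ : ∀ z ∈ Kset f ρ k, (z : OnePoint ℂ) ∈ Z := by
    rintro z hz ⟨y, hy, hyz⟩
    rw [OnePoint.coe_eq_coe] at hyz
    rw [hyz] at hy
    exact hS.notMem_U_of_mem_K hz hy.1
  set Q := connectedComponentIn Z (p : OnePoint ℂ) with hQ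
  have hpQ : (p : OnePoint ℂ) ∈ Q := mem_connectedComponentIn (hKZ p hp)
  have hQp : IsPreconnected Q := isPreconnected_connectedComponentIn
  -- `Q` is contained in the image of `K`
  have hQO : Q ⊆ ((↑) : ℂ → OnePoint ℂ) '' ball 0 (17 / 2 * ρ k) := by
    refine subset_of_disjoint_frontier hQp (OnePoint.isOpenEmbedding_coe.isOpenMap _ isOpen_ball) ?_
      ⟨p, hpQ, mem_image_of_mem _ ?_⟩
    · rw [Set.disjoint_left]
      intro x hx hxf
      obtain ⟨y, hy, rfl⟩ := frontier_coe_image isOpen_ball isBounded_ball hxf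
      rw [frontier_ball _ (by positivity), mem_sphere_zero_iff_norm] at hy
      refine connectedComponentIn_subset _ _ hx (mem_image_of_mem _ ⟨hS.sphere_subset_U k hy, ?_⟩)
      rw [mem_ball_zero_iff, hy]
      linarith
    · rw [mem_ball_zero_iff]
      by_contra hcon
      push Not at hcon
      have h1 : ‖p‖ < 9 * ρ k := by simpa using hp 0
      exact hS.notMem_U_of_mem_K hp (hS.B_subset_U k ⟨by linarith, h1.le.trans (hS.nine_le k)⟩)
  have hQK : Q ⊆ ((↑) : ℂ → OnePoint ℂ) '' Kset f ρ k := by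
    intro x hx
    obtain ⟨y, hy, rfl⟩ := hQO hx
    rw [mem_ball_zero_iff] at hy
    refine mem_image_of_mem _ ?_
    by_contra hyK
    have h1 := hS.mem_U_of_notMem_K (n := k) (z := y) (by linarith) hyK
    exact connectedComponentIn_subset _ _ hx
      (mem_image_of_mem _ ⟨h1, mem_ball_zero_iff.mpr (by linarith)⟩)
  apply subset_antisymm
  · have himg : ((↑) : ℂ → OnePoint ℂ) '' (((↑) : ℂ → OnePoint ℂ) ⁻¹' Q) = Q := by
      rw [image_preimage_eq_inter_range]
      refine inter_eq_left.mpr fun x hx => ?_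
      obtain ⟨y, -, rfl⟩ := hQK hx
      exact mem_range_self y
    have hpre : IsPreconnected (((↑) : ℂ → OnePoint ℂ) ⁻¹' Q) := by
      rw [← OnePoint.isOpenEmbedding_coe.isInducing.isPreconnected_image, himg]
      exact hQp
    refine hpre.subset_connectedComponentIn hpQ ?_
    intro z hz
    obtain ⟨y, hy, hyz⟩ := hQK hz
    rw [OnePoint.coe_eq_coe] at hyz
    rwa [← hyz]
  · intro z hz
    have h1 : IsPreconnected (((↑) : ℂ → OnePoint ℂ) '' connectedComponentIn (Kset f ρ k) p) :=
      isPreconnected_connectedComponentIn.image _ OnePoint.continuous_coe.continuousOn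
    have h2 := h1.subset_connectedComponentIn (F := Z)
      (mem_image_of_mem _ (mem_connectedComponentIn hp)) (by
        rintro _ ⟨y, hy, rfl⟩
        exact hKZ y (connectedComponentIn_subset _ _ hy))
    exact h2 (mem_image_of_mem _ hz)

theorem infinite_components (hS : Sys f ρ R H) (k : ℕ) {r : ℝ} (hr : 9 * ρ k < r) :
    (sphereComplementComponents (Uset f ρ k ∩ ball 0 r)).Infinite := by
  intro hfin
  have h1 := hfin.image (fun Q => ((↑) : ℂ → OnePoint ℂ) ⁻¹' Q)
  refine hS.K_infinite k (h1.subset ?_)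
  rintro _ ⟨p, hp, rfl⟩
  refine ⟨connectedComponentIn (((↑) : ℂ → OnePoint ℂ) '' (Uset f ρ k ∩ ball 0 r))ᶜ
    (p : OnePoint ℂ), ⟨p, ?_, rfl⟩, hS.component_sphere k hr hp⟩
  rintro ⟨y, hy, hyz⟩
  rw [OnePoint.coe_eq_coe] at hyz
  rw [hyz] at hy
  exact hS.notMem_U_of_mem_K hp hy.1

theorem no_singleton (hS : Sys f ρ R H) (n : ℕ) : singletonComponents (Uset f ρ n) = ∅ := by
  rw [Set.eq_empty_iff_forall_notMem]
  rintro p ⟨hpU, hcomp⟩
  have hUo := hS.isOpen_U n
  have hUc : IsClosed (Uset f ρ n)ᶜ := hUo.isClosed_compl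
  -- the point is not in the Fatou set
  have hpF : p ∉ fatouSet f := by
    intro hF
    set V := connectedComponentIn (fatouSet f) p with hV
    have hVo : IsOpen V := isOpen_fatouSet.connectedComponentIn
    have hpV : p ∈ V := mem_connectedComponentIn hF
    have hVp : IsPreconnected V := isPreconnected_connectedComponentIn
    have hVU : V ⊆ (Uset f ρ n)ᶜ := by
      intro z hz hzU
      exact hpU (hS.subset_U hVp (connectedComponentIn_subset _ _) ⟨z, hz, hzU⟩ hpV)
    have h1 := hVp.subset_connectedComponentIn hpV hVU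
    rw [hcomp] at h1
    have h2 : V = {p} := subset_antisymm h1 (singleton_subset_iff.mpr hpV)
    rw [h2] at hVo
    exact not_isOpen_singleton p hVo
  -- the orbit
  by_cases hall : ∀ j, ρ (n + j + 1) / 2 ≤ ‖f^[j] p‖
  · -- outer points
    obtain ⟨N, hNo, hpN, hNb, hNf⟩ := exists_open_of_component_eq hUc hpU hcomp one_pos
    have hNbdd : Bornology.IsBounded N := isBounded_ball.subset hNb
    have hfc : IsCompact (frontier N) :=
      Metric.isCompact_of_isClosed_isBounded isClosed_frontier
        (hNbdd.closure.subset frontier_subset_closure)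
    have hfU : frontier N ⊆ Uset f ρ n := by
      intro z hz
      by_contra hzU
      exact Set.disjoint_left.mp hNf hz hzU
    have hstep : ∀ z : ℂ, ∀ j, ‖f^[j] z‖ < ρ (n + j + 1) / 2 →
        ‖f^[j + 1] z‖ < ρ (n + (j + 1) + 1) / 2 := by
      intro z j hj
      rw [Function.iterate_succ_apply']
      exact hS.le_out (n + j) _ hj.le
    have hmono : ∀ z : ℂ, ∀ i j, i ≤ j → ‖f^[i] z‖ < ρ (n + i + 1) / 2 →
        ‖f^[j] z‖ < ρ (n + j + 1) / 2 := by
      intro z i j hij hi
      induction j, hij using Nat.le_induction with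
      | base => exact hi
      | succ j _ ih => exact hstep z j ih
    have hinter : frontier N ∩ ⋂ j : ℕ, {z | ρ (n + j + 1) / 2 ≤ ‖f^[j] z‖} = ∅ := by
      rw [Set.eq_empty_iff_forall_notMem]
      rintro z ⟨hz, hz'⟩
      obtain ⟨j, hj⟩ := (hS.eventually_small (hfU hz)).exists
      have := mem_iInter.mp hz' j
      exact absurd hj (not_lt.mpr this)
    obtain ⟨j, hj⟩ := hfc.elim_directed_family_closed _
      (fun j => isClosed_le continuous_const (hS.iterate_diff j).continuous.norm) hinter (by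
      intro a b
      refine ⟨max a b, ?_, ?_⟩
      · intro z hz
        by_contra hcon
        exact absurd (hmono z a _ (le_max_left a b) (not_le.mp hcon)) (not_lt.mpr hz)
      · intro z hz
        by_contra hcon
        exact absurd (hmono z b _ (le_max_right a b) (not_le.mp hcon)) (not_lt.mpr hz))
    have hfne : (frontier N).Nonempty := by
      rw [nonempty_frontier_iff]
      refine ⟨⟨p, hpN⟩, fun h => ?_⟩
      rw [h] at hNbdd
      exact NormedSpace.unbounded_univ ℝ ℂ hNbdd
    obtain ⟨u, hu, hmax⟩ := hfc.exists_isMaxOn hfne (hS.iterate_diff j).continuous.norm.continuousOn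
    have h1 := Complex.norm_le_of_forall_mem_frontier_norm_le hNbdd (hS.iterate_diff j).diffContOnCl
      (fun v hv => hmax hv) (subset_closure hpN)
    have h2 : ‖f^[j] u‖ < ρ (n + j + 1) / 2 := by
      by_contra hcon
      push Not at hcon
      have : u ∈ frontier N ∩ {z | ρ (n + j + 1) / 2 ≤ ‖f^[j] z‖} := ⟨hu, hcon⟩
      rw [hj] at this
      exact this
    have h3 := hall j
    simp only at h1
    linarith
  · push Not at hall
    obtain ⟨j, hj⟩ := hall
    have hnF : f^[j] p ∉ fatouSet f := fun h =>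
      hpF (mem_fatouSet_of_iterate hS.diff.continuous j h)
    have h8 : ‖f^[j] p‖ < 8 * ρ (n + j) := by
      by_contra hcon
      push Not at hcon
      exact hnF (hS.escAt_B (n := n + j) ⟨hcon, hj.le⟩).mem_fatouSet
    have hK : f^[j] p ∈ Kset f ρ (n + j) := by
      by_contra hcon
      exact hnF (hS.U_subset _ (hS.mem_U_of_notMem_K (by linarith [hS.pos (n + j)]) hcon))
    set Y := connectedComponentIn (Kset f ρ (n + j)) (f^[j] p) with hY
    have hYc : IsClosed Y := by
      refine isClosed_of_closure_subset fun w hw => ?_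
      have h1 : w ∈ Kset f ρ (n + j) :=
        closure_minimal (connectedComponentIn_subset _ _) (hS.isClosed_Kset _) hw
      exact mem_component_of_mem_closure hK hw h1
    have hpY : f^[j] p ∈ Y := mem_connectedComponentIn hK
    obtain ⟨y, hy, hyne⟩ : ∃ y ∈ Y, y ≠ f^[j] p := by
      by_contra hcon
      push Not at hcon
      exact hS.K_nontrivial _ hK (subset_antisymm hcon (singleton_subset_iff.mpr hpY))
    refine component_preimage_ne (hS.iterate_diff j).continuous (hS.iterate_open j) hYc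
      isPreconnected_connectedComponentIn hpY hy hyne hUc ?_ hcomp
    intro z hz hzU
    exact hS.notMem_U_of_mem_K (connectedComponentIn_subset _ _ hz)
      (hS.iterate_U n j (mem_image_of_mem _ hzU))

theorem transcendental (hS : Sys f ρ R H) (Q : Polynomial ℂ) : ∃ z, f z ≠ Q.eval z := by
  by_contra hcon
  push Not at hcon
  have hQ0 : Q ≠ 0 := by
    rintro rfl
    have h1 := hS.big_out 0 _ (hS.base_mem_B 0).1 (hS.base_mem_B 0).2
    rw [hcon, Polynomial.eval_zero, norm_zero] at h1
    linarith [hS.pos (0 + 1)]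
  have hfin : {z : ℂ | Q.IsRoot z}.Finite := Polynomial.finite_setOfPred_isRoot hQ0
  obtain ⟨r, hr⟩ := hfin.isBounded.subset_closedBall 0
  obtain ⟨k, hk⟩ := (hS.rho_tendsto.eventually (eventually_gt_atTop r)).exists
  obtain ⟨b, -, hb2, hb3⟩ := hS.exists_outer_zero k
  have h1 : b ∈ {z : ℂ | Q.IsRoot z} := by
    show Q.eval b = 0
    rw [← hcon b, hb3]
  have h2 := mem_closedBall_zero_iff.mp (hr h1)
  linarith [hS.pos k]

theorem isFatouComponent_U (hS : Sys f ρ R H) (n : ℕ) : IsFatouComponent f (Uset f ρ n) :=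
  ⟨_, hS.base_mem_fatou n, rfl⟩

theorem main (hS : Sys f ρ R H) :
    (∀ Q : Polynomial ℂ, ∃ z, f z ≠ Q.eval z) ∧ ∃ U W, IsMCWanderingDomain f U W ∧
      HasInfiniteInnerConnectivity f U W ∧ singletonComponents U = ∅ := by
  refine ⟨hS.transcendental, Uset f ρ 0, fun j => Uset f ρ (0 + j),
    ⟨hS.isFatouComponent_U 0, hS.multiply 0, fun j => hS.isFatouComponent_U _,
      fun j => hS.iterate_U 0 j, ?_⟩, ?_, hS.no_singleton 0⟩
  · intro i j hij
    rcases lt_or_gt_of_ne hij with h | h
    · exact hS.U_injective _ _ (by omega)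
    · exact (hS.U_injective _ _ (by omega)).symm
  · intro z hz
    have h1 := hS.eventually_large hz
    rw [eventually_atTop] at h1
    obtain ⟨N, hN⟩ := h1
    exact ⟨N, fun j hj => hS.infinite_components (0 + j) (hN j hj)⟩

end Sys

end Pool.Agent.Work.MP_571b65_an_Q2
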